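import Pool.Agent.H893.AB.Stm

/-!
# AB, task fg: value groups of Abhyankar valuations are finitely generated (helper740)
-/

set_option autoImplicit false

universe u

namespace Pool.Agent.H893.AB

open Polynomial
open scoped NNReal

namespace Pfg

/-- a sum of nonzero elements with pairwise different values has the value of one of them -/
theorem sum_val {K : Type u} [Field K] (v : Valuation K ℝ≥0) {ι : Type*} (s : Finset ι)
    (hs : s.Nonempty) (f : ι → K) (h0 : ∀ i ∈ s, f i ≠ 0)
    (hinj : ∀ i ∈ s, ∀ j ∈ s, v (f i) = v (f j) → i = j) :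
    ∃ i ∈ s, v (∑ j ∈ s, f j) = v (f i) := by
  classical
  obtain ⟨i, hi, hmax⟩ := s.exists_max_image (fun j => v (f j)) hs
  refine ⟨i, hi, ?_⟩
  rw [← Finset.add_sum_erase s f hi]
  apply Valuation.map_add_eq_of_lt_left
  apply Valuation.map_sum_lt v ((Valuation.ne_zero_iff v).2 (h0 i hi))
  intro j hj
  rw [Finset.mem_erase] at hj
  refine lt_of_le_of_ne (hmax j hj.2) fun h => hj.1 (hinj j hj.2 i hi h)

section
variable {k K : Type u} [Field k] [Field K] [Algebra k K] (v : Valuation K ℝ≥0)
  (hk : ∀ c : k, c ≠ 0 → v (algebraMap k K c) = 1) {r : ℕ} (x : Fin r → K) (hx : ∀ i, x i ≠ 0)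
  (hind : ∀ m : Fin r → ℤ, ∏ i, v (x i) ^ m i = 1 → m = 0)

include hk hx hind

theorem poly_val (P : MvPolynomial (Fin r) k) (hP : P ≠ 0) :
    ∃ m : Fin r → ℤ, v (MvPolynomial.aeval x P) = ∏ i, v (x i) ^ m i := by
  have hvx : ∀ i, v (x i) ≠ 0 := fun i => (Valuation.ne_zero_iff v).2 (hx i)
  have hterm : ∀ m ∈ P.support, v (algebraMap k K (P.coeff m) * ∏ i, x i ^ m i) =
      ∏ i, v (x i) ^ (m i : ℤ) := by
    intro m hm
    rw [map_mul, hk _ (MvPolynomial.mem_support_iff.1 hm), one_mul, map_prod]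
    exact Finset.prod_congr rfl fun i _ => by rw [map_pow, zpow_natCast]
  have h1 := sum_val v P.support (MvPolynomial.support_nonempty.2 hP)
    (fun m => algebraMap k K (P.coeff m) * ∏ i, x i ^ m i) (fun m hm => by
      rw [← Valuation.ne_zero_iff v, hterm m hm]
      exact Finset.prod_ne_zero_iff.2 fun i _ => zpow_ne_zero _ (hvx i)) (fun m hm m' hm' h => by
      rw [hterm m hm, hterm m' hm'] at h
      have h2 : ∏ i, v (x i) ^ ((m i : ℤ) - m' i) = 1 := by
        rw [Finset.prod_congr rfl fun i _ => zpow_sub₀ (hvx i) _ _, Finset.prod_div_distrib, h]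
        exact div_self (Finset.prod_ne_zero_iff.2 fun i _ => zpow_ne_zero _ (hvx i))
      have h3 := hind _ h2
      ext i
      have h4 := congrFun h3 i
      simp only [Pi.zero_apply] at h4
      omega)
  obtain ⟨m, hm, h2⟩ := h1
  refine ⟨fun i => (m i : ℤ), ?_⟩
  rw [← hterm m hm, ← h2]
  congr 1
  rw [MvPolynomial.aeval_def, MvPolynomial.eval₂_eq']

theorem algInd : AlgebraicIndependent k x := by
  rw [algebraicIndependent_iff]
  intro P hP
  by_contra h
  obtain ⟨m, hm⟩ := poly_val v hk x hx hind P h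
  rw [hP, map_zero] at hm
  exact Finset.prod_ne_zero_iff.2 (fun i _ => zpow_ne_zero _ ((Valuation.ne_zero_iff v).2 (hx i)))
    hm.symm

theorem field_val (z : K) (hz : z ∈ IntermediateField.adjoin k (Set.range x)) (hz0 : z ≠ 0) :
    ∃ m : Fin r → ℤ, v z = ∏ i, v (x i) ^ m i := by
  rw [IntermediateField.mem_adjoin_range_iff] at hz
  obtain ⟨P, Q, rfl⟩ := hz
  have hP : P ≠ 0 := by
    rintro rfl
    simp at hz0
  have hQ : Q ≠ 0 := by
    rintro rfl
    simp at hz0
  obtain ⟨m, hm⟩ := poly_val v hk x hx hind P hP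
  obtain ⟨m', hm'⟩ := poly_val v hk x hx hind Q hQ
  refine ⟨fun i => m i - m' i, ?_⟩
  rw [map_div₀, hm, hm', ← Finset.prod_div_distrib]
  exact Finset.prod_congr rfl fun i _ =>
    (zpow_sub₀ ((Valuation.ne_zero_iff v).2 (hx i)) _ _).symm

/-- powers of the values are values of monomials, with bounded exponents -/
theorem tors (z : K) (hz0 : z ≠ 0)
    (P : (IntermediateField.adjoin k (Set.range x))[X]) (hP : P ≠ 0) (hPz : aeval z P = 0) :
    ∃ n : ℕ, n ≠ 0 ∧ n ≤ P.natDegree ∧ ∃ m : Fin r → ℤ, v z ^ n = ∏ i, v (x i) ^ m i := by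
  have hvz : v z ≠ 0 := (Valuation.ne_zero_iff v).2 hz0
  have hvx : ∀ i, v (x i) ≠ 0 := fun i => (Valuation.ne_zero_iff v).2 (hx i)
  by_contra hcon
  have h1 := sum_val v P.support (Polynomial.support_nonempty.2 hP)
    (fun j => ((P.coeff j : K)) * z ^ j) (fun j hj => by
      refine mul_ne_zero ?_ (pow_ne_zero _ hz0)
      intro h
      exact Polynomial.mem_support_iff.1 hj (Subtype.ext h)) (fun i hi j hj h => by
      have key : ∀ i j : ℕ, i ∈ P.support → j ∈ P.support → i < j →
          v ((P.coeff i : K) * z ^ i) = v ((P.coeff j : K) * z ^ j) → False := by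
        intro i j hi hj hij h
        apply hcon
        refine ⟨j - i, by omega, ?_, ?_⟩
        · have := Polynomial.le_natDegree_of_mem_supp j hj
          omega
        · have hi0 : (P.coeff i : K) ≠ 0 := fun h =>
            Polynomial.mem_support_iff.1 hi (Subtype.ext h)
          have hj0 : (P.coeff j : K) ≠ 0 := fun h =>
            Polynomial.mem_support_iff.1 hj (Subtype.ext h)
          obtain ⟨m, hm⟩ := field_val v hk x hx hind _ (P.coeff i).2 hi0
          obtain ⟨m', hm'⟩ := field_val v hk x hx hind _ (P.coeff j).2 hj0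
          refine ⟨fun l => m l - m' l, ?_⟩
          rw [Finset.prod_congr rfl fun l _ => zpow_sub₀ (hvx l) _ _, Finset.prod_div_distrib,
            ← hm, ← hm', eq_div_iff ((Valuation.ne_zero_iff v).2 hj0)]
          rw [map_mul, map_mul, map_pow, map_pow] at h
          have e : v z ^ j = v z ^ (j - i) * v z ^ i := by
            rw [← pow_add]
            congr 1
            omega
          rw [e] at h
          have h5 : v z ^ i ≠ 0 := pow_ne_zero _ hvz
          have h6 : v z ^ (j - i) * v (P.coeff j : K) * v z ^ i = v (P.coeff i : K) * v z ^ i := by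
            rw [h]
            ring
          exact mul_right_cancel₀ h5 h6
      rcases lt_trichotomy i j with h' | h' | h'
      · exact absurd h (fun h => key i j hi hj h' h)
      · exact h'
      · exact absurd h.symm (fun h => key j i hj hi h' h))
  obtain ⟨j, hj, h2⟩ := h1
  have h3 : ∑ j ∈ P.support, (P.coeff j : K) * z ^ j = 0 := by
    rw [← hPz, Polynomial.aeval_def, Polynomial.eval₂_eq_sum, Polynomial.sum]
    rfl
  rw [h3, map_zero] at h2
  have h4 : ((P.coeff j : K)) * z ^ j ≠ 0 := by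
    refine mul_ne_zero ?_ (pow_ne_zero _ hz0)
    intro h
    exact Polynomial.mem_support_iff.1 hj (Subtype.ext h)
  exact (Valuation.ne_zero_iff v).2 h4 h2.symm

end

/-- a group of positive real numbers with a power inside a finitely generated group -/
theorem fg_of_pow (U : Subgroup ℝ≥0ˣ) (S : Set ℝ≥0ˣ) (hS : S.Finite) (N : ℕ) (hN : N ≠ 0)
    (h : ∀ u ∈ U, u ^ N ∈ Subgroup.closure S) : U.FG := by
  set A : Submodule ℤ (Additive ℝ≥0ˣ) := AddSubgroup.toIntSubmodule (Subgroup.toAddSubgroup U)
    with hA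
  set B : Submodule ℤ (Additive ℝ≥0ˣ) :=
    AddSubgroup.toIntSubmodule (Subgroup.toAddSubgroup (Subgroup.closure S)) with hB
  have hBfg : B.FG := by
    rw [Submodule.fg_iff_addSubgroup_fg, hB]
    have h1 : (Subgroup.closure S).FG := ⟨hS.toFinset, by simp⟩
    rw [Subgroup.fg_iff_add_fg] at h1
    exact h1
  have hBn : IsNoetherian ℤ B := isNoetherian_of_fg_of_noetherian B hBfg
  have hinj : Function.Injective (LinearMap.lsmul ℤ (Additive ℝ≥0ˣ) (N : ℤ)) := by
    intro a b hab
    simp only [LinearMap.lsmul_apply] at hab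
    have h1 : (Additive.toMul a) ^ N = (Additive.toMul b) ^ N := by
      have := congrArg Additive.toMul hab
      rwa [natCast_zsmul, natCast_zsmul, toMul_nsmul, toMul_nsmul] at this
    apply Additive.toMul.injective
    apply Units.ext
    have h2 := congrArg Units.val h1
    rw [Units.val_pow_eq_pow_val, Units.val_pow_eq_pow_val] at h2
    exact (pow_left_inj₀ zero_le zero_le hN).1 h2
  have hle : A.map (LinearMap.lsmul ℤ (Additive ℝ≥0ˣ) (N : ℤ)) ≤ B := by
    rintro _ ⟨a, ha, rfl⟩
    have h1 := h (Additive.toMul a) ha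
    simp only [LinearMap.lsmul_apply]
    rw [natCast_zsmul]
    exact h1
  have h1 : (A.map (LinearMap.lsmul ℤ (Additive ℝ≥0ˣ) (N : ℤ))).FG :=
    isNoetherian_submodule.1 hBn _ hle
  have h2 : A.FG := Submodule.fg_of_fg_map_injective _ hinj h1
  rw [Submodule.fg_iff_addSubgroup_fg, hA] at h2
  rw [Subgroup.fg_iff_add_fg]
  exact h2

end Pfg

open Pfg in
theorem t_fg : S_fg.{u} := by
  intro k K _ _ _ _ v hk r x hx hind htr
  have hai := algInd v hk x hx hind
  have htb : IsTranscendenceBasis k x :=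
    hai.isTranscendenceBasis_of_lift_trdeg_le_of_finite (by rw [htr]; simp)
  have halg := htb.isAlgebraic_field
  have hess : Algebra.EssFiniteType (IntermediateField.adjoin k (Set.range x)) K :=
    .of_comp k (IntermediateField.adjoin k (Set.range x)) K
  have hfin : Module.Finite (IntermediateField.adjoin k (Set.range x)) K :=
    Algebra.finite_of_essFiniteType_of_isAlgebraic
  have hvx : ∀ i, v (x i) ≠ 0 := fun i => (Valuation.ne_zero_iff v).2 (hx i)
  have key : ∀ z : K, z ≠ 0 → ∃ n : ℕ, n ≠ 0 ∧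
      n ≤ Module.finrank (IntermediateField.adjoin k (Set.range x)) K ∧
      ∃ m : Fin r → ℤ, v z ^ n = ∏ i, v (x i) ^ m i := by
    intro z hz
    have hint : IsIntegral (IntermediateField.adjoin k (Set.range x)) z :=
      Algebra.IsIntegral.isIntegral z
    obtain ⟨n, h1, h2, h3⟩ := tors v hk x hx hind z hz (minpoly _ z) (minpoly.ne_zero hint)
      (minpoly.aeval _ z)
    exact ⟨n, h1, h2.trans (minpoly.natDegree_le z), h3⟩
  refine ⟨halg, ?_, fun z hz => ?_⟩
  · set d := Module.finrank (IntermediateField.adjoin k (Set.range x)) K with hd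
    refine fg_of_pow _ (Set.range fun i => Units.mk0 (v (x i)) (hvx i)) (Set.finite_range _)
      (d.factorial) (Nat.factorial_ne_zero _) ?_
    rintro _ ⟨u, rfl⟩
    obtain ⟨n, h1, h2, m, h3⟩ := key (u : K) u.ne_zero
    obtain ⟨e, he⟩ := Nat.dvd_factorial (Nat.pos_of_ne_zero h1) h2
    have h4 : (Units.map (v.toMonoidWithZeroHom : K →* ℝ≥0)) u ^ d.factorial =
        ∏ i, (Units.mk0 (v (x i)) (hvx i)) ^ (m i * e) := by
      apply Units.ext
      rw [Units.val_pow_eq_pow_val, Units.coe_prod, he, pow_mul]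
      have h5 : ((Units.map (v.toMonoidWithZeroHom : K →* ℝ≥0) u : ℝ≥0ˣ) : ℝ≥0) = v (u : K) := rfl
      rw [h5, h3, ← Finset.prod_pow]
      refine Finset.prod_congr rfl fun i _ => ?_
      rw [Units.val_zpow_eq_zpow_val, Units.val_mk0, zpow_mul, zpow_natCast]
    rw [h4]
    exact Subgroup.prod_mem _ fun i _ =>
      Subgroup.zpow_mem _ (Subgroup.subset_closure (Set.mem_range_self i)) _
  · obtain ⟨n, h1, -, h3⟩ := key z hz
    exact ⟨n, h1, h3⟩

end Pool.Agent.H893.AB
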