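import Pool.Agent.H893.AB.Stm4
import Pool.Agent.H893.AB.P_fg

/-!
# AB, task resfg: residue fields of Abhyankar valuations are finitely generated (helper763)
-/

set_option autoImplicit false
set_option linter.unusedVariables false
set_option linter.unusedSectionVars false

universe u

namespace Pool.Agent.H893.AB

open Pool.Agent.H893.DD
open scoped NNReal

namespace Presfg

section
variable {k K : Type u} [Field k] [Field K] [Algebra k K] (v : Valuation K ℝ≥0)
  (hk : ∀ c : k, c ≠ 0 → v (algebraMap k K c) = 1) {r : ℕ} (x : Fin r → K) (hx : ∀ i, x i ≠ 0)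
  (hind : ∀ m : Fin r → ℤ, ∏ i, v (x i) ^ m i = 1 → m = 0)

include hk hx hind

/-- The dominant monomial. -/
theorem dom (P : MvPolynomial (Fin r) k) (hP : P ≠ 0) :
    ∃ α ∈ P.support, v (MvPolynomial.aeval x P - algebraMap k K (P.coeff α) * ∏ i, x i ^ α i) <
      ∏ i, v (x i) ^ (α i : ℤ) := by
  classical
  have hvx : ∀ i, v (x i) ≠ 0 := fun i => (Valuation.ne_zero_iff v).2 (hx i)
  have hterm : ∀ m ∈ P.support, v (algebraMap k K (P.coeff m) * ∏ i, x i ^ m i) =
      ∏ i, v (x i) ^ (m i : ℤ) := by
    intro m hm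
    rw [map_mul, hk _ (MvPolynomial.mem_support_iff.1 hm), one_mul, map_prod]
    exact Finset.prod_congr rfl fun i _ => by rw [map_pow, zpow_natCast]
  have hinj : ∀ m m' : Fin r →₀ ℕ, ∏ i, v (x i) ^ (m i : ℤ) = ∏ i, v (x i) ^ (m' i : ℤ) →
      m = m' := by
    intro m m' h
    have h2 : ∏ i, v (x i) ^ ((m i : ℤ) - m' i) = 1 := by
      rw [Finset.prod_congr rfl fun i _ => zpow_sub₀ (hvx i) _ _, Finset.prod_div_distrib, h]
      exact div_self (Finset.prod_ne_zero_iff.2 fun i _ => zpow_ne_zero _ (hvx i))
    have h3 := hind _ h2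
    ext i
    have h4 := congrFun h3 i
    simp only [Pi.zero_apply] at h4
    omega
  obtain ⟨α, hα, hmax⟩ := P.support.exists_max_image
    (fun m => ∏ i, v (x i) ^ (m i : ℤ)) (MvPolynomial.support_nonempty.2 hP)
  refine ⟨α, hα, ?_⟩
  have e1 : MvPolynomial.aeval x P =
      ∑ m ∈ P.support, algebraMap k K (P.coeff m) * ∏ i, x i ^ m i := by
    rw [MvPolynomial.aeval_def, MvPolynomial.eval₂_eq']
  rw [e1, ← Finset.add_sum_erase P.support _ hα, add_sub_cancel_left]
  refine Valuation.map_sum_lt v (Finset.prod_ne_zero_iff.2 fun i _ => zpow_ne_zero _ (hvx i)) ?_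
  intro m hm
  rw [Finset.mem_erase] at hm
  rw [hterm m hm.2]
  exact lt_of_le_of_ne (hmax m hm.2) fun h => hm.1 (hinj _ _ h)

/-- The residues of the elements of the field generated by the `x i`. -/
theorem field_res (u : K) (hu : u ∈ IntermediateField.adjoin k (Set.range x)) (h1 : v u ≤ 1) :
    ∃ c : k, v (u - algebraMap k K c) < 1 := by
  by_cases hlt : v u < 1
  · exact ⟨0, by rw [map_zero, sub_zero]; exact hlt⟩
  have heq : v u = 1 := le_antisymm h1 (not_lt.1 hlt)
  have hvx : ∀ i, v (x i) ≠ 0 := fun i => (Valuation.ne_zero_iff v).2 (hx i)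
  rw [IntermediateField.mem_adjoin_range_iff] at hu
  obtain ⟨P, Q, rfl⟩ := hu
  have hP : P ≠ 0 := by
    rintro rfl
    simp at heq
  have hQ : Q ≠ 0 := by
    rintro rfl
    simp at heq
  obtain ⟨α, hα, hPα⟩ := dom v hk x hx hind P hP
  obtain ⟨β, hβ, hQβ⟩ := dom v hk x hx hind Q hQ
  have hterm : ∀ (R : MvPolynomial (Fin r) k) (m : Fin r →₀ ℕ), m ∈ R.support →
      v (algebraMap k K (R.coeff m) * ∏ i, x i ^ m i) = ∏ i, v (x i) ^ (m i : ℤ) := by
    intro R m hm
    rw [map_mul, hk _ (MvPolynomial.mem_support_iff.1 hm), one_mul, map_prod]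
    exact Finset.prod_congr rfl fun i _ => by rw [map_pow, zpow_natCast]
  have hval : ∀ (R : MvPolynomial (Fin r) k) (m : Fin r →₀ ℕ), m ∈ R.support →
      v (MvPolynomial.aeval x R - algebraMap k K (R.coeff m) * ∏ i, x i ^ m i) <
        ∏ i, v (x i) ^ (m i : ℤ) → v (MvPolynomial.aeval x R) = ∏ i, v (x i) ^ (m i : ℤ) := by
    intro R m hm h
    have h2 : MvPolynomial.aeval x R = algebraMap k K (R.coeff m) * ∏ i, x i ^ m i +
        (MvPolynomial.aeval x R - algebraMap k K (R.coeff m) * ∏ i, x i ^ m i) := by ring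
    rw [h2, Valuation.map_add_eq_of_lt_left v (by rw [hterm R m hm]; exact h), hterm R m hm]
  have hvP := hval P α hα hPα
  have hvQ := hval Q β hβ hQβ
  have hM : ∏ i, v (x i) ^ (β i : ℤ) ≠ 0 :=
    Finset.prod_ne_zero_iff.2 fun i _ => zpow_ne_zero _ (hvx i)
  have hαβ : α = β := by
    rw [map_div₀, hvP, hvQ, div_eq_one_iff_eq hM] at heq
    have h2 : ∏ i, v (x i) ^ ((α i : ℤ) - β i) = 1 := by
      rw [Finset.prod_congr rfl fun i _ => zpow_sub₀ (hvx i) _ _, Finset.prod_div_distrib, heq]
      exact div_self hM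
    have h3 := hind _ h2
    ext i
    have h4 := congrFun h3 i
    simp only [Pi.zero_apply] at h4
    omega
  subst hαβ
  set a := P.coeff α with ha
  set b := Q.coeff α with hb
  have ha0 : a ≠ 0 := MvPolynomial.mem_support_iff.1 hα
  have hb0 : b ≠ 0 := MvPolynomial.mem_support_iff.1 hβ
  have hb0' : algebraMap k K b ≠ 0 := (map_ne_zero _).2 hb0
  have hQ0 : MvPolynomial.aeval x Q ≠ 0 := by
    rw [← Valuation.ne_zero_iff v, hvQ]
    exact hM
  refine ⟨a / b, ?_⟩
  have e : MvPolynomial.aeval x P / MvPolynomial.aeval x Q - algebraMap k K (a / b) =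
      (algebraMap k K b * (MvPolynomial.aeval x P - algebraMap k K a * ∏ i, x i ^ α i) -
        algebraMap k K a * (MvPolynomial.aeval x Q - algebraMap k K b * ∏ i, x i ^ α i)) /
        (algebraMap k K b * MvPolynomial.aeval x Q) := by
    rw [map_div₀]
    field_simp
    ring
  rw [e, map_div₀, map_mul, hk b hb0, one_mul, hvQ, div_lt_one (pos_iff_ne_zero.2 hM)]
  refine Valuation.map_sub_lt v ?_ ?_
  · rw [map_mul, hk b hb0, one_mul]
    exact hPα
  · rw [map_mul, hk a ha0, one_mul]
    exact hQβ

end

section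

variable {k K κ : Type u} [Field k] [Field K] [Field κ] [Algebra k K] [Algebra k κ]
  {v : Valuation K ℝ≥0}

/-- The main step, for an arbitrary residue map. -/
theorem absR [Algebra.EssFiniteType k K] (res : v.valuationSubring →+* κ)
    (hsurj : Function.Surjective res) (hres : ∀ x, res x = 0 ↔ v (x : K) < 1)
    (kv : k →+* v.valuationSubring) (hkv : ∀ c, ((kv c : v.valuationSubring) : K) = algebraMap k K c)
    (hkκ : ∀ c, res (kv c) = algebraMap k κ c) (n : ℕ)
    (htr : Algebra.trdeg k K = Algebra.trdeg k κ + (n : Cardinal)) (x : Fin n → K)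
    (hx : ∀ i, x i ≠ 0) (hind : ∀ m : Fin n → ℤ, ∏ i, v (x i) ^ m i = 1 → m = 0) :
    Algebra.EssFiniteType k κ := by
  classical
  have hKfin : Algebra.trdeg k K < Cardinal.aleph0 := trdeg_lt_aleph0 k K
  have hκfin : Algebra.trdeg k κ < Cardinal.aleph0 := by
    rw [htr] at hKfin
    exact lt_of_le_of_lt (self_le_add_right _ _) hKfin
  obtain ⟨s', hs'⟩ := exists_isTranscendenceBasis k κ
  have hfin' : s'.Finite := by
    have h1 := hs'.cardinalMk_eq_trdeg
    rw [← h1, Cardinal.lt_aleph0_iff_set_finite] at hκfin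
    exact hκfin
  obtain ⟨s, hs⟩ : ∃ s : Finset κ, IsTranscendenceBasis k ((↑) : s → κ) := by
    obtain ⟨s, rfl⟩ : ∃ s : Finset κ, (s : Set κ) = s' := ⟨hfin'.toFinset, hfin'.coe_toFinset⟩
    exact ⟨s, hs'⟩
  have halg : Algebra.IsAlgebraic (IntermediateField.adjoin k (s : Set κ)) κ := by
    have h1 := hs.isAlgebraic_field
    have h2 : (s : Set κ) = Set.range ((↑) : s → κ) := by
      rw [Subtype.range_coe_subtype]
      rfl
    rw [h2]
    exact h1
  choose lift hlift using hsurj
  -- the lifts
  let g : s → v.valuationSubring := fun i => lift i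
  have hg : ∀ i, res (g i) = (i : κ) := fun i => hlift i
  let gK : s → K := fun i => (g i : K)
  -- polynomials in the lifts
  let evV : MvPolynomial s k →+* v.valuationSubring := MvPolynomial.eval₂Hom kv g
  have hev1 : ∀ p, ((evV p : v.valuationSubring) : K) = MvPolynomial.aeval gK p := by
    intro p
    have h1 : (v.valuationSubring.subtype).comp evV =
        ((MvPolynomial.aeval gK : MvPolynomial s k →ₐ[k] K) : MvPolynomial s k →+* K) := by
      apply MvPolynomial.ringHom_ext
      · intro c
        simp only [evV, RingHom.comp_apply, MvPolynomial.coe_eval₂Hom, MvPolynomial.eval₂_C,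
          RingHom.coe_coe, MvPolynomial.aeval_C]
        exact hkv c
      · intro i
        simp only [evV, RingHom.comp_apply, MvPolynomial.coe_eval₂Hom, MvPolynomial.eval₂_X,
          RingHom.coe_coe, MvPolynomial.aeval_X]
        rfl
    exact congrArg (fun f : MvPolynomial s k →+* K => f p) h1
  have hev2 : ∀ p, res (evV p) = MvPolynomial.aeval ((↑) : s → κ) p := by
    intro p
    have h1 : res.comp evV =
        ((MvPolynomial.aeval ((↑) : s → κ) : MvPolynomial s k →ₐ[k] κ) :
          MvPolynomial s k →+* κ) := by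
      apply MvPolynomial.ringHom_ext
      · intro c
        simp only [evV, RingHom.comp_apply, MvPolynomial.coe_eval₂Hom, MvPolynomial.eval₂_C,
          RingHom.coe_coe, MvPolynomial.aeval_C]
        exact hkκ c
      · intro i
        simp only [evV, RingHom.comp_apply, MvPolynomial.coe_eval₂Hom, MvPolynomial.eval₂_X,
          RingHom.coe_coe, MvPolynomial.aeval_X]
        exact hg i
    exact congrArg (fun f : MvPolynomial s k →+* κ => f p) h1
  have hinj : Function.Injective (MvPolynomial.aeval ((↑) : s → κ) : MvPolynomial s k →ₐ[k] κ) :=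
    hs.1
  have hval : ∀ p : MvPolynomial s k, p ≠ 0 → v (MvPolynomial.aeval gK p) = 1 := by
    intro p hp
    have h1 : res (evV p) ≠ 0 := by
      rw [hev2]
      exact fun h => hp (hinj (h.trans (map_zero _).symm))
    rw [Ne, hres, not_lt, hev1] at h1
    refine le_antisymm ?_ h1
    rw [← hev1]
    exact (evV p).2
  let S : Finset K := Finset.univ.image gK
  have hS : (S : Set K) = Set.range gK := by
    simp only [S, Finset.coe_image, Finset.coe_univ, Set.image_univ]
  set F0 : IntermediateField k K := IntermediateField.adjoin k (S : Set K) with hF0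
  have hmem : ∀ x : K, x ∈ F0 ↔ ∃ r t : MvPolynomial s k,
      x = MvPolynomial.aeval gK r / MvPolynomial.aeval gK t := by
    intro x
    rw [hF0, hS]
    exact IntermediateField.mem_adjoin_range_iff _ _ _
  have hF1 : ∀ c : F0, c ≠ 0 → v (c : K) = 1 := by
    intro c hc
    obtain ⟨r, t, hrt⟩ := (hmem c).1 c.2
    have hc0 : (c : K) ≠ 0 := fun h => hc (Subtype.ext h)
    have hr : r ≠ 0 := by
      rintro rfl
      rw [map_zero, zero_div] at hrt
      exact hc0 hrt
    have ht : t ≠ 0 := by
      rintro rfl
      rw [map_zero, div_zero] at hrt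
      exact hc0 hrt
    rw [hrt, map_div₀, hval r hr, hval t ht, div_one]
  have hFV : ∀ c : F0, (c : K) ∈ v.valuationSubring := by
    intro c
    change v (c : K) ≤ 1
    by_cases hc : c = 0
    · rw [hc, ZeroMemClass.coe_zero, map_zero]
      exact zero_le_one
    · exact (hF1 c hc).le
  let inc : F0 →+* v.valuationSubring :=
    (algebraMap F0 K).codRestrict v.valuationSubring.toSubring fun c => hFV c
  have hinc : ∀ c : F0, ((inc c : v.valuationSubring) : K) = c := fun c => rfl
  let ρ : F0 →ₐ[k] κ :=
    { toRingHom := res.comp inc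
      commutes' := by
        intro c
        change res (inc (algebraMap k F0 c)) = _
        rw [← hkκ]
        congr 1
        apply Subtype.ext
        rw [hkv, hinc]
        rfl }
  have hρ : ∀ c : F0, ρ c = res (inc c) := fun c => rfl
  have hρdiv : ∀ (c : F0) (r t : MvPolynomial s k),
      (c : K) = MvPolynomial.aeval gK r / MvPolynomial.aeval gK t →
      ρ c = MvPolynomial.aeval ((↑) : s → κ) r / MvPolynomial.aeval ((↑) : s → κ) t := by
    intro c r t hc
    by_cases ht : t = 0
    · rw [ht, map_zero, div_zero] at hc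
      have hc0 : c = 0 := Subtype.ext hc
      rw [ht, map_zero, div_zero, hc0, map_zero]
    · have ht' : (MvPolynomial.aeval ((↑) : s → κ) t : κ) ≠ 0 :=
        fun h => ht (hinj (h.trans (map_zero _).symm))
      have ht2 : (MvPolynomial.aeval gK t : K) ≠ 0 := by
        intro h
        have := hval t ht
        rw [h, map_zero] at this
        exact zero_ne_one this
      rw [eq_div_iff ht', hρ, ← hev2, ← hev2, ← map_mul]
      congr 1
      apply Subtype.ext
      have h2 : ((inc c * evV t : v.valuationSubring) : K) = (c : K) * MvPolynomial.aeval gK t := by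
        rw [← hev1]
        rfl
      rw [h2, hev1, hc, div_mul_cancel₀ _ ht2]
  set E0 : IntermediateField k κ := IntermediateField.adjoin k (s : Set κ) with hE0
  have hmemE : ∀ x : κ, x ∈ E0 ↔ ∃ r t : MvPolynomial s k,
      x = MvPolynomial.aeval ((↑) : s → κ) r / MvPolynomial.aeval ((↑) : s → κ) t := by
    intro x
    have h1 : (s : Set κ) = Set.range ((↑) : s → κ) := by
      rw [Subtype.range_coe_subtype]
      rfl
    rw [hE0, h1]
    exact IntermediateField.mem_adjoin_range_iff _ _ _
  have hρE : ∀ c : F0, ρ c ∈ E0 := by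
    intro c
    obtain ⟨r, t, hrt⟩ := (hmem c).1 c.2
    exact (hmemE _).2 ⟨r, t, hρdiv c r t hrt⟩
  have hρs : ∀ x : E0, ∃ c : F0, ρ c = x := by
    intro x
    obtain ⟨r, t, hrt⟩ := (hmemE x).1 x.2
    refine ⟨⟨MvPolynomial.aeval gK r / MvPolynomial.aeval gK t, (hmem _).2 ⟨r, t, rfl⟩⟩, ?_⟩
    rw [hrt]
    exact hρdiv _ r t rfl
  let ρ' : F0 →ₐ[k] E0 := ρ.codRestrict E0.toSubalgebra hρE
  have hbij : Function.Bijective ρ' := by
    refine ⟨ρ'.toRingHom.injective, fun x => ?_⟩
    obtain ⟨c, hc⟩ := hρs x
    exact ⟨c, Subtype.ext hc⟩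
  let e : F0 ≃ₐ[k] E0 := AlgEquiv.ofBijective ρ' hbij
  have htF : Algebra.trdeg k F0 = Algebra.trdeg k κ := by
    have h1 : Algebra.trdeg k E0 + Algebra.trdeg E0 κ = Algebra.trdeg k κ := trdeg_add_eq k E0
    have h2 : Algebra.trdeg E0 κ = 0 := by
      have := halg
      exact trdeg_eq_zero
    rw [e.trdeg_eq, ← h1, h2, add_zero]
  -- the field `K` is finite over `F0(x)`
  have htr1 : Algebra.trdeg F0 K = (n : Cardinal) := by
    have h1 := _root_.trdeg_add_eq k F0 (A := K)
    rw [htF, htr] at h1
    exact Cardinal.eq_of_add_eq_add_left h1 hκfin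
  have hF1' : ∀ c : F0, c ≠ 0 → v (algebraMap F0 K c) = 1 := hF1
  have hEF : Algebra.EssFiniteType F0 K := Algebra.EssFiniteType.of_comp k F0 K
  have hai := Pfg.algInd v hF1' x hx hind
  have htb : IsTranscendenceBasis F0 x :=
    hai.isTranscendenceBasis_of_lift_trdeg_le_of_finite (by rw [htr1]; simp)
  have halgK := htb.isAlgebraic_field
  have hess : Algebra.EssFiniteType (IntermediateField.adjoin F0 (Set.range x)) K :=
    .of_comp F0 (IntermediateField.adjoin F0 (Set.range x)) K
  have hfinK : Module.Finite (IntermediateField.adjoin F0 (Set.range x)) K :=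
    Algebra.finite_of_essFiniteType_of_isAlgebraic
  -- the residue field is finite over the image of `F0`
  let algF : Algebra F0 κ := ρ.toRingHom.toAlgebra
  have halgF : ∀ (c : F0) (z : κ), c • z = res (inc c) * z := fun c z => rfl
  have hrank : Module.rank F0 κ ≤
      (Module.finrank (IntermediateField.adjoin F0 (Set.range x)) K : Cardinal) := by
    refine rank_le fun T hT => ?_
    have hli : LinearIndependent (IntermediateField.adjoin F0 (Set.range x))
        (fun i : T => ((lift (i : κ) : v.valuationSubring) : K)) := by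
      rw [Fintype.linearIndependent_iff]
      intro c hc
      by_contra hne
      push Not at hne
      obtain ⟨i₁, hi₁⟩ := hne
      obtain ⟨i₀, -, hmax⟩ := Finset.exists_max_image (Finset.univ : Finset T)
        (fun i => v (c i : K)) ⟨i₁, Finset.mem_univ _⟩
      have hci₁ : (c i₁ : K) ≠ 0 := fun h => hi₁ (Subtype.ext h)
      have hvi₀ : v (c i₀ : K) ≠ 0 := by
        have h1 : 0 < v (c i₁ : K) := pos_iff_ne_zero.2 ((Valuation.ne_zero_iff v).2 hci₁)
        exact (lt_of_lt_of_le h1 (hmax i₁ (Finset.mem_univ _))).ne'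
      have hci₀ : (c i₀ : K) ≠ 0 := (Valuation.ne_zero_iff v).1 hvi₀
      have hq : ∀ i : T, ∃ d : F0, v ((c i : K) / (c i₀ : K) - (d : K)) < 1 := by
        intro i
        refine field_res v hF1' x hx hind _ (div_mem (c i).2 (c i₀).2) ?_
        rw [map_div₀]
        exact div_le_one_of_le₀ (hmax i (Finset.mem_univ _)) zero_le
      choose d hd using hq
      have hsum : ∑ i : T, ((c i : K) / (c i₀ : K)) * ((lift (i : κ) : v.valuationSubring) : K)
          = 0 := by
        have h1 : ∑ i : T, (c i : K) * ((lift (i : κ) : v.valuationSubring) : K) = 0 := hc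
        have h2 : ∑ i : T, ((c i : K) / (c i₀ : K)) * ((lift (i : κ) : v.valuationSubring) : K) =
            (∑ i : T, (c i : K) * ((lift (i : κ) : v.valuationSubring) : K)) / (c i₀ : K) := by
          rw [Finset.sum_div]
          exact Finset.sum_congr rfl fun i _ => by ring
        rw [h2, h1, zero_div]
      have hlt : v (∑ i : T, (d i : K) * ((lift (i : κ) : v.valuationSubring) : K)) < 1 := by
        have h1 : ∑ i : T, (d i : K) * ((lift (i : κ) : v.valuationSubring) : K) =
            -∑ i : T, ((c i : K) / (c i₀ : K) - (d i : K)) *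
              ((lift (i : κ) : v.valuationSubring) : K) := by
          have h2 : ∑ i : T, ((c i : K) / (c i₀ : K) - (d i : K)) *
              ((lift (i : κ) : v.valuationSubring) : K) =
              ∑ i : T, ((c i : K) / (c i₀ : K)) * ((lift (i : κ) : v.valuationSubring) : K) -
              ∑ i : T, (d i : K) * ((lift (i : κ) : v.valuationSubring) : K) := by
            rw [← Finset.sum_sub_distrib]
            exact Finset.sum_congr rfl fun i _ => by ring
          rw [h2, hsum, zero_sub, neg_neg]
        rw [h1, Valuation.map_neg]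
        refine Valuation.map_sum_lt v one_ne_zero fun i _ => ?_
        rw [map_mul]
        have h3 : v ((lift (i : κ) : v.valuationSubring) : K) ≤ 1 := (lift (i : κ)).2
        calc v ((c i : K) / (c i₀ : K) - (d i : K)) * v ((lift (i : κ) : v.valuationSubring) : K)
            ≤ v ((c i : K) / (c i₀ : K) - (d i : K)) * 1 := mul_le_mul_right h3 _
          _ = v ((c i : K) / (c i₀ : K) - (d i : K)) := mul_one _
          _ < 1 := hd i
      have hres0 : ∑ i : T, d i • (i : κ) = 0 := by
        have h1 : res (∑ i : T, inc (d i) * lift (i : κ)) = 0 := by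
          rw [hres]
          have h2 : ((∑ i : T, inc (d i) * lift (i : κ) : v.valuationSubring) : K) =
              ∑ i : T, (d i : K) * ((lift (i : κ) : v.valuationSubring) : K) := by
            have h3 := map_sum v.valuationSubring.subtype (fun i : T => inc (d i) * lift (i : κ))
              Finset.univ
            exact h3
          rw [h2]
          exact hlt
        rw [map_sum] at h1
        rw [← h1]
        refine Finset.sum_congr rfl fun i _ => ?_
        rw [halgF, map_mul, hlift]
      have hd0 := (Fintype.linearIndependent_iff.1 hT) d hres0 i₀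
      have h5 := hd i₀
      rw [div_self hci₀, hd0, ZeroMemClass.coe_zero, sub_zero, map_one] at h5
      exact lt_irrefl _ h5
    have h1 := hli.fintype_card_le_finrank
    rw [Fintype.card_coe] at h1
    exact h1
  have hfinκ : Module.Finite F0 κ :=
    Module.rank_lt_aleph0_iff.1 (lt_of_le_of_lt hrank (Cardinal.natCast_lt_aleph0))
  have htower : IsScalarTower k F0 κ := IsScalarTower.of_algebraMap_eq fun c =>
    (ρ.commutes c).symm
  have hF0fg : Algebra.EssFiniteType k F0 := by
    rw [IntermediateField.essFiniteType_iff]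
    exact ⟨S, rfl⟩
  have hF0κ : Algebra.EssFiniteType F0 κ := inferInstance
  exact Algebra.EssFiniteType.comp k F0 κ

end

end Presfg

/-- The residue field of an Abhyankar valuation is finitely generated. -/
theorem t_resfg : S_resfg.{u} := by
  intro k K _ _ _ _ v hk r htr x hx hind
  let _ := rAlg v hk
  exact Presfg.absR (IsLocalRing.residue v.valuationSubring) IsLocalRing.residue_surjective
    (fun x => by
      rw [IsLocalRing.residue_eq_zero_iff, ValuationSubring.valuation_lt_one_iff]
      exact (v.isEquiv_valuation_valuationSubring.lt_one_iff_lt_one).symm) (kV v hk)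
    (fun c => rfl) (fun c => rfl) r htr x hx hind

end Pool.Agent.H893.AB
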