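import Pool.Agent.H893.AB.Cls
import Pool.Agent.H893.AB.P_resfg

/-!
# Valuations of deficiency at most one: without hypotheses on the residue fields of Abhyankar
valuations
-/

set_option autoImplicit false
set_option linter.unusedVariables false
set_option linter.unusedSectionVars false

universe u

namespace Pool.Agent.H893.AB

open IsLocalRing Pool.Agent.W418.LU2 Pool.Agent.TH188.QS
open Pool.Agent.H176.DT (Mod SU PP St p_noe)
open Pool.Agent.R187.CT (Good rg fr_mono fr_closure noe_rg gp_move gp_of_su)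
open Pool.Agent.H893.DD
open scoped NNReal

/-- The deficiency of `v` is at most one; the residue field is finitely generated, and infinite if
the rational rank is one, if the deficiency is one. -/
abbrev Def1 {k K : Type u} [Field k] [Field K] [Algebra k K] (v : Valuation K ℝ≥0)
    (hk : ∀ c : k, c ≠ 0 → v (algebraMap k K c) = 1) (r : ℕ) : Prop :=
  letI := rAlg v hk
  Algebra.trdeg k K = Algebra.trdeg k (Rf v) + (r : Cardinal) ∨
    (Algebra.trdeg k K = Algebra.trdeg k (Rf v) + ((r + 1 : ℕ) : Cardinal) ∧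
      Algebra.EssFiniteType k (Rf v) ∧ (r = 1 → Infinite (Rf v)))

lemma Def1.ess {k K : Type u} [Field k] [Field K] [Algebra k K] [Algebra.EssFiniteType k K]
    {v : Valuation K ℝ≥0} {hk : ∀ c : k, c ≠ 0 → v (algebraMap k K c) = 1} {r : ℕ}
    (h : Def1 v hk r) (x : Fin r → K) (hx0 : ∀ i, x i ≠ 0)
    (hind : ∀ m : Fin r → ℤ, ∏ i, v (x i) ^ m i = 1 → m = 0) :
    letI := rAlg v hk; Algebra.EssFiniteType k (Rf v) := by
  rcases h with h | h
  · exact t_resfg v hk r h x hx0 hind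
  · exact h.2.1

lemma Def1.tr {k K : Type u} [Field k] [Field K] [Algebra k K]
    {v : Valuation K ℝ≥0} {hk : ∀ c : k, c ≠ 0 → v (algebraMap k K c) = 1} {r : ℕ}
    (h : Def1 v hk r) :
    letI := rAlg v hk; Algebra.trdeg k K = Algebra.trdeg k (Rf v) + (r : Cardinal) ∨
      (Algebra.trdeg k K = Algebra.trdeg k (Rf v) + ((r + 1 : ℕ) : Cardinal) ∧
        (r = 1 → Infinite (Rf v))) :=
  h.imp id fun h => ⟨h.1, h.2.2⟩

/-- Valuations of deficiency at most one are good if MacLane's condition holds for the residue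
field. -/
theorem good_mcl2 {k K : Type u} [Field k] (p : ℕ) [Fact p.Prime] [CharP k p] [Field K]
    [Algebra k K] [Algebra.EssFiniteType k K] (v : Valuation K ℝ≥0)
    (hk : ∀ c : k, c ≠ 0 → v (algebraMap k K c) = 1)
    (hm : Pool.Agent.H893.EC.McLV p (algebraMap k K) v.valuationSubring)
    (r : ℕ) (hr : 0 < r) (h : Def1 v hk r)
    (x : Fin r → K) (hx0 : ∀ i, x i ≠ 0)
    (hind : ∀ m : Fin r → ℤ, ∏ i, v (x i) ^ m i = 1 → m = 0)
    (hrr : ∀ z : K, z ≠ 0 → ∃ n : ℕ, n ≠ 0 ∧ ∃ m : Fin r → ℤ, v z ^ n = ∏ i, v (x i) ^ m i) :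
    Good (algebraMap k K) v.valuationSubring :=
  good_mcl_def p v hk (h.ess x hx0 hind) hm r hr h.tr x hx0 hind hrr

/-- Valuations of deficiency at most one over perfect fields are good. -/
theorem good_perf2 {k K : Type u} [Field k] (p : ℕ) [Fact p.Prime] [CharP k p] [PerfectField k]
    [Field K] [Algebra k K] [Algebra.EssFiniteType k K] (v : Valuation K ℝ≥0)
    (hk : ∀ c : k, c ≠ 0 → v (algebraMap k K c) = 1)
    (r : ℕ) (hr : 0 < r) (h : Def1 v hk r)
    (x : Fin r → K) (hx0 : ∀ i, x i ≠ 0)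
    (hind : ∀ m : Fin r → ℤ, ∏ i, v (x i) ^ m i = 1 → m = 0)
    (hrr : ∀ z : K, z ≠ 0 → ∃ n : ℕ, n ≠ 0 ∧ ∃ m : Fin r → ℤ, v z ^ n = ∏ i, v (x i) ^ m i) :
    Good (algebraMap k K) v.valuationSubring :=
  good_def p v hk (h.ess x hx0 hind) (by
    let _ := rAlg v hk
    have : Algebra.EssFiniteType k (Rf v) := h.ess x hx0 hind
    exact sepGen k _) r hr h.tr x hx0 hind hrr

/-- Valuations of deficiency at most one are good over every ring `R` whose fractions generate the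
ground field. -/
theorem good_ring2 {R k K : Type u} [CommRing R] [Field k] (p : ℕ) [Fact p.Prime] [CharP k p]
    (σ : R →+* k) (hσ : ∀ c : k, ∃ a b : R, σ b ≠ 0 ∧ c = σ a / σ b) [Field K]
    [Algebra k K] [Algebra.EssFiniteType k K] (v : Valuation K ℝ≥0)
    (hk : ∀ c : k, c ≠ 0 → v (algebraMap k K c) = 1)
    (hsg : letI := rAlg v hk;
      ∃ s : Finset (Rf v), IsTranscendenceBasis k ((↑) : s → Rf v) ∧
        Algebra.IsSeparable (IntermediateField.adjoin k (s : Set (Rf v))) (Rf v))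
    (r : ℕ) (hr : 0 < r) (h : Def1 v hk r)
    (x : Fin r → K) (hx0 : ∀ i, x i ≠ 0)
    (hind : ∀ m : Fin r → ℤ, ∏ i, v (x i) ^ m i = 1 → m = 0)
    (hrr : ∀ z : K, z ≠ 0 → ∃ n : ℕ, n ≠ 0 ∧ ∃ m : Fin r → ℤ, v z ^ n = ∏ i, v (x i) ^ m i) :
    Good ((algebraMap k K).comp σ) v.valuationSubring :=
  good_def_ring p σ hσ v hk (h.ess x hx0 hind) hsg r hr h.tr x hx0 hind hrr

/-- Simultaneous log uniformization over perfect fields. -/
theorem sim_perf2 {k K : Type u} [Field k] (p : ℕ) [Fact p.Prime] [CharP k p] [PerfectField k]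
    [Field K] [Algebra k K] [Algebra.EssFiniteType k K] {m : ℕ} (v : Fin m → Valuation K ℝ≥0)
    (hne : ∀ i j, i ≠ j → (v i).valuationSubring ≠ (v j).valuationSubring)
    (hk : ∀ i, ∀ c : k, c ≠ 0 → v i (algebraMap k K c) = 1)
    (r : Fin m → ℕ) (hr : ∀ i, 0 < r i) (h : ∀ i, Def1 (v i) (hk i) (r i))
    (x : ∀ i, Fin (r i) → K) (hx0 : ∀ i j, x i j ≠ 0)
    (hind : ∀ i, ∀ n : Fin (r i) → ℤ, ∏ j, v i (x i j) ^ n j = 1 → n = 0)
    (hrr : ∀ i, ∀ z : K, z ≠ 0 → ∃ n : ℕ, n ≠ 0 ∧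
      ∃ m : Fin (r i) → ℤ, v i z ^ n = ∏ j, v i (x i j) ^ m j)
    (G : Set K) (hG : G.Finite) (A : Subring K)
    (hA : A = Subring.closure (Set.range (algebraMap k K) ∪ G))
    (hAM : ∀ i, Mod (v i).valuationSubring A) (D I₀ : Ideal A) (hD : D ≠ ⊥) (hI₀ : I₀ ≠ ⊥) :
    ∃ I₁ : Ideal A, I₁ ≠ ⊥ ∧ (∀ i, LogDesing (v i).valuationSubring A D (I₀ * I₁)) ∧
      ∀ q : Ideal A, q.IsPrime → I₁ ≤ q → ∃ i, ∀ a : A, v i (a : K) < 1 → a ∈ q :=
  sim_def p v hne hk (fun i => (h i).ess (x i) (hx0 i) (hind i)) (fun i => by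
    let _ := rAlg (v i) (hk i)
    have : Algebra.EssFiniteType k (Rf (v i)) := (h i).ess (x i) (hx0 i) (hind i)
    exact sepGen k _) r hr (fun i => (h i).tr) x hx0 hind hrr G hG A hA hAM D I₀ hD hI₀

end Pool.Agent.H893.AB
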