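import Pool.Agent.H893.AB.Stm2

/-!
# Laurent polynomials are dense
-/

set_option autoImplicit false
set_option linter.unusedVariables false
set_option linter.unusedSectionVars false

namespace Pool.Agent.H893.AB

open Polynomial
open scoped NNReal

variable {k K L : Type*} [Field k] [Field K] [Algebra k K] [AddCommGroup L]
  {v : Valuation K ℝ≥0}

/-- The Laurent polynomials are dense in the field of their fractions. -/
theorem laurent_dense (hk : ∀ c : k, c ≠ 0 → v (algebraMap k K c) = 1) {ω : L →+ ℝ}
    (hω : Function.Injective ω) {X : Multiplicative L →* Kˣ}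
    (hX : ∀ β, v (X (.ofAdd β) : K) = ex (ω β)) {e : K} (he : e ∈ E0 k X) {ε : ℝ≥0}
    (hε : 0 < ε) : ∃ g : AddMonoidAlgebra k L, v (e - evL k X g) < ε := by
  classical
  obtain ⟨A, B, rfl⟩ := mem_E0 he
  by_cases hB : B = 0
  · refine ⟨0, ?_⟩
    rw [hB, map_zero, div_zero, sub_zero, map_zero]
    exact hε
  obtain ⟨β, hβ, hmin, hvB⟩ := v_evL hk hω hX hB
  set c := B.coeff β with hc
  set N1 : AddMonoidAlgebra k L := AddMonoidAlgebra.single (-β) c⁻¹ with hN1
  set H : AddMonoidAlgebra k L := 1 - N1 * B with hH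
  have hN1v : v (evL k X N1) = ex (-(ω β)) := by
    rw [hN1, evL_single, map_mul, hk _ (inv_ne_zero hβ), one_mul, hX, map_neg]
  have hHgt : H ∈ gt (k := k) ω 0 := by
    intro γ hγ
    have h1 : H.coeff γ = (if γ = 0 then 1 else 0) - c⁻¹ * B.coeff (γ + β) := by
      rw [hH, AddMonoidAlgebra.coeff_sub, Finsupp.sub_apply, AddMonoidAlgebra.one_def,
        AddMonoidAlgebra.coeff_single, Finsupp.single_apply, hN1]
      congr 1
      · simp only [eq_comm]
      · have h2 : γ = -β + (γ + β) := by abel
        conv_lhs => rw [h2]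
        exact AddMonoidAlgebra.coeff_single_mul_add _ _ _ _
    rw [h1] at hγ
    by_cases h0 : γ = 0
    · subst h0
      rw [if_pos rfl, zero_add, ← hc, inv_mul_cancel₀ hβ, sub_self] at hγ
      exact absurd rfl hγ
    · rw [if_neg h0, zero_sub, neg_ne_zero] at hγ
      have h2 := hmin (γ + β) (right_ne_zero_of_mul hγ)
      rw [map_add] at h2
      refine lt_of_le_of_ne (by linarith) fun h3 => h0 ?_
      exact hω (by rw [← h3, map_zero])
  have hvH : v (evL k X H) < 1 := by
    rw [← ex_zero]
    exact v_evL_lt hk hX hHgt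
  have hB0 : evL k X B ≠ 0 := by
    intro h
    rw [h, map_zero] at hvB
    exact ex_ne _ hvB.symm
  have hN0 : evL k X N1 ≠ 0 := by
    intro h
    rw [h, map_zero] at hN1v
    exact ex_ne _ hN1v.symm
  have hBH : evL k X N1 * evL k X B = 1 - evL k X H := by
    rw [hH, map_sub, map_one, map_mul]
    ring
  have hlim : ∃ n : ℕ, v (evL k X A / evL k X B) * v (evL k X H) ^ n < ε := by
    have h1 := (tendsto_pow_atTop_nhds_zero_of_lt_one (r := v (evL k X H)) zero_le hvH).const_mul
      (v (evL k X A / evL k X B))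
    rw [mul_zero] at h1
    exact (h1.eventually (gt_mem_nhds hε)).exists
  obtain ⟨n, hn⟩ := hlim
  refine ⟨A * N1 * ∑ i ∈ Finset.range n, H ^ i, ?_⟩
  have h1 : evL k X A / evL k X B - evL k X (A * N1 * ∑ i ∈ Finset.range n, H ^ i) =
      evL k X A / evL k X B * evL k X H ^ n := by
    have hgeom : (∑ i ∈ Finset.range n, evL k X H ^ i) * (1 - evL k X H) = 1 - evL k X H ^ n := by
      have := geom_sum_mul (evL k X H) n
      linear_combination -this
    rw [← hBH] at hgeom
    rw [map_mul, map_mul, map_sum]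
    simp only [map_pow]
    rw [div_mul_eq_mul_div, div_sub' hB0, div_left_inj' hB0]
    linear_combination (-evL k X A) * hgeom
  rw [h1, map_mul, map_pow]
  exact hn

end Pool.Agent.H893.AB
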