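import Pool.Agent.H893.AB.Stm

/-!
# Project AB, part compl: the completions of a finite extension of valued fields
-/

set_option autoImplicit false

universe u

open scoped NNReal Polynomial
open Polynomial UniformSpace

namespace Pool.Agent.H893.AB.Pcompl

/-- the normed field of a valuation -/
@[reducible]
noncomputable def nf {K : Type u} [i : Field K] (v : Valuation K ℝ≥0) : NormedField K :=
  { i with
    norm := fun x => (v x : ℝ)
    dist := fun x y => (v (x - y) : ℝ)
    dist_self := fun x => by
      show (v (x - x) : ℝ) = 0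
      rw [sub_self, map_zero, NNReal.coe_zero]
    dist_comm := fun x y => by
      show (v (x - y) : ℝ) = v (y - x)
      rw [Valuation.map_sub_swap]
    dist_triangle := fun x y z => by
      show (v (x - z) : ℝ) ≤ v (x - y) + v (y - z)
      have h : x - z = (x - y) + (y - z) := by ring
      rw [h]
      have h1 := v.map_add (x - y) (y - z)
      have h2 : max (v (x - y)) (v (y - z)) ≤ v (x - y) + v (y - z) :=
        max_le (le_add_of_nonneg_right (by positivity)) (le_add_of_nonneg_left (by positivity))
      exact_mod_cast h1.trans h2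
    eq_of_dist_eq_zero := fun {x y} h => by
      have h1 : (v (x - y) : ℝ) = 0 := h
      rw [NNReal.coe_eq_zero, Valuation.zero_iff] at h1
      exact sub_eq_zero.1 h1
    dist_eq := fun x y => by
      show (v (x - y) : ℝ) = v (-x + y)
      rw [Valuation.map_sub_swap, neg_add_eq_sub]
    norm_mul := fun x y => by
      show (v (x * y) : ℝ) = v x * v y
      rw [map_mul, NNReal.coe_mul] }

theorem nf_ultra {K : Type u} [Field K] (v : Valuation K ℝ≥0) :
    @IsUltrametricDist K (nf v).toMetricSpace.toDist := by
  let := nf v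
  refine IsUltrametricDist.isUltrametricDist_of_forall_norm_add_le_max_norm fun x y => ?_
  show (v (x + y) : ℝ) ≤ max (v x : ℝ) (v y)
  exact_mod_cast v.map_add x y

/-- the theorem for a normed field -/
theorem main {E K : Type u} [Field E] [NormedField K] [IsUltrametricDist K] [Algebra E K]
    [FiniteDimensional E K] (h : ∃ e : E, e ≠ 0 ∧ ‖algebraMap E K e‖ < 1) :
    ∃ (F L : Type u) (_ : NontriviallyNormedField F) (_ : CompleteSpace F)
      (_ : IsUltrametricDist F) (_ : NormedField L) (_ : IsUltrametricDist L)
      (_ : NormedAlgebra F L) (_ : FiniteDimensional F L) (ι : K →+* L) (j : E →+* F),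
      (∀ e, algebraMap F L (j e) = ι (algebraMap E K e)) ∧ (∀ a, ‖ι a‖ = ‖a‖) ∧
      (∀ (z : F) (ε : ℝ), 0 < ε → ∃ e : E, ‖z - j e‖ < ε) ∧
      ∀ (z : L) (ε : ℝ), 0 < ε → ∃ a : K, ‖z - ι a‖ < ε := by
  let L := Completion K
  let ι : K →+* L := Completion.coeRingHom
  have hι : ∀ a, ‖ι a‖ = ‖a‖ := fun a => Completion.norm_coe a
  let S : Subfield L := (ι.comp (algebraMap E K)).fieldRange
  let Fs : Subfield L := S.topologicalClosure
  have hcl : IsClosed (Fs : Set L) := Subfield.isClosed_topologicalClosure S
  let j : E →+* Fs := (ι.comp (algebraMap E K)).codRestrict Fs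
    (fun e => Subfield.le_topologicalClosure S ⟨e, rfl⟩)
  have hj : ∀ e, ((j e : Fs) : L) = ι (algebraMap E K e) := fun e => rfl
  let iF : NontriviallyNormedField Fs :=
    { (inferInstance : NormedField Fs) with
      non_trivial := by
        obtain ⟨e, he, h1⟩ := h
        refine ⟨j e⁻¹, ?_⟩
        show 1 < ‖((j e⁻¹ : Fs) : L)‖
        rw [hj, hι, map_inv₀, norm_inv]
        have h2 : 0 < ‖algebraMap E K e‖ := norm_pos_iff.2 (by
          rw [Ne, map_eq_zero]
          exact he)
        exact (one_lt_inv₀ h2).2 h1 }
  have hFc : CompleteSpace Fs := hcl.completeSpace_coe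
  have hL : IsUltrametricDist L := by
    refine IsUltrametricDist.isUltrametricDist_of_forall_norm_add_le_max_norm fun x y => ?_
    refine Completion.induction_on₂ x y ?_ fun a b => ?_
    · exact isClosed_le (by fun_prop) (by fun_prop)
    · rw [← Completion.coe_add, Completion.norm_coe, Completion.norm_coe, Completion.norm_coe]
      exact IsUltrametricDist.norm_add_le_max a b
  have hF : IsUltrametricDist Fs := IsUltrametricDist.subtype _
  let iA : NormedAlgebra Fs L :=
    { (inferInstance : Algebra Fs L) with
      norm_smul_le := fun r x => by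
        show ‖(r : L) * x‖ ≤ ‖(r : L)‖ * ‖x‖
        exact norm_mul_le _ _ }
  have hsmul : ∀ (c : E) (x : K), ι (c • x) = (j c) • (ι x) := by
    intro c x
    rw [Algebra.smul_def, map_mul]
    rfl
  have hfd : FiniteDimensional Fs L := by
    obtain ⟨s, hs⟩ := (Module.Finite.fg_top : (⊤ : Submodule E K).FG)
    set M : Submodule Fs L := Submodule.span Fs (ι '' (s : Set K)) with hM
    have hMf : FiniteDimensional Fs M := FiniteDimensional.span_of_finite Fs (s.finite_toSet.image ι)
    have hMc : IsClosed (M : Set L) := M.closed_of_finiteDimensional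
    have hMι : ∀ a : K, ι a ∈ M := by
      intro a
      have ha : a ∈ Submodule.span E (s : Set K) := by rw [hs]; trivial
      induction ha using Submodule.span_induction with
      | mem x hx => exact Submodule.subset_span ⟨x, hx, rfl⟩
      | zero => rw [map_zero]; exact M.zero_mem
      | add x y _ _ hx hy => rw [map_add]; exact M.add_mem hx hy
      | smul c x _ hx => rw [hsmul]; exact M.smul_mem _ hx
    have hMt : M = ⊤ := by
      rw [eq_top_iff]
      intro x _
      have hx : x ∈ closure (Set.range ((↑) : K → Completion K)) := Completion.denseRange_coe x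
      have h2 : closure (Set.range ((↑) : K → Completion K)) ⊆ (M : Set L) := by
        refine closure_minimal ?_ hMc
        rintro _ ⟨a, rfl⟩
        exact hMι a
      exact h2 hx
    exact Module.finite_def.2 (by
      rw [← hMt]
      exact (Submodule.fg_top M).1 hMf.fg_top)
  refine ⟨Fs, L, iF, hFc, hF, inferInstance, hL, iA, hfd, ι, j, fun e => rfl, hι, ?_, ?_⟩
  · intro z ε hε
    have hz : (z : L) ∈ closure (S : Set L) := z.2
    obtain ⟨b, ⟨e, he⟩, hb⟩ := Metric.mem_closure_iff.1 hz ε hε
    refine ⟨e, ?_⟩
    show ‖(z : L) - ((j e : Fs) : L)‖ < ε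
    rw [hj, ← dist_eq_norm]
    have : b = ι (algebraMap E K e) := he.symm
    rw [← this]
    exact hb
  · intro z ε hε
    have hz : z ∈ closure (Set.range ((↑) : K → Completion K)) := Completion.denseRange_coe z
    obtain ⟨_, ⟨a, rfl⟩, hb⟩ := Metric.mem_closure_iff.1 hz ε hε
    refine ⟨a, ?_⟩
    rw [← dist_eq_norm]
    exact hb

end Pool.Agent.H893.AB.Pcompl

namespace Pool.Agent.H893.AB

theorem t_compl : S_compl.{u} := by
  intro E K _ _ _ _ v h
  let := Pcompl.nf v
  have := Pcompl.nf_ultra v
  exact Pcompl.main (E := E) (K := K) (by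
    obtain ⟨e, he, h1⟩ := h
    exact ⟨e, he, by
      show (v (algebraMap E K e) : ℝ) < 1
      exact_mod_cast h1⟩)

end Pool.Agent.H893.AB
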