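import Pool.Agent.H893.AB.Stm

/-!
# Determinants over ultrametric fields are Lipschitz
-/

set_option autoImplicit false

universe u

namespace Pool.Agent.H893.AB

namespace Pdet

variable {F : Type u} [NormedField F] [IsUltrametricDist F] {ι : Type*}

omit [IsUltrametricDist F] in
theorem norm_prod_le {R : ℝ} (s : Finset ι) (a : ι → F) (ha : ∀ i ∈ s, ‖a i‖ ≤ R) :
    ‖∏ i ∈ s, a i‖ ≤ R ^ s.card := by
  rw [norm_prod]
  calc ∏ i ∈ s, ‖a i‖ ≤ ∏ _i ∈ s, R := Finset.prod_le_prod (fun i _ => norm_nonneg _) ha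
    _ = R ^ s.card := Finset.prod_const R

theorem norm_sub_prod_le {R ε : ℝ} (hR : 0 ≤ R) (hε : 0 ≤ ε) (s : Finset ι) (a b : ι → F)
    (ha : ∀ i, ‖a i‖ ≤ R) (hb : ∀ i, ‖b i‖ ≤ R) (hab : ∀ i, ‖a i - b i‖ ≤ ε * R) :
    ‖∏ i ∈ s, a i - ∏ i ∈ s, b i‖ ≤ ε * R ^ s.card := by
  classical
  induction s using Finset.induction_on with
  | empty => simpa using hε
  | insert j s hj ih =>
    rw [Finset.prod_insert hj, Finset.prod_insert hj, Finset.card_insert_of_notMem hj]
    have e : a j * ∏ i ∈ s, a i - b j * ∏ i ∈ s, b i =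
        (a j - b j) * ∏ i ∈ s, a i + b j * (∏ i ∈ s, a i - ∏ i ∈ s, b i) := by ring
    rw [e]
    refine (IsUltrametricDist.norm_add_le_max _ _).trans (max_le ?_ ?_)
    · rw [norm_mul, pow_succ]
      calc ‖a j - b j‖ * ‖∏ i ∈ s, a i‖ ≤ (ε * R) * R ^ s.card :=
            mul_le_mul (hab j) (norm_prod_le s a fun i _ => ha i) (norm_nonneg _) (by positivity)
        _ = ε * (R ^ s.card * R) := by ring
    · rw [norm_mul, pow_succ]
      calc ‖b j‖ * ‖∏ i ∈ s, a i - ∏ i ∈ s, b i‖ ≤ R * (ε * R ^ s.card) :=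
            mul_le_mul (hb j) ih (norm_nonneg _) hR
        _ = ε * (R ^ s.card * R) := by ring

end Pdet

theorem t_det : S_det.{u} := by
  intro F _ _ n A B R ε hR hε hε1 hA hAB
  have hB : ∀ i j, ‖B i j‖ ≤ R := by
    intro i j
    have e : B i j = A i j + -(A i j - B i j) := by ring
    rw [e]
    refine (IsUltrametricDist.norm_add_le_max _ _).trans (max_le (hA i j) ?_)
    rw [norm_neg]
    refine (hAB i j).trans ?_
    nlinarith
  rw [Matrix.det_apply, Matrix.det_apply, ← Finset.sum_sub_distrib]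
  refine IsUltrametricDist.norm_sum_le_of_forall_le_of_nonneg (by positivity) fun σ _ => ?_
  have e : (Equiv.Perm.sign σ • ∏ i, A (σ i) i - Equiv.Perm.sign σ • ∏ i, B (σ i) i) =
      Equiv.Perm.sign σ • (∏ i, A (σ i) i - ∏ i, B (σ i) i) := (smul_sub _ _ _).symm
  rw [e]
  have h1 := Pdet.norm_sub_prod_le hR hε (Finset.univ : Finset (Fin n)) (fun i => A (σ i) i)
    (fun i => B (σ i) i) (fun i => hA _ _) (fun i => hB _ _) (fun i => hAB _ _)
  rw [Finset.card_univ, Fintype.card_fin] at h1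
  refine le_trans (le_of_eq ?_) h1
  rcases Int.units_eq_one_or (Equiv.Perm.sign σ) with h | h
  · rw [h, one_smul]
  · rw [h, Units.neg_smul, one_smul, norm_neg]

end Pool.Agent.H893.AB
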