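import Pool.Agent.H893.AB.Stm

set_option autoImplicit false

universe u w

namespace Pool.Agent.H893.AB

namespace Pdim

lemma aux {k : Type u} {W : Type w} [Field k] [AddCommGroup W] [Module k W] [FiniteDimensional k W]
    (ν : W → ℝ) (hadd : ∀ a b, ν (a + b) ≤ max (ν a) (ν b))
    (hsm : ∀ (c : k) (a : W), ν (c • a) ≤ ν a)
    (hone : ∀ a b, a ≠ 0 → b ≠ 0 → ν a = ν b → ∃ c : k, ν (a - c • b) < ν a) (n : ℕ) :
    ∀ (G : Finset ℝ) (V : Submodule k W), G.card = n → (∀ w ∈ V, w ≠ 0 → ν w ∈ G) →
      Module.finrank k V ≤ n := by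
  classical
  induction n with
  | zero =>
    intro G V hG hV
    have hVbot : V = ⊥ := by
      rw [Submodule.eq_bot_iff]
      intro x hx
      by_contra hne
      have := hV x hx hne
      rw [Finset.card_eq_zero] at hG
      rw [hG] at this
      exact absurd this (Finset.notMem_empty _)
    rw [hVbot, finrank_bot]
  | succ n ih =>
    intro G V hG hV
    by_cases hVbot : V = ⊥
    · rw [hVbot, finrank_bot]; exact Nat.zero_le _
    obtain ⟨b0, hb0, hb0ne⟩ := (Submodule.ne_bot_iff V).mp hVbot
    set A : Finset ℝ := G.filter (fun γ => ∃ w ∈ V, w ≠ 0 ∧ ν w = γ) with hA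
    have hAne : A.Nonempty := ⟨ν b0, by
      rw [hA, Finset.mem_filter]; exact ⟨hV b0 hb0 hb0ne, b0, hb0, hb0ne, rfl⟩⟩
    set g := A.max' hAne with hg
    have hgA : g ∈ A := Finset.max'_mem A hAne
    rw [hA, Finset.mem_filter] at hgA
    obtain ⟨hgG, b, hb, hbne, hbg⟩ := hgA
    have hle : ∀ w ∈ V, w ≠ 0 → ν w ≤ g := by
      intro w hw hwne
      apply Finset.le_max'
      rw [hA, Finset.mem_filter]
      exact ⟨hV w hw hwne, w, hw, hwne, rfl⟩
    have h0 : ν 0 < g := by
      obtain ⟨c, hc⟩ := hone b b hbne hbne rfl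
      have h1 := hsm (0 : k) (b - c • b)
      rw [zero_smul] at h1
      rw [hbg] at hc
      linarith
    let W' : Submodule k W :=
      { carrier := {a | a ∈ V ∧ ν a < g}
        add_mem' := by
          rintro a b ⟨ha1, ha2⟩ ⟨hb1, hb2⟩
          exact ⟨V.add_mem ha1 hb1, lt_of_le_of_lt (hadd a b) (max_lt ha2 hb2)⟩
        zero_mem' := ⟨V.zero_mem, h0⟩
        smul_mem' := by
          rintro c a ⟨ha1, ha2⟩
          exact ⟨V.smul_mem c ha1, lt_of_le_of_lt (hsm c a) ha2⟩ }
    have hVle : V ≤ W' ⊔ Submodule.span k {b} := by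
      intro a ha
      by_cases hlt : ν a < g
      · exact Submodule.mem_sup_left ⟨ha, hlt⟩
      have hane : a ≠ 0 := by
        rintro rfl
        exact hlt h0
      have hag : ν a = g := le_antisymm (hle a ha hane) (not_lt.mp hlt)
      obtain ⟨c, hc⟩ := hone a b hane hbne (hag.trans hbg.symm)
      have h1 : a - c • b ∈ W' := ⟨V.sub_mem ha (V.smul_mem c hb), by rw [← hag]; exact hc⟩
      have h2 : c • b ∈ Submodule.span k {b} :=
        Submodule.smul_mem _ _ (Submodule.mem_span_singleton_self b)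
      have h3 : a = (a - c • b) + c • b := by abel
      rw [h3]
      exact Submodule.add_mem_sup h1 h2
    have hW' : Module.finrank k W' ≤ n := by
      apply ih (G.erase g) W'
      · rw [Finset.card_erase_of_mem hgG, hG]; rfl
      · rintro w ⟨hw1, hw2⟩ hwne
        rw [Finset.mem_erase]
        exact ⟨ne_of_lt hw2, hV w hw1 hwne⟩
    have h1 := Submodule.finrank_mono hVle
    have h2 := Submodule.finrank_add_le_finrank_add_finrank W' (Submodule.span k {b})
    have h3 : Module.finrank k (Submodule.span k {b}) ≤ 1 := by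
      have := finrank_span_le_card (R := k) ({b} : Set W)
      simpa using this
    omega

end Pdim

theorem t_dim : S_dim.{u, w} := by
  intro k W _ _ _ _ ν G hG hadd hsm hone
  have := Pdim.aux (k := k) ν hadd hsm hone G.card G ⊤ rfl (fun w _ hw => hG w hw)
  rwa [finrank_top] at this

end Pool.Agent.H893.AB
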