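import Pool.Agent.H893.AB.Stm

/-!
# AB etgen: etale generators of dense finite separable extensions (helper177 for helper893)
-/

set_option autoImplicit false

universe u

namespace Pool.Agent.H893.AB

open Polynomial
open scoped NNReal

namespace Petgen

/-- polynomials are bounded on bounded sets -/
theorem bound {K : Type u} [Field K] (v : Valuation K ℝ≥0) (P : K[X]) (R : ℝ≥0) :
    ∃ B : ℝ≥0, ∀ x : K, v x ≤ R → v (P.eval x) ≤ B := by
  refine ⟨∑ i ∈ Finset.range (P.natDegree + 1), v (P.coeff i) * R ^ i, fun x hx => ?_⟩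
  rw [eval_eq_sum_range]
  refine v.map_sum_le fun i hi => ?_
  rw [map_mul, map_pow]
  refine le_trans ?_ (Finset.single_le_sum (f := fun i => v (P.coeff i) * R ^ i)
    (fun _ _ => zero_le) hi)
  exact mul_le_mul_right (pow_le_pow_left₀ (zero_le) hx i) _

/-- continuity of polynomials -/
theorem cont {K : Type u} [Field K] (v : Valuation K ℝ≥0) (P : K[X]) (θ : K) (δ : ℝ≥0)
    (hδ : 0 < δ) : ∃ ε : ℝ≥0, 0 < ε ∧ ∀ x : K, v (x - θ) < ε → v (P.eval x - P.eval θ) < δ := by
  obtain ⟨Q, hQ⟩ := X_sub_C_dvd_sub_C_eval (a := θ) (p := P)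
  obtain ⟨B, hB⟩ := bound v Q (max 1 (v θ))
  refine ⟨min 1 (δ / (B + 1)), lt_min one_pos (by positivity), fun x hx => ?_⟩
  have h1 : P.eval x - P.eval θ = (x - θ) * Q.eval x := by
    have h2 := congrArg (Polynomial.eval x) hQ
    rw [eval_sub, eval_C, eval_mul, eval_sub, eval_X, eval_C] at h2
    exact h2
  have hx1 : v x ≤ max 1 (v θ) := by
    have h2 : x = (x - θ) + θ := by ring
    rw [h2]
    refine (v.map_add _ _).trans (max_le_max ?_ le_rfl)
    exact (hx.trans_le (min_le_left _ _)).le
  rw [h1, map_mul]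
  have h3 := hB x hx1
  calc v (x - θ) * v (Q.eval x) ≤ v (x - θ) * (B + 1) :=
        mul_le_mul_right (h3.trans (by simp)) _
    _ < δ / (B + 1) * (B + 1) := by
        have hB1 : (0 : ℝ≥0) < B + 1 := by positivity
        exact mul_lt_mul_of_pos_right (hx.trans_le (min_le_right _ _)) hB1
    _ = δ := div_mul_cancel₀ _ (by positivity)

end Petgen

open Petgen in
theorem t_etgen : S_etgen.{u} := by
  classical
  intro E K _ _ _ _ _ v hnt hden
  -- the primitive element
  obtain ⟨θ, hθ⟩ := Field.exists_primitive_element E K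
  have hint : IsIntegral E θ := Algebra.IsIntegral.isIntegral θ
  have hgen : ∀ z : K, ∃ h : E[X], aeval θ h = z := by
    intro z
    have h1 : z ∈ Algebra.adjoin E {θ} := by
      have h2 : z ∈ (IntermediateField.adjoin E {θ}).toSubalgebra := by
        rw [hθ]
        trivial
      rwa [IntermediateField.adjoin_simple_toSubalgebra_of_isAlgebraic hint.isAlgebraic] at h2
    rw [Algebra.adjoin_singleton_eq_range_aeval] at h1
    exact h1
  obtain ⟨f₀, hf₀⟩ : ∃ f₀ : E[X], f₀ = minpoly E θ := ⟨_, rfl⟩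
  have hroot : aeval θ f₀ = 0 := by
    rw [hf₀]
    exact minpoly.aeval E θ
  have hder : aeval θ (derivative f₀) ≠ 0 := by
    rw [hf₀]
    exact (Algebra.IsSeparable.isSeparable E θ).aeval_derivative_ne_zero (minpoly.aeval E θ)
  have hδ : 0 < v (aeval θ (derivative f₀)) := by
    rw [pos_iff_ne_zero]
    exact (Valuation.ne_zero_iff v).2 hder
  -- the uniform bound
  have hmap : ∀ (P : E[X]) (x : K), (P.map (algebraMap E K)).eval x = aeval x P := fun P x => by
    rw [eval_map_algebraMap]
  choose B hB using fun j : ℕ => bound v ((hasseDeriv j f₀).map (algebraMap E K)) (max 1 (v θ))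
  obtain ⟨B₀, hB₀⟩ : ∃ B₀ : ℝ≥0, B₀ = ∑ j ∈ Finset.range (f₀.natDegree + 1), B j := ⟨_, rfl⟩
  -- the choice of `c`
  obtain ⟨c, hc0, hc1, hcB⟩ : ∃ c : E, c ≠ 0 ∧ v (algebraMap E K c) < 1 ∧
      v (algebraMap E K c) * B₀ < v (aeval θ (derivative f₀)) := by
    obtain ⟨e, he0, he1⟩ := hnt
    have h1 : Filter.Tendsto (fun n : ℕ => v (algebraMap E K e) ^ n) Filter.atTop (nhds 0) :=
      NNReal.tendsto_pow_atTop_nhds_zero_of_lt_one he1
    have h2 : Filter.Tendsto (fun n : ℕ => v (algebraMap E K e) ^ n * B₀) Filter.atTop (nhds 0) := by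
      have := h1.mul_const B₀
      rwa [zero_mul] at this
    obtain ⟨n, hn1, hn2⟩ := ((h1.eventually (gt_mem_nhds one_pos)).and
      (h2.eventually (gt_mem_nhds hδ))).exists
    refine ⟨e ^ n, pow_ne_zero _ he0, ?_, ?_⟩
    · rw [map_pow, map_pow]
      exact hn1
    · rw [map_pow, map_pow]
      exact hn2
  have hcv : 0 < v (algebraMap E K c) := by
    rw [pos_iff_ne_zero]
    exact (Valuation.ne_zero_iff v).2 ((_root_.map_ne_zero _).2 hc0)
  -- the choice of `e`
  obtain ⟨ε, hε, hcont⟩ := cont v ((derivative f₀).map (algebraMap E K)) θ _ hδ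
  obtain ⟨e, he⟩ := hden θ (min ε (v (algebraMap E K c))) (lt_min hε hcv)
  have he1 : v (algebraMap E K e - θ) < min ε (v (algebraMap E K c)) := by
    rwa [Valuation.map_sub_swap]
  have hev : v (aeval (algebraMap E K e) (derivative f₀)) = v (aeval θ (derivative f₀)) := by
    have h1 := hcont (algebraMap E K e) (he1.trans_le (min_le_left _ _))
    rw [hmap, hmap] at h1
    exact Valuation.map_eq_of_sub_lt v h1
  have hee : algebraMap E K ((derivative f₀).eval e) = aeval (algebraMap E K e) (derivative f₀) := by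
    rw [aeval_algebraMap_apply, coe_aeval_eq_eval]
  have hd0 : (derivative f₀).eval e ≠ 0 := by
    intro h
    rw [← hee, h, map_zero, map_zero] at hev
    exact hδ.ne hev
  have hdv : v (algebraMap E K ((derivative f₀).eval e)) = v (aeval θ (derivative f₀)) := by
    rw [hee, hev]
  have hle : v (algebraMap E K e) ≤ max 1 (v θ) := by
    have h2 : algebraMap E K e = (algebraMap E K e - θ) + θ := by ring
    rw [h2]
    refine (v.map_add _ _).trans (max_le_max ?_ le_rfl)
    exact ((he1.trans_le (min_le_right _ _)).trans hc1).le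
  -- the generator
  obtain ⟨ζ, hζ⟩ : ∃ ζ : K, ζ = (θ - algebraMap E K e) / algebraMap E K c := ⟨_, rfl⟩
  have hcK : algebraMap E K c ≠ 0 := (_root_.map_ne_zero _).2 hc0
  have hζθ : algebraMap E K c * ζ + algebraMap E K e = θ := by
    rw [hζ]
    field_simp
    ring
  have hζv : v ζ < 1 := by
    rw [hζ, map_div₀, div_lt_one₀ hcv]
    exact he.trans_le (min_le_right _ _)
  obtain ⟨q, hq⟩ : ∃ q : E[X], q = C c * X + C e := ⟨_, rfl⟩
  have hqζ : aeval ζ q = θ := by
    rw [hq, map_add, map_mul, aeval_C, aeval_X, aeval_C]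
    exact hζθ
  obtain ⟨f, hf⟩ : ∃ f : E[X], f = C ((c * (derivative f₀).eval e)⁻¹) * f₀.comp q := ⟨_, rfl⟩
  have hcoeff : ∀ j, f.coeff j = (c * (derivative f₀).eval e)⁻¹ *
      ((hasseDeriv j f₀).eval e * c ^ j) := by
    intro j
    have h1 : f₀.comp q = (taylor e f₀).comp (C c * X) := by
      rw [taylor_apply, comp_assoc, hq]
      congr 1
      simp
    rw [hf, coeff_C_mul, h1, comp_C_mul_X_coeff, taylor_coeff]
  have hfζ : aeval ζ f = 0 := by
    rw [hf, map_mul, aeval_comp, hqζ, hroot, mul_zero]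
  have hf'ζ : v (aeval ζ (derivative f)) = 1 := by
    have h1 : derivative f = C ((c * (derivative f₀).eval e)⁻¹) * (C c * (derivative f₀).comp q) := by
      rw [hf, derivative_C_mul, derivative_comp, hq]
      simp
    have h2 : aeval ζ (derivative f) = algebraMap E K ((c * (derivative f₀).eval e)⁻¹) *
        (algebraMap E K c * aeval θ (derivative f₀)) := by
      rw [h1, map_mul, map_mul, aeval_comp, hqζ, aeval_C, aeval_C]
    rw [h2, map_mul, map_mul, map_inv₀, map_inv₀, map_mul, map_mul, hdv]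
    exact inv_mul_cancel₀ (mul_ne_zero hcv.ne' hδ.ne')
  have hlarge : ∀ j, 1 ≤ j → v (algebraMap E K (f.coeff j)) ≤ 1 := by
    intro j hj
    rw [hcoeff, map_mul, map_mul, map_inv₀, map_inv₀, map_mul, map_mul, map_mul, map_mul, map_pow,
      map_pow, hdv]
    have h1 : v (algebraMap E K ((hasseDeriv j f₀).eval e)) * v (algebraMap E K c) ^ j ≤
        v (algebraMap E K c) * v (aeval θ (derivative f₀)) := by
      rcases Nat.lt_or_ge 1 j with h2 | h2
      · have h3 : v (algebraMap E K ((hasseDeriv j f₀).eval e)) ≤ B₀ := by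
          rcases Nat.lt_or_ge j (f₀.natDegree + 1) with h4 | h4
          · have h5 := hB j (algebraMap E K e) hle
            rw [hmap, aeval_algebraMap_apply, coe_aeval_eq_eval] at h5
            refine h5.trans ?_
            rw [hB₀]
            exact Finset.single_le_sum (fun _ _ => zero_le) (Finset.mem_range.2 h4)
          · rw [hasseDeriv_eq_zero_of_lt_natDegree _ _ (by omega), eval_zero, map_zero, map_zero]
            exact zero_le
        calc v (algebraMap E K ((hasseDeriv j f₀).eval e)) * v (algebraMap E K c) ^ j ≤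
            B₀ * v (algebraMap E K c) ^ 2 := by
              refine mul_le_mul' h3 (pow_le_pow_of_le_one (zero_le) hc1.le h2)
          _ = v (algebraMap E K c) * (v (algebraMap E K c) * B₀) := by ring
          _ ≤ _ := mul_le_mul' le_rfl hcB.le
      · have h3 : j = 1 := by omega
        rw [h3, hasseDeriv_one, pow_one, hdv, mul_comm]
    rw [inv_mul_le_iff₀ (mul_pos hcv hδ), mul_one]
    exact h1
  refine ⟨ζ, f, ?_, hfζ, hf'ζ, hζv, ?_⟩
  · intro i
    rcases Nat.eq_zero_or_pos i with hi | hi
    · subst hi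
      have h1 : algebraMap E K (f.coeff 0) =
          -∑ j ∈ Finset.range f.natDegree, algebraMap E K (f.coeff (j + 1)) * ζ ^ (j + 1) := by
        have h2 := hfζ
        rw [aeval_eq_sum_range, Finset.sum_range_succ'] at h2
        simp only [pow_zero, Algebra.smul_def, mul_one] at h2
        exact (neg_eq_of_add_eq_zero_right h2).symm
      rw [h1, Valuation.map_neg]
      refine v.map_sum_le fun j _ => ?_
      rw [map_mul, map_pow]
      exact mul_le_one' (hlarge _ (by omega)) (pow_le_one₀ (zero_le) hζv.le)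
    · exact hlarge i hi
  · intro z
    obtain ⟨h, hh⟩ := hgen z
    exact ⟨h.comp q, by rw [aeval_comp, hqζ, hh]⟩

end Pool.Agent.H893.AB
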