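import Pool.Agent.H893.AB.Stm

/-!
# Project AB: the norm of a finite extension of complete ultrametric fields
-/

set_option autoImplicit false

universe u

namespace Pool.Agent.H893.AB

open Polynomial IntermediateField

namespace Pnorm

/-- The norm of an element is a power of the constant coefficient of the minimal polynomial, up to
the sign. -/
theorem norm_eq {F L : Type u} [Field F] [Field L] [Algebra F L] [FiniteDimensional F L] (a : L) :
    Algebra.norm F a =
      ((-1) ^ (minpoly F a).natDegree * (minpoly F a).coeff 0) ^ Module.finrank F⟮a⟯ L := by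
  have hint : IsIntegral F a := IsIntegral.of_finite F a
  rw [Algebra.norm_eq_norm_adjoin F a]
  congr 1
  have h := Algebra.PowerBasis.norm_gen_eq_coeff_zero_minpoly
    (IntermediateField.adjoin.powerBasis hint)
  rw [IntermediateField.adjoin.powerBasis_gen, IntermediateField.adjoin.powerBasis_dim,
    IntermediateField.minpoly_gen] at h
  exact h

end Pnorm

theorem t_norm : S_norm.{u} := by
  intro F L _ _ _ _ _ _ _ a
  have hint : IsIntegral F a := IsIntegral.of_finite F a
  have h1 : ‖a‖ = spectralNorm F L a := NormedAlgebra.norm_eq_spectralNorm F a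
  have h2 := spectralNorm.spectralNorm_eq_norm_coeff_zero_rpow F L a
  have hd : ((minpoly F a).natDegree : ℝ) ≠ 0 := by
    exact_mod_cast (minpoly.natDegree_pos hint).ne'
  have hpow : ‖a‖ ^ (minpoly F a).natDegree = ‖(minpoly F a).coeff 0‖ := by
    rw [h1, h2, ← Real.rpow_natCast, ← Real.rpow_mul (norm_nonneg _), one_div_mul_cancel hd,
      Real.rpow_one]
  have hdeg : (minpoly F a).natDegree * Module.finrank F⟮a⟯ L = Module.finrank F L := by
    rw [← IntermediateField.adjoin.finrank hint, Module.finrank_mul_finrank]
  rw [Pnorm.norm_eq a, norm_pow, norm_mul, norm_pow, norm_neg, norm_one, one_pow, one_mul,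
    ← hpow, ← pow_mul, hdeg]

end Pool.Agent.H893.AB
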