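import Pool.Agent.H893.AB.Stm

/-!
# Abhyankar valuations: separability over the field generated by a basis of the value group

If `K` has a valuation with residue field `k` and the values of the `x i` are a basis of the value
group, then `K` is separable over `k(x)` as soon as it is algebraic over it.
-/

set_option autoImplicit false

universe u

namespace Pool.Agent.H893.AB

open Polynomial
open scoped NNReal

namespace Psepa

/-- A `p`-basis-like family of a field of characteristic `p`: a basis over the `p`-th powers. -/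
theorem exists_basis (k : Type u) [Field k] (p : ℕ) [Fact p.Prime] [CharP k p] :
    ∃ (L : Type u) (μ : L → k),
      (∀ (s : Finset L) (c : L → k), ∑ l ∈ s, μ l * c l ^ p = 0 → ∀ l ∈ s, c l = 0) ∧
      ∀ a : k, ∃ (s : Finset L) (c : L → k), a = ∑ l ∈ s, μ l * c l ^ p := by
  have : ExpChar k p := ExpChar.prime Fact.out
  let F : Subfield k := (frobenius k p).fieldRange
  let B := Module.Basis.ofVectorSpace F k
  refine ⟨_, B, ?_, ?_⟩
  · intro s c h l hl
    have hli := linearIndependent_iff'.1 B.linearIndependent s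
      (fun l => (⟨c l ^ p, ⟨c l, by simp [frobenius_def]⟩⟩ : F)) (by
        rw [← h]
        refine Finset.sum_congr rfl fun j _ => ?_
        rw [Subfield.smul_def, smul_eq_mul, mul_comm]) l hl
    have h1 : c l ^ p = 0 := congrArg Subtype.val hli
    exact pow_eq_zero_iff (Fact.out : p.Prime).ne_zero |>.1 h1
  · intro a
    have h0 : ∀ y : F, ∃ z : k, z ^ p = (y : k) := by
      rintro ⟨y, z, hz⟩
      exact ⟨z, by simpa [frobenius_def] using hz⟩
    choose root hroot using h0
    refine ⟨(B.repr a).support, fun l => root (B.repr a l), ?_⟩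
    have h1 := B.linearCombination_repr a
    rw [Finsupp.linearCombination_apply, Finsupp.sum] at h1
    conv_lhs => rw [← h1]
    refine Finset.sum_congr rfl fun j _ => ?_
    rw [Subfield.smul_def, smul_eq_mul, mul_comm, hroot]

section

variable {k K : Type u} [Field k] [Field K] [Algebra k K] {r : ℕ}

/-- The monomial `x ^ m`. -/
noncomputable def mon (x : Fin r → K) (m : Fin r → ℤ) : K := ∏ i, x i ^ m i

theorem mon_ne_zero {x : Fin r → K} (hx : ∀ i, x i ≠ 0) (m : Fin r → ℤ) : mon x m ≠ 0 :=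
  Finset.prod_ne_zero_iff.2 fun i _ => zpow_ne_zero _ (hx i)

theorem mon_add {x : Fin r → K} (hx : ∀ i, x i ≠ 0) (m n : Fin r → ℤ) :
    mon x (m + n) = mon x m * mon x n := by
  unfold mon
  rw [← Finset.prod_mul_distrib]
  exact Finset.prod_congr rfl fun i _ => zpow_add₀ (hx i) _ _

theorem mon_mul (x : Fin r → K) (m : Fin r → ℤ) (p : ℕ) :
    mon x (fun i => (p : ℤ) * m i) = mon x m ^ p := by
  unfold mon
  rw [← Finset.prod_pow]
  refine Finset.prod_congr rfl fun i _ => ?_
  simp only []
  rw [mul_comm, zpow_mul, zpow_natCast]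

theorem v_mon (v : Valuation K ℝ≥0) (x : Fin r → K) (m : Fin r → ℤ) :
    v (mon x m) = ∏ i, v (x i) ^ m i := by
  unfold mon
  rw [map_prod]
  exact Finset.prod_congr rfl fun i _ => map_zpow₀ v _ _

/-- Monomials with the same value have the same exponents. -/
theorem mon_inj {v : Valuation K ℝ≥0} {x : Fin r → K} (hx : ∀ i, x i ≠ 0)
    (hind : ∀ m : Fin r → ℤ, ∏ i, v (x i) ^ m i = 1 → m = 0) {m n : Fin r → ℤ}
    (h : v (mon x m) = v (mon x n)) : m = n := by
  have h1 : v (mon x (m - n)) = 1 := by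
    have h2 : mon x m = mon x (m - n) * mon x n := by
      rw [← mon_add hx, sub_add_cancel]
    have h3 : v (mon x n) ≠ 0 := (Valuation.ne_zero_iff v).2 (mon_ne_zero hx n)
    rw [h2, map_mul] at h
    exact mul_right_cancel₀ h3 (by rw [h, one_mul])
  rw [v_mon] at h1
  exact sub_eq_zero.1 (hind _ h1)

/-- The family `μ l * x ^ α` with `0 ≤ α i < p`. -/
noncomputable def fam {L : Type u} (μ : L → k) (x : Fin r → K) {p : ℕ}
    (j : L × (Fin r → Fin p)) : K :=
  algebraMap k K (μ j.1) * mon x (fun i => ((j.2 i : ℕ) : ℤ))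

/-- The family is independent over the `p`-th powers of the big field. -/
theorem key (p : ℕ) [Fact p.Prime] [CharP k p] [CharP K p] (v : Valuation K ℝ≥0)
    (hv : ∀ c : k, c ≠ 0 → v (algebraMap k K c) = 1)
    (hres : ∀ x : K, v x ≤ 1 → ∃ c : k, v (x - algebraMap k K c) < 1)
    (x : Fin r → K) (hx : ∀ i, x i ≠ 0)
    (hind : ∀ m : Fin r → ℤ, ∏ i, v (x i) ^ m i = 1 → m = 0)
    (hval : ∀ z : K, z ≠ 0 → ∃ m : Fin r → ℤ, v z = ∏ i, v (x i) ^ m i)
    {L : Type u} (μ : L → k)
    (hμ : ∀ (s : Finset L) (c : L → k), ∑ l ∈ s, μ l * c l ^ p = 0 → ∀ l ∈ s, c l = 0)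
    (s : Finset (L × (Fin r → Fin p))) (w : L × (Fin r → Fin p) → K)
    (hsum : ∑ j ∈ s, fam μ x j * w j ^ p = 0) : ∀ j ∈ s, w j = 0 := by
  classical
  have : ExpChar k p := ExpChar.prime Fact.out
  have : ExpChar K p := ExpChar.prime Fact.out
  have hp0 : p ≠ 0 := (Fact.out : p.Prime).ne_zero
  have hμ0 : ∀ l, μ l ≠ 0 := by
    intro l hl
    have := hμ {l} (fun _ => 1) (by simp [hl]) l (by simp)
    exact one_ne_zero this
  by_contra hcon
  push Not at hcon
  obtain ⟨j₁, hj₁, hw₁⟩ := hcon
  obtain ⟨j₀, hj₀, hmax⟩ := Finset.exists_max_image (s.filter fun j => w j ≠ 0)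
    (fun j => v (fam μ x j * w j ^ p)) ⟨j₁, by simp [hj₁, hw₁]⟩
  rw [Finset.mem_filter] at hj₀
  obtain ⟨hj₀s, hw₀⟩ := hj₀
  have hmax' : ∀ j ∈ s, v (fam μ x j * w j ^ p) ≤ v (fam μ x j₀ * w j₀ ^ p) := by
    intro j hj
    by_cases hwj : w j = 0
    · rw [hwj, zero_pow hp0, mul_zero, map_zero]
      exact zero_le
    · exact hmax j (by simp [hj, hwj])
  obtain ⟨n, hn⟩ := hval (w j₀) hw₀
  rw [← v_mon] at hn
  have hξ : mon x n ≠ 0 := mon_ne_zero hx n
  have hvξ : v (mon x n) ≠ 0 := (Valuation.ne_zero_iff v).2 hξ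
  set ξ := mon x n with hξdef
  set A : K := mon x (fun i => ((j₀.2 i : ℕ) : ℤ)) with hA
  have hA0 : A ≠ 0 := mon_ne_zero hx _
  have hvA : v A ≠ 0 := (Valuation.ne_zero_iff v).2 hA0
  have hvd : v (A * ξ ^ p) ≠ 0 := (Valuation.ne_zero_iff v).2 (mul_ne_zero hA0 (pow_ne_zero _ hξ))
  have hval₀ : v (fam μ x j₀ * w j₀ ^ p) = v (A * ξ ^ p) := by
    unfold fam
    rw [map_mul, map_mul, hv _ (hμ0 _), one_mul, map_mul, map_pow, map_pow, hn]
  -- approximations
  have happ : ∀ j ∈ s, ∃ c : k, (j.2 = j₀.2 → v (w j / ξ - algebraMap k K c) < 1) ∧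
      v (fam μ x j * w j ^ p -
        algebraMap k K (if j.2 = j₀.2 then μ j.1 * c ^ p else 0) * (A * ξ ^ p)) <
        v (A * ξ ^ p) := by
    intro j hj
    by_cases hα : j.2 = j₀.2
    · have hle := hmax' j hj
      rw [hval₀] at hle
      have hfam : fam μ x j = algebraMap k K (μ j.1) * A := by
        unfold fam
        rw [hα]
      rw [hfam, map_mul, map_mul, hv _ (hμ0 _), one_mul, map_mul] at hle
      have hle2 : v (w j ^ p) ≤ v (ξ ^ p) := le_of_mul_le_mul_left hle (pos_iff_ne_zero.2 hvA)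
      rw [map_pow, map_pow] at hle2
      have hle3 : v (w j) ≤ v ξ := (pow_le_pow_iff_left₀ (zero_le) (zero_le) hp0).1 hle2
      have hle4 : v (w j / ξ) ≤ 1 := by
        rw [map_div₀]
        exact div_le_one_of_le₀ hle3 (zero_le)
      obtain ⟨c, hc⟩ := hres _ hle4
      refine ⟨c, fun _ => hc, ?_⟩
      rw [if_pos hα]
      have heq : fam μ x j * w j ^ p - algebraMap k K (μ j.1 * c ^ p) * (A * ξ ^ p) =
          algebraMap k K (μ j.1) * (w j / ξ - algebraMap k K c) ^ p * (A * ξ ^ p) := by
        rw [hfam, sub_pow_expChar, div_pow, map_mul, map_pow]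
        field_simp
      rw [heq, map_mul, map_mul, hv _ (hμ0 _), one_mul, map_pow]
      have h1 : v (w j / ξ - algebraMap k K c) ^ p < 1 := pow_lt_one₀ (zero_le) hc hp0
      calc v (w j / ξ - algebraMap k K c) ^ p * v (A * ξ ^ p)
          < 1 * v (A * ξ ^ p) := mul_lt_mul_of_pos_right h1 (pos_iff_ne_zero.2 hvd)
        _ = v (A * ξ ^ p) := one_mul _
    · refine ⟨0, fun h => absurd h hα, ?_⟩
      rw [if_neg hα, map_zero, zero_mul, sub_zero]
      refine lt_of_le_of_ne (by rw [← hval₀]; exact hmax' j hj) ?_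
      intro heq
      have hwj : w j ≠ 0 := by
        intro h0
        rw [h0, zero_pow hp0, mul_zero, map_zero] at heq
        exact hvd heq.symm
      obtain ⟨m, hm⟩ := hval (w j) hwj
      rw [← v_mon] at hm
      have h1 : v (fam μ x j * w j ^ p) =
          v (mon x ((fun i => ((j.2 i : ℕ) : ℤ)) + fun i => (p : ℤ) * m i)) := by
        rw [mon_add hx, mon_mul]
        unfold fam
        rw [map_mul, map_mul, hv _ (hμ0 _), one_mul, map_mul, map_pow, map_pow, hm]
      have h2 : v (A * ξ ^ p) =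
          v (mon x ((fun i => ((j₀.2 i : ℕ) : ℤ)) + fun i => (p : ℤ) * n i)) := by
        rw [mon_add hx, mon_mul]
      rw [h1, h2] at heq
      have h3 := mon_inj hx hind heq
      apply hα
      funext i
      have h4 := congrFun h3 i
      simp only [Pi.add_apply] at h4
      have h5 : ((j.2 i : ℕ) : ℤ) % (p : ℤ) = ((j₀.2 i : ℕ) : ℤ) % (p : ℤ) := by
        have := congrArg (· % (p : ℤ)) h4
        simpa [Int.add_mul_emod_self_left] using this
      have h6 : (j.2 i : ℕ) % p = (j₀.2 i : ℕ) % p := by exact_mod_cast h5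
      rw [Nat.mod_eq_of_lt (j.2 i).2, Nat.mod_eq_of_lt (j₀.2 i).2] at h6
      exact Fin.ext h6
  choose! c hc1 hc2 using happ
  have hlt := Valuation.map_sum_lt v hvd hc2
  rw [Finset.sum_sub_distrib, hsum, zero_sub, Valuation.map_neg, ← Finset.sum_mul, ← map_sum,
    map_mul] at hlt
  have hC : ∑ j ∈ s, (if j.2 = j₀.2 then μ j.1 * c j ^ p else 0) = 0 := by
    by_contra hne
    rw [hv _ hne, one_mul] at hlt
    exact lt_irrefl _ hlt
  rw [← Finset.sum_filter] at hC
  have hinj : ∀ a ∈ s.filter (fun j => j.2 = j₀.2), ∀ b ∈ s.filter (fun j => j.2 = j₀.2),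
      a.1 = b.1 → a = b := by
    intro a ha b hb hab
    rw [Finset.mem_filter] at ha hb
    exact Prod.ext hab (ha.2.trans hb.2.symm)
  have h7 : ∑ l ∈ (s.filter (fun j => j.2 = j₀.2)).image Prod.fst, μ l * c (l, j₀.2) ^ p = 0 := by
    rw [Finset.sum_image hinj, ← hC]
    refine Finset.sum_congr rfl fun j hj => ?_
    rw [Finset.mem_filter] at hj
    rw [← hj.2]
  have h8 := hμ _ (fun l => c (l, j₀.2)) h7 j₀.1
    (Finset.mem_image.2 ⟨j₀, Finset.mem_filter.2 ⟨hj₀s, rfl⟩, rfl⟩)
  have h9 := hc1 j₀ hj₀s rfl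
  have h8' : c j₀ = 0 := h8
  rw [h8', map_zero, sub_zero, map_div₀, hn, div_self hvξ] at h9
  exact lt_irrefl _ h9

/-- The span of the family over the `p`-th powers of a subfield `E` containing `k` and the `x i`
contains `E`. -/
theorem gen (p : ℕ) [Fact p.Prime] [CharP k p] [CharP K p]
    (x : Fin r → K) (hx : ∀ i, x i ≠ 0) {L : Type u} (μ : L → k)
    (hμ : ∀ a : k, ∃ (s : Finset L) (c : L → k), a = ∑ l ∈ s, μ l * c l ^ p)
    (e : K) (he : e ∈ IntermediateField.adjoin k (Set.range x)) :
    ∃ c : (L × (Fin r → Fin p)) →₀ (IntermediateField.adjoin k (Set.range x)),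
      e = c.sum fun j a => fam μ x j * (a : K) ^ p := by
  classical
  have : ExpChar k p := ExpChar.prime Fact.out
  have : ExpChar K p := ExpChar.prime Fact.out
  have hp0 : p ≠ 0 := (Fact.out : p.Prime).ne_zero
  set E := IntermediateField.adjoin k (Set.range x) with hE
  let Ep : Subfield K := E.toSubfield.map (frobenius K p)
  have hEp : ∀ a : K, a ∈ E → a ^ p ∈ Ep := fun a ha =>
    Subfield.mem_map.2 ⟨a, ha, frobenius_def _ _⟩
  have hxE : ∀ i, x i ∈ E := fun i => IntermediateField.subset_adjoin k _ ⟨i, rfl⟩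
  have hmonE : ∀ m : Fin r → ℤ, mon x m ∈ E := fun m => by
    unfold mon
    exact prod_mem fun i _ => zpow_mem (hxE i) _
  let M : Submodule Ep K := Submodule.span Ep (Set.range (fam μ x : L × (Fin r → Fin p) → K))
  have hsmul : ∀ a : K, a ∈ E → ∀ y ∈ M, y * a ^ p ∈ M := by
    intro a ha y hy
    have h1 := M.smul_mem (⟨a ^ p, hEp a ha⟩ : Ep) hy
    rwa [Subfield.smul_def, smul_eq_mul, mul_comm] at h1
  -- monomials
  have hmon : ∀ (a : k) (m : Fin r → ℤ), algebraMap k K a * mon x m ∈ M := by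
    intro a m
    obtain ⟨s, c, hc⟩ := hμ a
    have hpz : (0 : ℤ) < p := by exact_mod_cast Nat.pos_of_ne_zero hp0
    let α : Fin r → Fin p := fun i => ⟨(m i % p).toNat, by
      have h1 := Int.emod_lt_of_pos (m i) hpz
      have h2 := Int.emod_nonneg (m i) hpz.ne'
      omega⟩
    have hα : ∀ i, ((α i : ℕ) : ℤ) = m i % p := fun i =>
      Int.toNat_of_nonneg (Int.emod_nonneg (m i) hpz.ne')
    have hsplit : mon x m = mon x (fun i => ((α i : ℕ) : ℤ)) * mon x (fun i => m i / p) ^ p := by
      rw [← mon_mul, ← mon_add hx]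
      congr 1
      funext i
      simp only [Pi.add_apply, hα]
      exact (Int.emod_add_mul_ediv (m i) p).symm
    rw [hc, map_sum, Finset.sum_mul]
    refine sum_mem fun l _ => ?_
    have h1 : algebraMap k K (μ l * c l ^ p) * mon x m =
        fam μ x (l, α) * (algebraMap k K (c l) * mon x (fun i => m i / p)) ^ p := by
      rw [hsplit, map_mul, map_pow]
      unfold fam
      ring
    rw [h1]
    exact hsmul _ (mul_mem (E.algebraMap_mem _) (hmonE _)) _ (Submodule.subset_span ⟨_, rfl⟩)
  have hmul : ∀ y z : K, y ∈ M → z ∈ M → y * z ∈ M := by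
    intro y z hy hz
    have h1 : M * M ≤ M := by
      change Submodule.span _ _ * Submodule.span _ _ ≤ M
      rw [Submodule.span_mul_span, Submodule.span_le]
      rintro _ ⟨_, ⟨j, rfl⟩, _, ⟨j', rfl⟩, rfl⟩
      have h2 : fam μ x j * fam μ x j' = algebraMap k K (μ j.1 * μ j'.1) *
          mon x ((fun i => ((j.2 i : ℕ) : ℤ)) + fun i => ((j'.2 i : ℕ) : ℤ)) := by
        rw [mon_add hx, map_mul]
        unfold fam
        ring
      change fam μ x j * fam μ x j' ∈ M
      rw [h2]
      exact hmon _ _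
    exact h1 (Submodule.mul_mem_mul hy hz)
  have hadj : ∀ y ∈ Algebra.adjoin k (Set.range x), y ∈ M := by
    intro y hy
    induction hy using Algebra.adjoin_induction with
    | mem y hy =>
      obtain ⟨i, rfl⟩ := hy
      have h1 := hmon 1 (Pi.single i 1)
      have h2 : mon x (Pi.single i 1) = x i := by
        unfold mon
        rw [Finset.prod_eq_single i]
        · simp
        · intro j _ hj
          simp [hj]
        · simp
      rwa [h2, map_one, one_mul] at h1
    | algebraMap a =>
      have h1 := hmon a 0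
      have h2 : mon x (0 : Fin r → ℤ) = 1 := by
        unfold mon
        simp
      rwa [h2, mul_one] at h1
    | add y z _ _ hy hz => exact M.add_mem hy hz
    | mul y z _ _ hy hz => exact hmul y z hy hz
  have heM : e ∈ M := by
    obtain ⟨a, ha, b, hb, rfl⟩ := IntermediateField.mem_adjoin_iff_div.1 he
    by_cases hb0 : b = 0
    · rw [hb0, div_zero]
      exact M.zero_mem
    have hbE : b ∈ E := IntermediateField.algebra_adjoin_le_adjoin k _ hb
    have h1 : a / b = a * b ^ (p - 1) * (b⁻¹) ^ p := by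
      obtain ⟨q, rfl⟩ : ∃ q, p = q + 1 := ⟨p - 1, by omega⟩
      rw [Nat.add_sub_cancel, pow_succ, inv_pow]
      field_simp
    rw [h1]
    exact hsmul _ (inv_mem hbE) _ (hadj _ (mul_mem ha (pow_mem hb _)))
  obtain ⟨c, hc⟩ := Finsupp.mem_span_range_iff_exists_finsupp.1 heM
  have hroot : ∀ y : Ep, ∃ z : E, (z : K) ^ p = (y : K) := by
    rintro ⟨y, z, hz, hzy⟩
    exact ⟨⟨z, hz⟩, by simpa [frobenius_def] using hzy⟩
  choose root hroot using hroot
  have hroot0 : root 0 = 0 := by
    have h1 := hroot 0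
    have h2 : ((root 0 : E) : K) = 0 := by
      apply (pow_eq_zero_iff hp0).1
      rw [h1]
      rfl
    exact_mod_cast h2
  refine ⟨c.mapRange root hroot0, ?_⟩
  rw [Finsupp.sum_mapRange_index (by intro j; simp [hp0]), ← hc]
  refine Finsupp.sum_congr fun j _ => ?_
  rw [Subfield.smul_def, smul_eq_mul, mul_comm, hroot]

end

end Psepa

/-- **Task sepa.** -/
theorem t_sepa : S_sepa.{u} := by
  intro k K _ _ _ p _ _ v hv hres r x hx hind hval halg
  classical
  have hCK : CharP K p := charP_of_injective_algebraMap (algebraMap k K).injective p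
  have : ExpChar k p := ExpChar.prime Fact.out
  have : ExpChar K p := ExpChar.prime Fact.out
  have hp0 : p ≠ 0 := (Fact.out : p.Prime).ne_zero
  have hp1 : 1 < p := (Fact.out : p.Prime).one_lt
  set E := IntermediateField.adjoin k (Set.range x) with hE
  have : CharP E p := charP_of_injective_algebraMap (algebraMap k E).injective p
  obtain ⟨L, μ, hμ1, hμ2⟩ := Psepa.exists_basis k p
  rw [Algebra.isSeparable_def]
  intro z
  have hz : IsIntegral E z := (halg.isAlgebraic z).isIntegral
  rcases separable_or p (minpoly.irreducible hz) with h | ⟨-, g, hgirr, hgf⟩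
  · exact h
  exfalso
  have hg0 : g ≠ 0 := hgirr.ne_zero
  have hgz : aeval (z ^ p) g = 0 := by
    rw [← expand_aeval, hgf, minpoly.aeval]
  have hgen := fun e : E => Psepa.gen p x hx μ hμ2 (e : K) e.2
  choose U hU using hgen
  set n := g.natDegree + 1 with hn
  let s : Finset (L × (Fin r → Fin p)) := (Finset.range n).biUnion fun i => (U (g.coeff i)).support
  have hcoef : ∀ i ∈ Finset.range n, ((g.coeff i : E) : K) =
      ∑ j ∈ s, Psepa.fam μ x j * ((U (g.coeff i) j : E) : K) ^ p := by
    intro i hi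
    conv_lhs => rw [hU (g.coeff i)]
    refine Finsupp.sum_of_support_subset _ ?_ _ ?_
    · exact Finset.subset_biUnion_of_mem (fun i => (U (g.coeff i)).support) hi
    · intro j _
      simp [hp0]
  have hsum : ∑ j ∈ s, Psepa.fam μ x j *
      (∑ i ∈ Finset.range n, ((U (g.coeff i) j : E) : K) * z ^ i) ^ p = 0 := by
    rw [← hgz, aeval_eq_sum_range]
    have h1 : ∀ j ∈ s, Psepa.fam μ x j *
        (∑ i ∈ Finset.range n, ((U (g.coeff i) j : E) : K) * z ^ i) ^ p =
        ∑ i ∈ Finset.range n, Psepa.fam μ x j * (((U (g.coeff i) j : E) : K) ^ p) *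
          (z ^ p) ^ i := by
      intro j _
      rw [sum_pow_char, Finset.mul_sum]
      refine Finset.sum_congr rfl fun i _ => ?_
      rw [mul_pow, ← pow_mul, ← pow_mul, mul_comm p i]
      ring
    rw [Finset.sum_congr rfl h1, Finset.sum_comm]
    refine Finset.sum_congr rfl fun i hi => ?_
    rw [← Finset.sum_mul, ← hcoef i hi]
    rfl
  have hkey := Psepa.key p v hv hres x hx hind hval μ hμ1 s
    (fun j => ∑ i ∈ Finset.range n, ((U (g.coeff i) j : E) : K) * z ^ i) hsum
  have hdeg : g.natDegree < (minpoly E z).natDegree := by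
    rw [← hgf, natDegree_expand]
    have := hgirr.natDegree_pos
    nlinarith
  have hU0 : ∀ j ∈ s, ∀ i ∈ Finset.range n, U (g.coeff i) j = 0 := by
    intro j hj i hi
    let h : E[X] := ∑ i ∈ Finset.range n, C (U (g.coeff i) j) * X ^ i
    have h1 : aeval z h = 0 := by
      rw [← hkey j hj]
      simp only [h, map_sum, map_mul, aeval_C, map_pow, aeval_X]
      rfl
    have h2 : h = 0 := by
      by_contra hne
      have h3 := minpoly.degree_le_of_ne_zero E z hne h1
      have h4 := natDegree_le_natDegree h3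
      have h5 : h.natDegree ≤ g.natDegree := by
        refine natDegree_sum_le_of_forall_le _ _ fun i hi => ?_
        refine (natDegree_C_mul_X_pow_le _ _).trans ?_
        rw [Finset.mem_range] at hi
        omega
      omega
    have h6 : h.coeff i = U (g.coeff i) j := by
      simp only [h, finsetSum_coeff, coeff_C_mul, coeff_X_pow]
      rw [Finset.sum_eq_single i]
      · simp
      · intro b _ hb
        simp [hb.symm]
      · intro h
        exact absurd hi h
    rw [← h6, h2, coeff_zero]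
  apply hg0
  ext i
  by_cases hi : i ∈ Finset.range n
  · rw [hcoef i hi, Finset.sum_eq_zero]
    · simp
    · intro j hj
      rw [hU0 j hj i hi]
      simp [hp0]
  · rw [Finset.mem_range, hn, not_lt] at hi
    rw [coeff_eq_zero_of_natDegree_lt (by omega)]
    simp

end Pool.Agent.H893.AB
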