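import Pool.Agent.H893.AB.Stm2

/-!
# AB, task stab: monomial complete fields have no immediate finite extensions (helper740)
-/

set_option autoImplicit false

universe u w

namespace Pool.Agent.H893.AB

open Polynomial
open scoped NNReal

namespace Pstab

section one

variable {k F : Type u} {Λ : Type w} [Field k] [NormedField F] [Algebra k F] [AddCommGroup Λ]

lemma val_evL [IsUltrametricDist F] (hk : ∀ c : k, c ≠ 0 → ‖algebraMap k F c‖ = 1) {ω : Λ →+ ℝ}
    (hω : Function.Injective ω) {X : Multiplicative Λ →* Fˣ}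
    (hX : ∀ β, ‖(X (.ofAdd β) : F)‖ = Real.exp (-(ω β))) {g : AddMonoidAlgebra k Λ} (hg : g ≠ 0) :
    ∃ β, g.coeff β ≠ 0 ∧ (∀ γ, g.coeff γ ≠ 0 → ω β ≤ ω γ) ∧
      ‖evL k X g‖ = Real.exp (-(ω β)) := by
  obtain ⟨β, h1, h2, h3⟩ := v_evL (v := NormedField.valuation (K := F)) (ω := ω)
    (fun c hc => NNReal.coe_injective (hk c hc)) hω (X := X)
    (fun β => NNReal.coe_injective (hX β)) hg
  exact ⟨β, h1, h2, congrArg NNReal.toReal h3⟩

/-- the monomials with exponents in `P` -/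
def Smon (P : AddSubmonoid Λ) (X : Multiplicative Λ →* Fˣ) : Submonoid F where
  carrier := {z | ∃ β ∈ P, z = (X (.ofAdd β) : F)}
  one_mem' := ⟨0, P.zero_mem, by simp⟩
  mul_mem' := by
    rintro _ _ ⟨a, ha, rfl⟩ ⟨b, hb, rfl⟩
    exact ⟨a + b, P.add_mem ha hb, by rw [ofAdd_add, map_mul, Units.val_mul]⟩

/-- the polynomials with exponents in `P` -/
def Bs (k : Type u) {F : Type u} {Λ : Type w} [Field k] [NormedField F] [Algebra k F] [AddCommGroup Λ]
    (P : AddSubmonoid Λ) (X : Multiplicative Λ →* Fˣ) : Subalgebra k F :=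
  Algebra.adjoin k (Smon P X : Set F)

lemma mem_Bs {P : AddSubmonoid Λ} {X : Multiplicative Λ →* Fˣ} {z : F} (hz : z ∈ Bs k P X) :
    ∃ g : AddMonoidAlgebra k Λ, (∀ β, g.coeff β ≠ 0 → β ∈ P) ∧ evL k X g = z := by
  have h1 : z ∈ Submodule.span k (Smon P X : Set F) := by
    have h2 : z ∈ Subalgebra.toSubmodule (Bs k P X) := hz
    rw [Bs, Algebra.adjoin_eq_span, Submonoid.closure_eq] at h2
    exact h2
  clear hz
  classical
  induction h1 using Submodule.span_induction with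
  | mem z hz =>
    obtain ⟨β, hβ, rfl⟩ := hz
    refine ⟨AddMonoidAlgebra.single β 1, fun γ hγ => ?_, ?_⟩
    · rw [AddMonoidAlgebra.coeff_single, Finsupp.single_apply] at hγ
      split_ifs at hγ with h
      · rw [← h]
        exact hβ
      · exact absurd rfl hγ
    · rw [evL_single, map_one, one_mul]
  | zero => exact ⟨0, fun β h => absurd (by simp) h, map_zero _⟩
  | add a b _ _ ha hb =>
    obtain ⟨g, hg1, hg2⟩ := ha
    obtain ⟨g', hg'1, hg'2⟩ := hb
    refine ⟨g + g', fun β h => ?_, by rw [map_add, hg2, hg'2]⟩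
    by_cases h0 : g.coeff β = 0
    · refine hg'1 β fun h2 => h ?_
      rw [AddMonoidAlgebra.coeff_add, Finsupp.add_apply, h0, h2, add_zero]
    · exact hg1 β h0
  | smul c a _ ha =>
    obtain ⟨g, hg1, hg2⟩ := ha
    refine ⟨c • g, fun β h => hg1 β fun h0 => h ?_, by rw [map_smul, hg2]⟩
    simp [h0]

lemma evL_mem_Bs {P : AddSubmonoid Λ} {X : Multiplicative Λ →* Fˣ} {g : AddMonoidAlgebra k Λ}
    (hg : ∀ β, g.coeff β ≠ 0 → β ∈ P) : evL k X g ∈ Bs k P X := by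
  unfold evL
  rw [AddMonoidAlgebra.lift_apply, Finsupp.sum]
  refine Subalgebra.sum_mem _ fun β hβ => Subalgebra.smul_mem _ (Algebra.subset_adjoin ?_) _
  exact ⟨β, hg β (Finsupp.mem_support_iff.1 hβ), rfl⟩

lemma val_Bs [IsUltrametricDist F] (hk : ∀ c : k, c ≠ 0 → ‖algebraMap k F c‖ = 1) {ω : Λ →+ ℝ}
    (hω : Function.Injective ω) {X : Multiplicative Λ →* Fˣ}
    (hX : ∀ β, ‖(X (.ofAdd β) : F)‖ = Real.exp (-(ω β))) {P : AddSubmonoid Λ} {z : F}
    (hz : z ∈ Bs k P X) (hz0 : z ≠ 0) : ∃ δ ∈ P, ‖z‖ = Real.exp (-(ω δ)) := by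
  obtain ⟨g, hg, rfl⟩ := mem_Bs hz
  have hg0 : g ≠ 0 := by
    rintro rfl
    exact hz0 (map_zero _)
  obtain ⟨β, h1, -, h3⟩ := val_evL hk hω hX hg0
  exact ⟨β, hg β h1, h3⟩

end one

lemma norm_sub_le_max' {F : Type u} [NormedField F] [IsUltrametricDist F] (x y : F) :
    ‖x - y‖ ≤ max ‖x‖ ‖y‖ := by
  have := IsUltrametricDist.norm_add_le_max x (-y)
  rwa [norm_neg, ← sub_eq_add_neg] at this

lemma norm_eq_of_sub_lt {F : Type u} [NormedField F] [IsUltrametricDist F] {x y : F}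
    (h : ‖x - y‖ < ‖x‖) : ‖y‖ = ‖x‖ := by
  have h1 : ‖y‖ ≤ max ‖x‖ ‖x - y‖ := by
    have := norm_sub_le_max' x (x - y)
    rwa [sub_sub_cancel] at this
  have h2 : ‖x‖ ≤ max ‖x - y‖ ‖y‖ := by
    have := IsUltrametricDist.norm_add_le_max (x - y) y
    rwa [sub_add_cancel] at this
  rw [max_eq_left h.le] at h1
  rcases le_max_iff.1 h2 with h3 | h3
  · exact absurd h3 (not_le.2 h)
  · exact le_antisymm h1 h3

/-- **Claim 1.** -/
lemma claim1 {k F L : Type u} {Λ : Type w} [Field k] [NormedField F] [IsUltrametricDist F] [NormedField L]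
    [NormedAlgebra F L] [Algebra k F] [AddCommGroup Λ] (hdet : S_det.{u})
    (hk : ∀ c : k, c ≠ 0 → ‖algebraMap k F c‖ = 1) {ω : Λ →+ ℝ}
    (hω : Function.Injective ω) {X : Multiplicative Λ →* Fˣ}
    (hX : ∀ β, ‖(X (.ofAdd β) : F)‖ = Real.exp (-(ω β))) {Pc : AddSubmonoid Λ}
    {n : ℕ} (hroot : ∀ β, n • β ∈ Pc → β ∈ Pc)
    (e' : Fin n → L) (M P : Fin n → Matrix (Fin n) (Fin n) F) {C0 ε : ℝ} (hC0 : 1 ≤ C0)
    (hε0 : 0 ≤ ε) (hε1 : ε ≤ 1) (hε : ε * C0 ^ n ≤ 1 / 2)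
    (hM : ∀ i j l, ‖M i j l‖ ≤ 1) (hP : ∀ i j l, ‖M i j l - P i j l‖ ≤ ε)
    (hPB : ∀ i j l, P i j l ∈ Bs k Pc X)
    (hN : ∀ b : Fin n → F, ‖(∑ i, b i • M i).det‖ = ‖∑ i, b i • e' i‖ ^ n)
    (hb : ∀ (b : Fin n → F) (i : Fin n), ‖b i‖ ≤ C0 * ‖∑ i, b i • e' i‖)
    (hval : ∀ a : L, a ≠ 0 → ∃ β : Λ, ‖a‖ = Real.exp (-(ω β)))
    (b : Fin n → F) (hbB : ∀ i, b i ∈ Bs k Pc X) (hb0 : ∃ i, b i ≠ 0) :
    ∃ γ ∈ Pc, ‖∑ i, b i • e' i‖ = Real.exp (-(ω γ)) := by
  obtain ⟨i₀, hi₀⟩ := hb0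
  set a : L := ∑ i, b i • e' i with ha
  have hapos : 0 < ‖a‖ := by
    have h1 := hb b i₀
    have h2 : 0 < ‖b i₀‖ := norm_pos_iff.2 hi₀
    rw [← ha] at h1
    by_contra h3
    have h4 : ‖a‖ = 0 := le_antisymm (not_lt.1 h3) (norm_nonneg _)
    rw [h4, mul_zero] at h1
    linarith
  have hR0 : 0 ≤ C0 * ‖a‖ := by positivity
  have hA : ∀ j l, ‖(∑ i, b i • M i) j l‖ ≤ C0 * ‖a‖ := by
    intro j l
    rw [Matrix.sum_apply]
    refine IsUltrametricDist.norm_sum_le_of_forall_le_of_nonneg hR0 fun i _ => ?_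
    rw [Matrix.smul_apply, smul_eq_mul, norm_mul]
    have h1 := hb b i
    have h2 := hM i j l
    have h3 := norm_nonneg (b i)
    calc ‖b i‖ * ‖M i j l‖ ≤ ‖b i‖ * 1 := mul_le_mul_of_nonneg_left h2 h3
      _ ≤ _ := by rw [mul_one]; exact h1
  have hAB : ∀ j l, ‖(∑ i, b i • M i) j l - (∑ i, b i • P i) j l‖ ≤ ε * (C0 * ‖a‖) := by
    intro j l
    rw [Matrix.sum_apply, Matrix.sum_apply, ← Finset.sum_sub_distrib]
    refine IsUltrametricDist.norm_sum_le_of_forall_le_of_nonneg (by positivity) fun i _ => ?_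
    rw [Matrix.smul_apply, Matrix.smul_apply, smul_eq_mul, smul_eq_mul, ← mul_sub, norm_mul]
    have h1 := hb b i
    have h2 := hP i j l
    calc ‖b i‖ * ‖M i j l - P i j l‖ ≤ (C0 * ‖a‖) * ε :=
          mul_le_mul h1 h2 (norm_nonneg _) hR0
      _ = _ := by ring
  have h1 := hdet (∑ i, b i • M i) (∑ i, b i • P i) (C0 * ‖a‖) ε hR0 hε0 hε1 hA hAB
  have hNa := hN b
  rw [← ha] at hNa
  have h2 : ‖(∑ i, b i • M i).det - (∑ i, b i • P i).det‖ < ‖(∑ i, b i • M i).det‖ := by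
    rw [hNa]
    refine lt_of_le_of_lt h1 ?_
    rw [mul_pow, ← mul_assoc]
    have h3 : 0 < ‖a‖ ^ n := by positivity
    nlinarith
  have h3 := norm_eq_of_sub_lt h2
  rw [hNa] at h3
  have hD0 : (∑ i, b i • P i).det ≠ 0 := by
    intro h
    rw [h, norm_zero] at h3
    have : 0 < ‖a‖ ^ n := by positivity
    linarith
  have hDB : (∑ i, b i • P i).det ∈ Bs k Pc X := by
    rw [Matrix.det_apply]
    refine Subalgebra.sum_mem _ fun σ _ => ?_
    rw [Units.smul_def]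
    refine zsmul_mem (Subalgebra.prod_mem _ fun j _ => ?_) _
    rw [Matrix.sum_apply]
    refine Subalgebra.sum_mem _ fun i _ => ?_
    rw [Matrix.smul_apply, smul_eq_mul]
    exact Subalgebra.mul_mem _ (hbB i) (hPB i _ _)
  obtain ⟨δ, hδ, hδv⟩ := val_Bs hk hω hX hDB hD0
  obtain ⟨β, hβ⟩ := hval a (norm_pos_iff.1 hapos)
  refine ⟨β, hroot β ?_, hβ⟩
  have h4 : Real.exp (-(ω (n • β))) = Real.exp (-(ω δ)) := by
    rw [← hδv, h3, hβ, ← Real.exp_nat_mul, map_nsmul, nsmul_eq_mul]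
    congr 1
    ring
  have h5 : n • β = δ := by
    apply hω
    have := Real.exp_injective h4
    linarith
  rw [h5]
  exact hδ

/-- **Claim 2.** -/
lemma claim2 {k L : Type u} {Λ : Type w} [Field k] [NormedField L] [IsUltrametricDist L] [AddCommGroup Λ]
    (hdim : S_dim.{u, max u w}) {ω : Λ →+ ℝ} (hω : Function.Injective ω) (κ : k →+* L)
    (hκ : ∀ c, ‖κ c‖ ≤ 1) (Y : Λ → L) (H H' : Finset Λ) {n : ℕ} (Ψ : (Fin n → H → k) → L)
    (hadd : ∀ a b, Ψ (a + b) = Ψ a + Ψ b) (hsmul : ∀ c a, Ψ (c • a) = κ c * Ψ a)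
    (hval : ∀ w, w ≠ 0 → ∃ γ ∈ H', ‖Ψ w‖ = Real.exp (-(ω γ)))
    (himm : ∀ a : L, a ≠ 0 → ∃ (c : k) (β : Λ), c ≠ 0 ∧ ‖a‖ = Real.exp (-(ω β)) ∧
      ‖a - κ c * Y β‖ < ‖a‖) :
    n * H.card ≤ H'.card := by
  classical
  have hne : ∀ w, w ≠ 0 → Ψ w ≠ 0 := by
    intro w hw h
    obtain ⟨γ, -, h2⟩ := hval w hw
    rw [h, norm_zero] at h2
    exact absurd h2.symm (Real.exp_pos _).ne'
  have h1 := hdim (k := k) (W := Fin n → H → k) (fun w => ‖Ψ w‖)
    (H'.image fun γ => Real.exp (-(ω γ)))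
    (fun w hw => by
      obtain ⟨γ, h1, h2⟩ := hval w hw
      rw [Finset.mem_image]
      exact ⟨γ, h1, h2.symm⟩)
    (fun a b => by
      rw [hadd]
      exact IsUltrametricDist.norm_add_le_max _ _)
    (fun c a => by
      rw [hsmul, norm_mul]
      exact mul_le_of_le_one_left (norm_nonneg _) (hκ c))
    (fun a b ha hb hab => by
      obtain ⟨c1, β1, hc1, hv1, hs1⟩ := himm (Ψ a) (hne a ha)
      obtain ⟨c2, β2, hc2, hv2, hs2⟩ := himm (Ψ b) (hne b hb)
      have hβ : β1 = β2 := by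
        apply hω
        have h3 : Real.exp (-(ω β1)) = Real.exp (-(ω β2)) := by rw [← hv1, ← hv2, hab]
        have := Real.exp_injective h3
        linarith
      subst hβ
      refine ⟨c1 / c2, ?_⟩
      have e : Ψ (a - (c1 / c2) • b) = (Ψ a - κ c1 * Y β1) -
          κ (c1 / c2) * (Ψ b - κ c2 * Y β1) := by
        have e1 : Ψ (a - (c1 / c2) • b) = Ψ a + κ (-(c1 / c2)) * Ψ b := by
          rw [sub_eq_add_neg, ← neg_smul, hadd, hsmul]
        have e2 : κ (c1 / c2) * κ c2 = κ c1 := by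
          rw [← map_mul, div_mul_cancel₀ _ hc2]
        rw [e1, map_neg, ← e2]
        ring
      rw [e]
      refine lt_of_le_of_lt (norm_sub_le_max' _ _) (max_lt hs1 ?_)
      rw [norm_mul, hab]
      exact lt_of_le_of_lt (mul_le_of_le_one_left (norm_nonneg _) (hκ _)) hs2)
  have h2 : Module.finrank k (Fin n → H → k) = n * H.card := by
    rw [Module.finrank_pi_fintype]
    simp
  rw [h2] at h1
  exact h1.trans Finset.card_image_le

/-- the polynomial with given coefficients -/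
noncomputable def gf {k : Type u} {Λ : Type w} [Field k] [AddCommGroup Λ] {H : Finset Λ} (f : H → k) :
    AddMonoidAlgebra k Λ := ∑ γ : H, AddMonoidAlgebra.single (γ : Λ) (f γ)

open scoped Classical in
lemma gf_coeff {k : Type u} {Λ : Type w} [Field k] [AddCommGroup Λ] {H : Finset Λ} (f : H → k) (β : Λ) :
    (gf f).coeff β = if h : β ∈ H then f ⟨β, h⟩ else 0 := by
  unfold gf
  rw [AddMonoidAlgebra.coeff_sum, Finsupp.finsetSum_apply]
  simp only [AddMonoidAlgebra.coeff_single, Finsupp.single_apply]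
  split_ifs with h
  · rw [Finset.sum_eq_single (⟨β, h⟩ : H)]
    · rw [if_pos rfl]
    · intro b _ hb
      rw [if_neg]
      intro h2
      exact hb (Subtype.ext h2)
    · intro h2
      exact absurd (Finset.mem_univ _) h2
  · refine Finset.sum_eq_zero fun b _ => ?_
    rw [if_neg]
    intro h2
    rw [← h2] at h
    exact h b.2

lemma card_H {Λ : Type w} [AddCommGroup Λ] [Module.Free ℤ Λ] [Module.Finite ℤ Λ] {ω : Λ →+ ℝ}
    {s : ℕ} (bs : Module.Basis (Fin s) ℤ Λ) (hbs : ∀ j, 0 < ω (bs j)) (T : ℝ) :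
    (chartP_finite hbs T).toFinset.card =
      {γ : Fin s → ℕ | ∑ i, (γ i : ℝ) * ω (bs i) ≤ T}.ncard := by
  have h1 : (fun m : Fin s → ℕ => ∑ j, (m j : ℤ) • bs j) ''
      {γ : Fin s → ℕ | ∑ i, (γ i : ℝ) * ω (bs i) ≤ T} = {β | β ∈ chartP bs ∧ ω β ≤ T} := by
    ext β
    constructor
    · rintro ⟨m, hm, rfl⟩
      have hm' : ∑ i, (m i : ℝ) * ω (bs i) ≤ T := hm
      refine ⟨fun j => ?_, ?_⟩
      · rw [Module.Basis.repr_sum_self]
        positivity
      · rw [map_sum]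
        refine le_trans (le_of_eq ?_) hm'
        refine Finset.sum_congr rfl fun j _ => ?_
        rw [map_zsmul, zsmul_eq_mul]
        push_cast
        rfl
    · rintro ⟨h1, h2⟩
      have h3 : ∀ j, ((bs.repr β j).toNat : ℤ) = bs.repr β j := fun j => Int.toNat_of_nonneg (h1 j)
      refine ⟨fun j => (bs.repr β j).toNat, ?_, ?_⟩
      · change ∑ i, (((bs.repr β i).toNat : ℕ) : ℝ) * ω (bs i) ≤ T
        rw [ω_eq_sum ω bs β] at h2
        refine le_trans (le_of_eq ?_) h2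
        refine Finset.sum_congr rfl fun j _ => ?_
        congr 1
        exact_mod_cast h3 j
      · simp only [h3]
        exact bs.sum_repr β
  have hinj : Function.Injective (fun m : Fin s → ℕ => ∑ j, (m j : ℤ) • bs j) := by
    intro m m' h
    funext j
    have h2 := congrArg (fun x => bs.repr x j) h
    simp only [Module.Basis.repr_sum_self] at h2
    exact_mod_cast h2
  rw [← Set.ncard_image_of_injective _ hinj, h1, ← Set.ncard_coe_finset, Set.Finite.coe_toFinset]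

end Pstab

open Pstab in
theorem t_stab (h1 : S_count) (h2 : S_dim.{u, max u w}) (h3 : S_det.{u}) : S_stab.{u, w} := by
  classical
  intro k F L Λ _ _ _ _ _ _ _ _ _ _ _ _ hk ω hω X hX hdens himm hN
  by_contra hne
  have hn0 : 0 < Module.finrank F L := Module.finrank_pos
  obtain ⟨e, -⟩ : ∃ e : Module.Basis (Fin (Module.finrank F L)) F L, e = Module.finBasis F L :=
    ⟨_, rfl⟩
  generalize Module.finrank F L = n at hne hn0 e hN
  have hn2 : 2 ≤ n := by omega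
  -- the values
  have hval : ∀ a : L, a ≠ 0 → ∃ (c : k) (β : Λ), c ≠ 0 ∧ ‖a‖ = Real.exp (-(ω β)) ∧
      ‖a - ((algebraMap F L).comp (algebraMap k F)) c * algebraMap F L (X (.ofAdd β) : F)‖ < ‖a‖ := by
    intro a ha
    obtain ⟨c, β, h4⟩ := himm a ha
    have h5 := norm_eq_of_sub_lt h4
    rw [norm_algebraMap', norm_mul, hX] at h5
    have hc : c ≠ 0 := by
      rintro rfl
      rw [map_zero, norm_zero, zero_mul] at h5
      exact ha (norm_eq_zero.1 h5.symm)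
    rw [hk c hc, one_mul] at h5
    refine ⟨c, β, hc, h5.symm, ?_⟩
    rw [RingHom.comp_apply, ← map_mul]
    exact h4
  have hkle : ∀ c : k, ‖algebraMap k F c‖ ≤ 1 := by
    intro c
    by_cases hc : c = 0
    · rw [hc, map_zero, norm_zero]
      exact zero_le_one
    · exact (hk c hc).le
  -- the coordinates are bounded
  have hcoord : ∀ i, ∃ Ci : ℝ, 0 ≤ Ci ∧ ∀ a : L, ‖e.repr a i‖ ≤ Ci * ‖a‖ := by
    intro i
    obtain ⟨f, hf⟩ : ∃ f : L →L[F] F, f = LinearMap.toContinuousLinearMap (e.coord i) := ⟨_, rfl⟩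
    refine ⟨‖f‖, norm_nonneg _, fun a => ?_⟩
    have h4 := f.le_opNorm a
    rw [hf] at h4 ⊢
    exact h4
  choose Ci hCi0 hCi using hcoord
  obtain ⟨C, hC⟩ : ∃ C : ℝ, C = ∑ i, Ci i := ⟨_, rfl⟩
  have hC0 : 0 ≤ C := by
    rw [hC]
    exact Finset.sum_nonneg fun i _ => hCi0 i
  have hCb : ∀ (a : L) (i : Fin n), ‖e.repr a i‖ ≤ C * ‖a‖ := by
    intro a i
    refine (hCi i a).trans (mul_le_mul_of_nonneg_right ?_ (norm_nonneg _))
    rw [hC]
    exact Finset.single_le_sum (f := Ci) (fun i _ => hCi0 i) (Finset.mem_univ i)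
  -- a small multiple of the basis
  obtain ⟨M0, hM0⟩ : ∃ M0 : Fin n → Matrix (Fin n) (Fin n) F,
    M0 = fun i => Algebra.leftMulMatrix e (e i) := ⟨_, rfl⟩
  obtain ⟨m, hm⟩ : ∃ m : ℝ, m = 1 + ∑ i, ∑ j, ∑ l, ‖M0 i j l‖ := ⟨_, rfl⟩
  have hm0 : 0 < m := by
    rw [hm]
    have : 0 ≤ ∑ i, ∑ j, ∑ l, ‖M0 i j l‖ := by positivity
    linarith
  have hmM : ∀ i j l, ‖M0 i j l‖ ≤ m := by
    intro i j l
    have h4 : ‖M0 i j l‖ ≤ ∑ l, ‖M0 i j l‖ :=
      Finset.single_le_sum (f := fun l => ‖M0 i j l‖) (fun _ _ => norm_nonneg _) (Finset.mem_univ l)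
    have h5 : ∑ l, ‖M0 i j l‖ ≤ ∑ j, ∑ l, ‖M0 i j l‖ :=
      Finset.single_le_sum (f := fun j => ∑ l, ‖M0 i j l‖)
        (fun _ _ => Finset.sum_nonneg fun _ _ => norm_nonneg _) (Finset.mem_univ j)
    have h6 : ∑ j, ∑ l, ‖M0 i j l‖ ≤ ∑ i, ∑ j, ∑ l, ‖M0 i j l‖ :=
      Finset.single_le_sum (f := fun i => ∑ j, ∑ l, ‖M0 i j l‖)
        (fun _ _ => Finset.sum_nonneg fun _ _ => Finset.sum_nonneg fun _ _ => norm_nonneg _)
        (Finset.mem_univ i)
    rw [hm]
    linarith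
  obtain ⟨lam, hl0, hl⟩ := NormedField.exists_norm_lt F (r := 1 / m) (by positivity)
  have hlam : lam ≠ 0 := norm_pos_iff.1 hl0
  obtain ⟨M, hMd⟩ : ∃ M : Fin n → Matrix (Fin n) (Fin n) F, M = fun i => lam • M0 i := ⟨_, rfl⟩
  obtain ⟨e', he'⟩ : ∃ e' : Fin n → L, e' = fun i => lam • e i := ⟨_, rfl⟩
  have hM : ∀ i j l, ‖M i j l‖ ≤ 1 := by
    intro i j l
    rw [hMd]
    simp only [Matrix.smul_apply, smul_eq_mul, norm_mul]
    calc ‖lam‖ * ‖M0 i j l‖ ≤ 1 / m * m := mul_le_mul hl.le (hmM i j l) (norm_nonneg _)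
          (by positivity)
      _ = 1 := by field_simp
  have hdetN : ∀ b : Fin n → F, ‖(∑ i, b i • M i).det‖ = ‖∑ i, b i • e' i‖ ^ n := by
    intro b
    rw [← hN, Algebra.norm_eq_matrix_det e]
    congr 2
    rw [map_sum]
    refine Finset.sum_congr rfl fun i _ => ?_
    rw [map_smul, he', hMd, hM0]
    simp only [map_smul]
  obtain ⟨C0, hC0d⟩ : ∃ C0 : ℝ, C0 = max 1 (C / ‖lam‖) := ⟨_, rfl⟩
  have hC01 : 1 ≤ C0 := by rw [hC0d]; exact le_max_left _ _
  have hb : ∀ (b : Fin n → F) (i : Fin n), ‖b i‖ ≤ C0 * ‖∑ i, b i • e' i‖ := by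
    intro b i
    have h4 := hCb (∑ i, b i • e' i) i
    have h5 : ∑ i, b i • e' i = ∑ i, (b i * lam) • e i := by
      refine Finset.sum_congr rfl fun i _ => ?_
      rw [he', mul_smul]
    have h6 : e.repr (∑ i, b i • e' i) i = b i * lam := by
      rw [h5, Module.Basis.repr_sum_self]
    rw [h6, norm_mul] at h4
    have h7 : ‖b i‖ ≤ C / ‖lam‖ * ‖∑ i, b i • e' i‖ := by
      rw [div_mul_eq_mul_div, le_div_iff₀ hl0]
      exact h4
    refine h7.trans (mul_le_mul_of_nonneg_right ?_ (norm_nonneg _))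
    rw [hC0d]
    exact le_max_right _ _
  -- approximation
  obtain ⟨ε, hε⟩ : ∃ ε : ℝ, ε = 1 / (2 * C0 ^ n) := ⟨_, rfl⟩
  have hC0n : 1 ≤ C0 ^ n := one_le_pow₀ hC01
  have hε0 : 0 < ε := by rw [hε]; positivity
  have hε1 : ε ≤ 1 := by
    rw [hε, div_le_one (by positivity)]
    linarith
  have hεC : ε * C0 ^ n ≤ 1 / 2 := by
    rw [hε]
    have : C0 ^ n ≠ 0 := by positivity
    field_simp
    norm_num
  choose g hg using fun i j l => hdens (M i j l) ε hε0
  obtain ⟨P, hPd⟩ : ∃ P : Fin n → Matrix (Fin n) (Fin n) F,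
    P = fun i => Matrix.of fun j l => evL k X (g i j l) := ⟨_, rfl⟩
  have hPle : ∀ i j l, ‖evL k X (g i j l)‖ ≤ 1 := by
    intro i j l
    have h4 := norm_sub_le_max' (M i j l) (M i j l - evL k X (g i j l))
    rw [sub_sub_cancel] at h4
    exact h4.trans (max_le (hM i j l) ((hg i j l).le.trans hε1))
  have hsupp : ∀ i j l γ, (g i j l).coeff γ ≠ 0 → 0 ≤ ω γ := by
    intro i j l γ hγ
    have hg0 : g i j l ≠ 0 := by
      intro h
      rw [h] at hγ
      simp at hγ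
    obtain ⟨β, -, h5, h6⟩ := val_evL hk hω hX hg0
    have h7 := hPle i j l
    rw [h6, ← Real.exp_zero, Real.exp_le_exp] at h7
    linarith [h5 γ hγ]
  obtain ⟨D, hD⟩ : ∃ D : Finset Λ, D = ((Finset.univ.biUnion fun i : Fin n =>
    Finset.univ.biUnion fun j : Fin n => Finset.univ.biUnion fun l : Fin n =>
      (g i j l).coeff.support).filter (· ≠ 0)) := ⟨_, rfl⟩
  have hDω : ∀ d ∈ D, 0 < ω d := by
    intro d hd
    rw [hD, Finset.mem_filter, Finset.mem_biUnion] at hd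
    obtain ⟨⟨i, -, hd⟩, hd0⟩ := hd
    rw [Finset.mem_biUnion] at hd
    obtain ⟨j, -, hd⟩ := hd
    rw [Finset.mem_biUnion] at hd
    obtain ⟨l, -, hd⟩ := hd
    have h4 := hsupp i j l d (Finsupp.mem_support_iff.1 hd)
    refine lt_of_le_of_ne h4 fun h5 => hd0 ?_
    apply hω
    rw [map_zero, ← h5]
  obtain ⟨s, bs, hbs, hDc⟩ := exists_chart ω hω D hDω
  have hgc : ∀ i j l γ, (g i j l).coeff γ ≠ 0 → γ ∈ chartP bs := by
    intro i j l γ hγ
    by_cases h0 : γ = 0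
    · rw [h0]
      exact zero_mem _
    · refine hDc γ ?_
      rw [hD, Finset.mem_filter]
      refine ⟨?_, h0⟩
      simp only [Finset.mem_biUnion, Finset.mem_univ, true_and]
      exact ⟨i, j, l, Finsupp.mem_support_iff.2 hγ⟩
  have hPB : ∀ i j l, P i j l ∈ Bs k (chartP bs) X := by
    intro i j l
    rw [hPd]
    exact evL_mem_Bs (hgc i j l)
  have hPM : ∀ i j l, ‖M i j l - P i j l‖ ≤ ε := by
    intro i j l
    rw [hPd]
    exact (hg i j l).le
  have hc1 := claim1 h3 hk hω hX (Pc := chartP bs) (n := n)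
    (fun β hβ => chartP_root (by omega) hβ) e' M P hC01 hε0.le hε1 hεC hM hPM hPB hdetN hb
    (fun a ha => by
      obtain ⟨-, β, -, h5, -⟩ := hval a ha
      exact ⟨β, h5⟩)
  -- counting
  refine (h1 s (fun j => ω (bs j)) hbs).2 (Real.log C0) fun T hT => ?_
  rw [← card_H bs hbs T, ← card_H bs hbs (T + Real.log C0)]
  obtain ⟨H, hH⟩ : ∃ H : Finset Λ, H = (chartP_finite hbs T).toFinset := ⟨_, rfl⟩
  obtain ⟨H', hH'⟩ : ∃ H' : Finset Λ, H' = (chartP_finite hbs (T + Real.log C0)).toFinset :=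
    ⟨_, rfl⟩
  rw [← hH, ← hH']
  have hHm : ∀ γ, γ ∈ H ↔ γ ∈ chartP bs ∧ ω γ ≤ T := by
    intro γ
    rw [hH, Set.Finite.mem_toFinset]
    rfl
  have hH'm : ∀ γ, γ ∈ H' ↔ γ ∈ chartP bs ∧ ω γ ≤ T + Real.log C0 := by
    intro γ
    rw [hH', Set.Finite.mem_toFinset]
    rfl
  have hgf0 : ∀ f : H → k, f ≠ 0 → gf f ≠ 0 := by
    intro f hf h
    apply hf
    funext γ
    have h4 := gf_coeff f (γ : Λ)
    rw [dif_pos γ.2, h] at h4
    simp only [Subtype.coe_eta] at h4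
    rw [← h4]
    simp
  have hgfs : ∀ (f : H → k) (β : Λ), (gf f).coeff β ≠ 0 → β ∈ H := by
    intro f β hβ
    by_contra h
    rw [gf_coeff, dif_neg h] at hβ
    exact hβ rfl
  have hc2 := claim2 (k := k) (L := L) (Λ := Λ) h2 hω ((algebraMap F L).comp (algebraMap k F))
    (fun c => by
      rw [RingHom.comp_apply, norm_algebraMap']
      exact hkle c)
    (fun β => algebraMap F L (X (.ofAdd β) : F)) H H' (n := n)
    (fun w => ∑ i, evL k X (gf (w i)) • e' i)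
    (fun a b => by
      rw [← Finset.sum_add_distrib]
      refine Finset.sum_congr rfl fun i _ => ?_
      rw [← add_smul, ← map_add]
      congr 2
      ext β
      rw [AddMonoidAlgebra.coeff_add, Finsupp.add_apply, gf_coeff, gf_coeff, gf_coeff]
      split_ifs
      · rfl
      · rw [add_zero])
    (fun c a => by
      rw [Finset.mul_sum]
      refine Finset.sum_congr rfl fun i _ => ?_
      have e1 : gf ((c • a) i) = c • gf (a i) := by
        ext β
        have : (c • gf (a i)).coeff β = c * (gf (a i)).coeff β := by simp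
        rw [this, gf_coeff, gf_coeff]
        split_ifs
        · rfl
        · rw [mul_zero]
      rw [e1, map_smul, Algebra.smul_def c, mul_smul, RingHom.comp_apply, Algebra.smul_def
        (algebraMap k F c)])
    (fun w hw => by
      obtain ⟨i, hi⟩ : ∃ i, w i ≠ 0 := by
        by_contra h
        push Not at h
        exact hw (funext h)
      obtain ⟨δ, hδ1, -, hδ3⟩ := val_evL hk hω hX (hgf0 (w i) hi)
      have hδT : ω δ ≤ T := ((hHm δ).1 (hgfs _ _ hδ1)).2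
      obtain ⟨γ, hγ1, hγ2⟩ := hc1 (fun i => evL k X (gf (w i)))
        (fun i => evL_mem_Bs fun β hβ => ((hHm β).1 (hgfs _ _ hβ)).1) ⟨i, fun h => by
          rw [h, norm_zero] at hδ3
          exact absurd hδ3.symm (Real.exp_pos _).ne'⟩
      refine ⟨γ, (hH'm γ).2 ⟨hγ1, ?_⟩, hγ2⟩
      have h4 := hb (fun i => evL k X (gf (w i))) i
      rw [hγ2, hδ3] at h4
      have h5 : C0 * Real.exp (-(ω γ)) = Real.exp (Real.log C0 + -(ω γ)) := by
        rw [Real.exp_add, Real.exp_log (by linarith)]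
      rw [h5, Real.exp_le_exp] at h4
      linarith)
    hval
  refine le_trans ?_ hc2
  exact Nat.mul_le_mul_right _ hn2

end Pool.Agent.H893.AB
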