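import Pool.Agent.H893.AB.P_count
import Pool.Agent.H893.AB.P_dim
import Pool.Agent.H893.AB.P_det
import Pool.Agent.H893.AB.P_norm
import Pool.Agent.H893.AB.P_compl
import Pool.Agent.H893.AB.P_etgen
import Pool.Agent.H893.AB.P_sepa
import Pool.Agent.H893.AB.P_fg
import Pool.Agent.H893.AB.P_stab
import Pool.Agent.H893.AB.Laur

/-!
# Abhyankar valuations have no defect
-/

set_option autoImplicit false
set_option linter.unusedVariables false
set_option linter.unusedSectionVars false

universe u

namespace Pool.Agent.H893.AB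

open Polynomial
open scoped NNReal

/-- The monomials. -/
noncomputable def monX {F : Type u} [Field F] {r : ℕ} (x : Fin r → Fˣ) :
    Multiplicative (Fin r → ℤ) →* Fˣ where
  toFun m := ∏ i, x i ^ (m.toAdd i)
  map_one' := by simp
  map_mul' a b := by
    rw [← Finset.prod_mul_distrib]
    refine Finset.prod_congr rfl fun i _ => ?_
    rw [toAdd_mul, Pi.add_apply, zpow_add]

lemma monX_val {F : Type u} [Field F] {r : ℕ} (x : Fin r → Fˣ) (m : Fin r → ℤ) :
    ((monX x (.ofAdd m) : Fˣ) : F) = ∏ i, (x i : F) ^ m i := by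
  change ((∏ i, x i ^ m i : Fˣ) : F) = _
  rw [Units.coe_prod]
  exact Finset.prod_congr rfl fun i _ => Units.val_zpow_eq_zpow_val _ _

/-- The weights of the monomials. -/
noncomputable def wts {r : ℕ} (a : Fin r → ℝ) : (Fin r → ℤ) →+ ℝ where
  toFun m := ∑ i, (m i : ℝ) * a i
  map_zero' := by simp
  map_add' m n := by
    rw [← Finset.sum_add_distrib]
    refine Finset.sum_congr rfl fun i _ => ?_
    rw [Pi.add_apply]
    push_cast
    ring

/-- If the values of the `x i` are a basis of the value group, and if the residue field is `k`, then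
`k(x)` is dense in every finite extension. -/
theorem dense_abh {k K : Type u} [Field k] [Field K] [Algebra k K]
    (v : Valuation K ℝ≥0) (hk : ∀ c : k, c ≠ 0 → v (algebraMap k K c) = 1)
    (hres : ∀ x : K, v x ≤ 1 → ∃ c : k, v (x - algebraMap k K c) < 1) {r : ℕ} (hr : 0 < r)
    (x : Fin r → K) (hx0 : ∀ i, x i ≠ 0) (hind : ∀ m : Fin r → ℤ, ∏ i, v (x i) ^ m i = 1 → m = 0)
    (hgr : ∀ z : K, z ≠ 0 → ∃ m : Fin r → ℤ, v z = ∏ i, v (x i) ^ m i)
    [FiniteDimensional (IntermediateField.adjoin k (Set.range x)) K] (a : K) (ε : ℝ≥0)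
    (hε : 0 < ε) :
    ∃ e : IntermediateField.adjoin k (Set.range x), v (a - algebraMap _ K e) < ε := by
  classical
  set E := IntermediateField.adjoin k (Set.range x) with hE
  have hxE : ∀ i, x i ∈ E := fun i => IntermediateField.subset_adjoin _ _ ⟨i, rfl⟩
  have hnt : ∃ e : E, e ≠ 0 ∧ v (algebraMap E K e) < 1 := by
    set y := x ⟨0, hr⟩ with hy
    have hy0 : y ≠ 0 := hx0 _
    have hvy : v y ≠ 1 := by
      intro h8
      have h9 := hind (Pi.single ⟨0, hr⟩ 1) (by
        rw [Finset.prod_eq_single (⟨0, hr⟩ : Fin r)]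
        · rw [Pi.single_eq_same, zpow_one]
          exact h8
        · intro j _ hj
          rw [Pi.single_eq_of_ne hj, zpow_zero]
        · intro h9
          exact absurd (Finset.mem_univ _) h9)
      have h10 := congrFun h9 ⟨0, hr⟩
      rw [Pi.single_eq_same] at h10
      exact one_ne_zero h10
    have hyE : y ∈ E := hxE _
    rcases lt_or_gt_of_ne hvy with h8 | h8
    · exact ⟨⟨y, hyE⟩, fun h => hy0 (congrArg Subtype.val h), h8⟩
    · refine ⟨⟨y, hyE⟩⁻¹, inv_ne_zero fun h => hy0 (congrArg Subtype.val h), ?_⟩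
      rw [map_inv₀, map_inv₀]
      exact inv_lt_one_of_one_lt₀ h8
  obtain ⟨F, L, _, _, _, _, _, _, _, ι, j, hj, hι, hF, hL⟩ := t_compl (E := E) (K := K) v hnt
  let _ : Algebra k F := (j.comp (algebraMap k E)).toAlgebra
  have hjn : ∀ e : E, ‖j e‖ = v (e : K) := by
    intro e
    rw [← norm_algebraMap' L (j e), hj, hι]
    rfl
  have hkF : ∀ c : k, c ≠ 0 → ‖algebraMap k F c‖ = 1 := by
    intro c hc
    have h1 : algebraMap k F c = j (algebraMap k E c) := rfl
    rw [h1, hjn]
    have h2 := hk c hc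
    have h3 : ((algebraMap k E c : E) : K) = algebraMap k K c := rfl
    rw [h3, h2]
    rfl
  -- the monomials
  let xE : Fin r → Eˣ := fun i => Units.mk0 ⟨x i, hxE i⟩ fun h => hx0 i (congrArg Subtype.val h)
  let XE : Multiplicative (Fin r → ℤ) →* Eˣ := monX xE
  let X : Multiplicative (Fin r → ℤ) →* Fˣ := (Units.map (j : E →* F)).comp XE
  have hwx : ∀ i, ∃ t : ℝ, v (x i) = ex t := fun i => exists_ex ((Valuation.ne_zero_iff v).2 (hx0 i))
  choose t ht using hwx
  set ω := wts t with hω
  have hXv : ∀ β : Fin r → ℤ, v (((XE (.ofAdd β) : Eˣ) : E) : K) = ex (ω β) := by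
    intro β
    have h1 : (((XE (.ofAdd β) : Eˣ) : E) : K) = ∏ i, x i ^ β i := by
      change ((((monX xE) (.ofAdd β) : Eˣ) : E) : K) = _
      rw [monX_val]
      push_cast
      rfl
    rw [h1, map_prod]
    apply NNReal.coe_injective
    change _ = Real.exp (-(∑ i, (β i : ℝ) * t i))
    rw [← Finset.sum_neg_distrib, Real.exp_sum]
    push_cast
    refine Finset.prod_congr rfl fun i _ => ?_
    rw [map_zpow₀, ht, NNReal.coe_zpow]
    change Real.exp (-(t i)) ^ β i = _
    rw [← Real.rpow_intCast, ← Real.exp_mul]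
    congr 1
    ring
  have hωinj : Function.Injective ω := by
    rw [injective_iff_map_eq_zero]
    intro β hβ
    apply hind β
    have h1 := hXv β
    rw [hβ, ex_zero] at h1
    rw [← h1]
    have h2 : (((XE (.ofAdd β) : Eˣ) : E) : K) = ∏ i, x i ^ β i := by
      change ((((monX xE) (.ofAdd β) : Eˣ) : E) : K) = _
      rw [monX_val]
      push_cast
      rfl
    rw [h2, map_prod]
    exact Finset.prod_congr rfl fun i _ => (map_zpow₀ v _ _).symm
  have hX : ∀ β, ‖(X (.ofAdd β) : F)‖ = Real.exp (-(ω β)) := by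
    intro β
    have h1 : (X (.ofAdd β) : F) = j (XE (.ofAdd β) : Eˣ) := rfl
    rw [h1, hjn, hXv]
    rfl
  -- the monomials in K
  let XK' : Multiplicative (Fin r → ℤ) →* Kˣ := (Units.map (algebraMap E K : E →* K)).comp XE
  have hXK : ∀ β, v (XK' (.ofAdd β) : K) = ex (ω β) := hXv
  have hevE : ∀ g : AddMonoidAlgebra k (Fin r → ℤ), ∃ e : E, (e : K) = evL k XK' g ∧
      j e = evL k X g := by
    intro g
    induction g using AddMonoidAlgebra.induction_linear with
    | zero => exact ⟨0, by simp, by simp⟩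
    | add f g hf hg =>
      obtain ⟨e1, h1, h2⟩ := hf
      obtain ⟨e2, h3, h4⟩ := hg
      refine ⟨e1 + e2, ?_, ?_⟩
      · rw [map_add, ← h1, ← h3]
        rfl
      · rw [map_add, map_add, h2, h4]
    | single β c =>
      refine ⟨algebraMap k E c * (XE (.ofAdd β) : Eˣ), ?_, ?_⟩
      · rw [evL_single]
        rfl
      · rw [evL_single, map_mul]
        rfl
  have hE0 : ∀ e : E, (e : K) ∈ E0 k XK' := by
    intro e
    have h1 : E ≤ E0 k XK' := by
      rw [hE, IntermediateField.adjoin_le_iff]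
      rintro _ ⟨i, rfl⟩
      refine IntermediateField.subset_adjoin _ _ ⟨.ofAdd (Pi.single i 1), ?_⟩
      change ((((monX xE) (.ofAdd (Pi.single i 1)) : Eˣ) : E) : K) = _
      rw [monX_val]
      push_cast
      rw [Finset.prod_eq_single i]
      · rw [Pi.single_eq_same, zpow_one]
        rfl
      · intro l _ hl
        rw [Pi.single_eq_of_ne hl, zpow_zero]
        rfl
      · intro h9
        exact absurd (Finset.mem_univ _) h9
    exact h1 e.2
  have hdens : ∀ (z : F) (ε : ℝ), 0 < ε → ∃ g : AddMonoidAlgebra k (Fin r → ℤ),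
      ‖z - evL k X g‖ < ε := by
    intro z ε hε
    obtain ⟨e, he⟩ := hF z ε hε
    obtain ⟨g, hg⟩ := laurent_dense hk hωinj hXK (hE0 e) (ε := ⟨ε, hε.le⟩) hε
    obtain ⟨e', h1, h2⟩ := hevE g
    refine ⟨g, ?_⟩
    have h3 : z - evL k X g = (z - j e) + j (e - e') := by
      rw [map_sub, h2]
      ring
    rw [h3]
    refine lt_of_le_of_lt (IsUltrametricDist.norm_add_le_max _ _) (max_lt he ?_)
    rw [hjn]
    have h4 : ((e - e' : E) : K) = (e : K) - evL k XK' g := by
      rw [← h1]
      rfl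
    rw [h4]
    exact hg
  have himm : ∀ a : L, a ≠ 0 → ∃ (c : k) (β : Fin r → ℤ),
      ‖a - algebraMap F L (algebraMap k F c * (X (.ofAdd β) : F))‖ < ‖a‖ := by
    intro a ha
    obtain ⟨b, hb⟩ := hL a ‖a‖ (norm_pos_iff.2 ha)
    have hbn : ‖ι b‖ = ‖a‖ := by
      have h1 : ι b = a - (a - ι b) := by ring
      have h2 : ‖a - ι b‖ < ‖a‖ := hb
      have h3 : ‖ι b‖ ≤ ‖a‖ := by
        rw [h1, sub_eq_add_neg]
        refine (IsUltrametricDist.norm_add_le_max _ _).trans ?_
        rw [norm_neg]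
        exact max_le le_rfl h2.le
      refine le_antisymm h3 ?_
      by_contra h4
      push Not at h4
      have h5 : ‖a‖ ≤ max ‖a - ι b‖ ‖ι b‖ := by
        conv_lhs => rw [show a = (a - ι b) + ι b by ring]
        exact IsUltrametricDist.norm_add_le_max _ _
      exact absurd h5 (not_le.2 (max_lt h2 h4))
    have hb0 : b ≠ 0 := by
      rintro rfl
      rw [map_zero, norm_zero] at hbn
      exact ha (norm_eq_zero.1 hbn.symm)
    obtain ⟨m, hm⟩ := hgr b hb0
    set M : K := (((XE (.ofAdd m) : Eˣ) : E) : K) with hM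
    have hM0 : M ≠ 0 := by
      intro h
      exact (XE (.ofAdd m)).ne_zero (Subtype.ext h)
    have hvM : v M = v b := by
      rw [hm, hM]
      change v ((((monX xE) (.ofAdd m) : Eˣ) : E) : K) = _
      rw [monX_val]
      push_cast
      rw [map_prod]
      exact Finset.prod_congr rfl fun i _ => map_zpow₀ v _ _
    obtain ⟨c, hc⟩ := hres (b / M) (by
      rw [map_div₀, hvM]
      exact (div_self ((Valuation.ne_zero_iff v).2 hb0)).le)
    refine ⟨c, m, ?_⟩
    have h1 : algebraMap F L (algebraMap k F c * (X (.ofAdd m) : F)) =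
        ι (algebraMap k K c * M) := by
      have h2 : algebraMap k F c * (X (.ofAdd m) : F) =
          j (algebraMap k E c * (XE (.ofAdd m) : Eˣ)) := by
        rw [map_mul]
        rfl
      rw [h2, hj]
      rfl
    rw [h1]
    have h2 : a - ι (algebraMap k K c * M) = (a - ι b) + ι (b - algebraMap k K c * M) := by
      rw [map_sub]
      ring
    rw [h2]
    refine lt_of_le_of_lt (IsUltrametricDist.norm_add_le_max _ _) (max_lt hb ?_)
    rw [hι, ← hbn, hι]
    have h3 : b - algebraMap k K c * M = (b / M - algebraMap k K c) * M := by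
      field_simp
    rw [h3, map_mul, hvM, NNReal.coe_lt_coe]
    exact mul_lt_of_lt_one_left (zero_lt_iff.2 ((Valuation.ne_zero_iff v).2 hb0)) hc
  have hfr := t_stab t_count t_dim t_det hkF ω hωinj X hX hdens himm fun a => t_norm a
  obtain ⟨w, hw⟩ : ∃ w : F, algebraMap F L w = ι a := by
    have h1 := (finrank_eq_one_iff_of_nonzero' (1 : L) one_ne_zero).1 hfr (ι a)
    obtain ⟨w, hw⟩ := h1
    exact ⟨w, by rw [← hw, Algebra.smul_def, mul_one]⟩
  obtain ⟨e, he⟩ := hF w ε hε
  refine ⟨e, ?_⟩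
  have h1 : ‖ι (a - algebraMap E K e)‖ = ‖w - j e‖ := by
    rw [map_sub, ← hw, ← hj, ← map_sub, norm_algebraMap']
  rw [hι] at h1
  rw [← NNReal.coe_lt_coe, h1]
  exact he

end Pool.Agent.H893.AB
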