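import Pool.Agent.H893.AB.Gen
import Pool.Agent.H893.EC.Main
import Pool.Agent.H893.EC.Ring
import Pool.Agent.H893.DD.Glue2

/-!
# Valuations of deficiency at most one: the class, base rings and simultaneous uniformization
-/

set_option autoImplicit false
set_option linter.unusedVariables false
set_option linter.unusedSectionVars false

universe u

namespace Pool.Agent.H893.AB

open IsLocalRing Pool.Agent.W418.LU2 Pool.Agent.TH188.QS
open Pool.Agent.H176.DT (Mod SU PP St p_noe)
open Pool.Agent.R187.CT (Good rg fr_mono fr_closure noe_rg gp_move gp_of_su)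
open Pool.Agent.H893.DD
open scoped NNReal

/-- Valuations of deficiency at most one are good if the residue field is separable. -/
theorem good_def {k K : Type u} [Field k] (p : ℕ) [Fact p.Prime] [CharP k p] [Field K]
    [Algebra k K] [Algebra.EssFiniteType k K] (v : Valuation K ℝ≥0)
    (hk : ∀ c : k, c ≠ 0 → v (algebraMap k K c) = 1)
    (hess : letI := Pool.Agent.H893.DD.rAlg v hk;
      Algebra.EssFiniteType k (Pool.Agent.H893.DD.Rf v))
    (hsg : letI := Pool.Agent.H893.DD.rAlg v hk;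
      ∃ s : Finset (Pool.Agent.H893.DD.Rf v),
        IsTranscendenceBasis k ((↑) : s → Pool.Agent.H893.DD.Rf v) ∧
        Algebra.IsSeparable (IntermediateField.adjoin k (s : Set (Pool.Agent.H893.DD.Rf v)))
          (Pool.Agent.H893.DD.Rf v))
    (r : ℕ) (hr : 0 < r)
    (htr : letI := rAlg v hk; Algebra.trdeg k K = Algebra.trdeg k (Rf v) + (r : Cardinal) ∨
      (Algebra.trdeg k K = Algebra.trdeg k (Rf v) + ((r + 1 : ℕ) : Cardinal) ∧
        (r = 1 → Infinite (Rf v))))
    (x : Fin r → K) (hx0 : ∀ i, x i ≠ 0)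
    (hind : ∀ m : Fin r → ℤ, ∏ i, v (x i) ^ m i = 1 → m = 0)
    (hrr : ∀ z : K, z ≠ 0 → ∃ n : ℕ, n ≠ 0 ∧ ∃ m : Fin r → ℤ, v z ^ n = ∏ i, v (x i) ^ m i) :
    Good (algebraMap k K) v.valuationSubring := by
  refine Pool.Agent.R187.CT.good_given (Pool.Agent.H893.EC.hjF k) _ _ ?_ ?_
  · obtain ⟨S, hS, hSV, hSM⟩ := Pool.Agent.H893.DD.exists_mod (k := k) v hk
    refine ⟨S, hS, fun z => ?_⟩
    exact (hSM (rg (algebraMap k K) S) (fun c => Subring.subset_closure
      (Or.inl ⟨c, rfl⟩)) (fun s hs => Subring.subset_closure (Or.inr hs)) (by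
        rw [Subring.closure_le]
        rintro z (⟨c, rfl⟩ | hz)
        · exact Pool.Agent.H893.DD.kV_mem v hk c
        · exact hSV z hz)).2 z
  · intro T hT hTV hTK
    exact lu_all_def p v hk hess hsg r hr htr x hx0 hind hrr T hT
      (rg (algebraMap k K) T) (Pool.Agent.H893.EC.range_union _ T) ⟨hTV, hTK⟩

/-- Valuations of deficiency at most one are good if MacLane's condition holds for the residue field. -/
theorem good_mcl_def {k K : Type u} [Field k] (p : ℕ) [Fact p.Prime] [CharP k p] [Field K]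
    [Algebra k K] [Algebra.EssFiniteType k K] (v : Valuation K ℝ≥0)
    (hk : ∀ c : k, c ≠ 0 → v (algebraMap k K c) = 1)
    (hess : letI := Pool.Agent.H893.DD.rAlg v hk;
      Algebra.EssFiniteType k (Pool.Agent.H893.DD.Rf v))
    (hm : Pool.Agent.H893.EC.McLV p (algebraMap k K) v.valuationSubring)
    (r : ℕ) (hr : 0 < r)
    (htr : letI := rAlg v hk; Algebra.trdeg k K = Algebra.trdeg k (Rf v) + (r : Cardinal) ∨
      (Algebra.trdeg k K = Algebra.trdeg k (Rf v) + ((r + 1 : ℕ) : Cardinal) ∧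
        (r = 1 → Infinite (Rf v))))
    (x : Fin r → K) (hx0 : ∀ i, x i ≠ 0)
    (hind : ∀ m : Fin r → ℤ, ∏ i, v (x i) ^ m i = 1 → m = 0)
    (hrr : ∀ z : K, z ≠ 0 → ∃ n : ℕ, n ≠ 0 ∧ ∃ m : Fin r → ℤ, v z ^ n = ∏ i, v (x i) ^ m i) :
    Good (algebraMap k K) v.valuationSubring := by
  refine good_def p v hk hess ?_ r hr htr x hx0 hind hrr
  let _ := Pool.Agent.H893.DD.rAlg v hk
  have : Algebra.EssFiniteType k (Pool.Agent.H893.DD.Rf v) := hess
  have h1 : Pool.Agent.H893.EC.McL p (algebraMap k (Pool.Agent.H893.DD.Rf v)) :=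
    hm.res (Pool.Agent.H893.DD.kV_mem v hk)
  exact h1.sepGen

/-- Valuations of deficiency at most one are good over every ring `R` whose fractions generate the ground
field. -/
theorem good_def_ring {R k K : Type u} [CommRing R] [Field k] (p : ℕ) [Fact p.Prime] [CharP k p]
    (σ : R →+* k) (hσ : ∀ c : k, ∃ a b : R, σ b ≠ 0 ∧ c = σ a / σ b) [Field K]
    [Algebra k K] [Algebra.EssFiniteType k K] (v : Valuation K ℝ≥0)
    (hk : ∀ c : k, c ≠ 0 → v (algebraMap k K c) = 1)
    (hess : letI := rAlg v hk; Algebra.EssFiniteType k (Rf v))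
    (hsg : letI := rAlg v hk;
      ∃ s : Finset (Rf v), IsTranscendenceBasis k ((↑) : s → Rf v) ∧
        Algebra.IsSeparable (IntermediateField.adjoin k (s : Set (Rf v))) (Rf v))
    (r : ℕ) (hr : 0 < r)
    (htr : letI := rAlg v hk; Algebra.trdeg k K = Algebra.trdeg k (Rf v) + (r : Cardinal) ∨
      (Algebra.trdeg k K = Algebra.trdeg k (Rf v) + ((r + 1 : ℕ) : Cardinal) ∧
        (r = 1 → Infinite (Rf v))))
    (x : Fin r → K) (hx0 : ∀ i, x i ≠ 0)
    (hind : ∀ m : Fin r → ℤ, ∏ i, v (x i) ^ m i = 1 → m = 0)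
    (hrr : ∀ z : K, z ≠ 0 → ∃ n : ℕ, n ≠ 0 ∧ ∃ m : Fin r → ℤ, v z ^ n = ∏ i, v (x i) ^ m i) :
    Good ((algebraMap k K).comp σ) v.valuationSubring := by
  obtain ⟨U, hU, hM, hSU⟩ := su_all_def p v hk hess hsg r hr htr x hx0 hind hrr
  have hR : ((algebraMap k K).range : Set K) = Set.range (algebraMap k K) := rfl
  rw [← hR] at hM hSU
  have hNk : IsNoetherianRing (algebraMap k K).range :=
    isNoetherianRing_of_surjective k _ (algebraMap k K).rangeRestrict
      (algebraMap k K).rangeRestrict_surjective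
  set ρ := (algebraMap k K).comp σ with hρ
  set V := v.valuationSubring with hV
  -- the ground field consists of fractions
  have hkA : ∀ (T : Set K) (c : k), algebraMap k K c ∈ lo V.toSubring (rg ρ T) := by
    intro T c
    obtain ⟨a, b, hb, rfl⟩ := hσ c
    have hb' : ρ b ≠ 0 := (map_ne_zero (algebraMap k K)).2 hb
    refine ⟨ρ a, Subring.subset_closure (Or.inl ⟨a, rfl⟩), ρ b,
      Subring.subset_closure (Or.inl ⟨b, rfl⟩), hb', ?_, ?_⟩
    · change v (ρ b)⁻¹ ≤ 1
      rw [map_inv₀, hρ, RingHom.comp_apply, hk _ hb, inv_one]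
    · rw [map_div₀, div_eq_mul_inv]
      rfl
  -- finite generation
  refine ⟨U, hU, fun T hT hTV hTU => ?_⟩
  set A := rg ρ T with hA
  set A' := Subring.closure (((algebraMap k K).range : Set K) ∪ T) with hA'
  have hle : A ≤ A' := by
    rw [hA, Subring.closure_le]
    rintro z (⟨a, rfl⟩ | hz)
    · exact Subring.subset_closure (Or.inl ⟨σ a, rfl⟩)
    · exact Subring.subset_closure (Or.inr hz)
  have hle' : A' ≤ lo V.toSubring A := by
    rw [hA', Subring.closure_le]
    rintro z (⟨c, rfl⟩ | hz)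
    · exact hkA T c
    · exact le_lo _ _ (Subring.subset_closure (Or.inr hz))
  have hloV : lo V.toSubring A ≤ V.toSubring := lo_le hTV
  have hfr : ∀ z, Fr A' z := by
    intro z
    refine fr_closure (algebraMap k K) (A := A') (S := U)
      (fun a ha => Subring.subset_closure (Or.inl ha)) (fun u hu => fr_mono hle (hTU u hu)) ?_
    exact hM.2 z
  have hM' : Mod V A' := ⟨hle'.trans hloV, hfr⟩
  have hSU' : SU V A' := (su_model V (algebraMap k K).range U hU hM hSU A' T hT rfl hM').1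
  exact gp_of_su (Pdown.SU_of hle hle' hSU')

/-- Simultaneous log uniformization of finitely many different valuations. -/
theorem sim_def {k K : Type u} [Field k] (p : ℕ) [Fact p.Prime] [CharP k p]
    [Field K] [Algebra k K] [Algebra.EssFiniteType k K] {m : ℕ} (v : Fin m → Valuation K ℝ≥0)
    (hne : ∀ i j, i ≠ j → (v i).valuationSubring ≠ (v j).valuationSubring)
    (hk : ∀ i, ∀ c : k, c ≠ 0 → v i (algebraMap k K c) = 1)
    (hess : ∀ i, letI := rAlg (v i) (hk i); Algebra.EssFiniteType k (Rf (v i)))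
    (hsg : ∀ i, letI := rAlg (v i) (hk i);
      ∃ s : Finset (Rf (v i)), IsTranscendenceBasis k ((↑) : s → Rf (v i)) ∧
      Algebra.IsSeparable (IntermediateField.adjoin k (s : Set (Rf (v i)))) (Rf (v i)))
    (r : Fin m → ℕ) (hr : ∀ i, 0 < r i)
    (htr : ∀ i, letI := rAlg (v i) (hk i);
      Algebra.trdeg k K = Algebra.trdeg k (Rf (v i)) + (r i : Cardinal) ∨
      (Algebra.trdeg k K = Algebra.trdeg k (Rf (v i)) + ((r i + 1 : ℕ) : Cardinal) ∧
        (r i = 1 → Infinite (Rf (v i)))))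
    (x : ∀ i, Fin (r i) → K) (hx0 : ∀ i j, x i j ≠ 0)
    (hind : ∀ i, ∀ n : Fin (r i) → ℤ, ∏ j, v i (x i j) ^ n j = 1 → n = 0)
    (hrr : ∀ i, ∀ z : K, z ≠ 0 → ∃ n : ℕ, n ≠ 0 ∧
      ∃ m : Fin (r i) → ℤ, v i z ^ n = ∏ j, v i (x i j) ^ m j)
    (G : Set K) (hG : G.Finite) (A : Subring K)
    (hA : A = Subring.closure (Set.range (algebraMap k K) ∪ G))
    (hAM : ∀ i, Mod (v i).valuationSubring A) (D I₀ : Ideal A) (hD : D ≠ ⊥) (hI₀ : I₀ ≠ ⊥) :
    ∃ I₁ : Ideal A, I₁ ≠ ⊥ ∧ (∀ i, LogDesing (v i).valuationSubring A D (I₀ * I₁)) ∧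
      ∀ q : Ideal A, q.IsPrime → I₁ ≤ q → ∃ i, ∀ a : A, v i (a : K) < 1 → a ∈ q := by
  have hR : ((algebraMap k K).range : Set K) = Set.range (algebraMap k K) := rfl
  have hNk : IsNoetherianRing (algebraMap k K).range :=
    isNoetherianRing_of_surjective k _ (algebraMap k K).rangeRestrict
      (algebraMap k K).rangeRestrict_surjective
  have hN : IsNoetherianRing A := by
    rw [hA, ← hR]
    exact p_noe (algebraMap k K).range G hG
  have hSU : ∀ i, SU (v i).valuationSubring A := by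
    intro i
    obtain ⟨U, hU, hM, h1⟩ := su_all_def p (v i) (hk i) (hess i) (hsg i) (r i) (hr i) (htr i) (x i)
      (hx0 i) (hind i) (hrr i)
    rw [← hR] at hM h1
    exact (su_model (v i).valuationSubring (algebraMap k K).range U hU hM h1 A G hG
      (by rw [hA, ← hR]) (hAM i)).1
  have hnt : ∀ i, ∃ z, z ≠ 0 ∧ v i z ≠ 1 := by
    intro i
    have hr0 : 0 < r i := hr i
    refine ⟨x i ⟨0, hr0⟩, hx0 i _, fun h => ?_⟩
    have h2 := hind i (Pi.single ⟨0, hr0⟩ 1) (by
      rw [Finset.prod_eq_single ⟨0, hr0⟩]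
      · rw [Pi.single_eq_same, zpow_one, h]
      · intro j _ hj
        rw [Pi.single_eq_of_ne hj, zpow_zero]
      · intro h; exact absurd (Finset.mem_univ _) h)
    have h3 := congrFun h2 ⟨0, hr0⟩
    rw [Pi.single_eq_same] at h3
    exact one_ne_zero h3
  obtain ⟨I₁, h1, h2, h3⟩ := t_sim2 t_stage t_sep A (fun i => (v i).valuationSubring) hAM
    (fun i a b hb ha hai => arch a b hb ha hai) hSU
    (fun i j hij => by
      obtain ⟨z, hz1, hz2⟩ := exists_sep (v i) (v j) (hnt i) (hnt j) (hne i j hij)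
      refine ⟨z, val_lt_one_iff.2 hz1, ?_⟩
      by_contra h
      rw [not_lt] at h
      have h5 := ((v j).valuationSubring.valuation_le_one_iff z).1 h
      rw [mem_vs] at h5
      exact absurd hz2 (not_lt.2 h5)) D I₀ hD hI₀
  refine ⟨I₁, h1, h2, fun q hq hIq => ?_⟩
  obtain ⟨i, hi⟩ := h3 q hq hIq
  exact ⟨i, fun a ha => hi a (val_lt_one_iff.2 ha)⟩


end Pool.Agent.H893.AB
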