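import Pool.Agent.H893.AB.Res
import Pool.Agent.H893.DD.Glue

/-!
# Valuations of rank one and deficiency at most one
-/

set_option autoImplicit false
set_option linter.unusedVariables false
set_option linter.unusedSectionVars false

universe u

namespace Pool.Agent.H893.AB

open Pool.Agent.W418.LU2 IsLocalRing Polynomial Pool.Agent.H893.DD
open Pool.Agent.H176.DT (Mod SU PP St)
open scoped NNReal

/-- The ground field is infinite if the residue field is finite over it and infinite. -/
lemma infinite_of_res {k K : Type u} [Field k] [Field K] [Algebra k K] (v : Valuation K ℝ≥0)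
    (hk : ∀ c : k, c ≠ 0 → v (algebraMap k K c) = 1) (a : K) (m : k[X]) (hm : m.Monic)
    (ha : v a ≤ 1) (hma : v (aeval a m) < 1)
    (hres : ∀ x : K, v x ≤ 1 → ∃ q : k[X], v (x - aeval a q) < 1)
    (hinf : Infinite (Rf v)) : Infinite k := by
  classical
  by_contra hcon
  rw [not_infinite_iff_finite] at hcon
  have hkv : ∀ c : k, v (algebraMap k K c) ≤ 1 := fun c => kV_mem v hk c
  have hev : ∀ q : k[X], v (aeval a q) ≤ 1 := by
    intro q
    rw [aeval_eq_sum_range]
    refine v.map_sum_le fun i _ => ?_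
    rw [Algebra.smul_def, map_mul, map_pow]
    exact mul_le_one₀ (hkv _) zero_le (pow_le_one₀ zero_le ha)
  let Q : (Fin m.natDegree → k) → k[X] := fun c => ∑ i, C (c i) * X ^ (i : ℕ)
  let g : (Fin m.natDegree → k) → Rf v := fun c =>
    IsLocalRing.residue v.valuationSubring ⟨aeval a (Q c), hev _⟩
  have hg : Function.Surjective g := by
    intro y
    obtain ⟨z, rfl⟩ := IsLocalRing.residue_surjective y
    obtain ⟨q, hq⟩ := hres z z.2
    have hdeg : (q %ₘ m).natDegree < m.natDegree ∨ m.natDegree = 0 := by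
      by_cases h : m.natDegree = 0
      · exact Or.inr h
      · exact Or.inl (natDegree_modByMonic_lt q hm fun h1 => h (by rw [h1, natDegree_one]))
    have hQ : q %ₘ m = Q fun i => (q %ₘ m).coeff i := by
      have h1 : (q %ₘ m).degree < (m.natDegree : WithBot ℕ) := by
        rw [← degree_eq_natDegree hm.ne_zero]
        exact degree_modByMonic_lt q hm
      change _ = ∑ i : Fin m.natDegree, C ((q %ₘ m).coeff i) * X ^ (i : ℕ)
      rw [Fin.sum_univ_eq_sum_range (fun i => C ((q %ₘ m).coeff i) * X ^ i) m.natDegree]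
      have h4 : (q %ₘ m).natDegree < m.natDegree := by
        rcases hdeg with h2 | h2
        · exact h2
        · exfalso
          have h3 : m = 1 := eq_one_of_monic_natDegree_zero hm h2
          rw [h3, map_one, map_one] at hma
          exact lt_irrefl _ hma
      exact as_sum_range_C_mul_X_pow' _ h4
    refine ⟨fun i => (q %ₘ m).coeff i, ?_⟩
    change IsLocalRing.residue v.valuationSubring ⟨aeval a (Q _), _⟩ = _
    rw [← sub_eq_zero, ← map_sub, IsLocalRing.residue_eq_zero_iff,
      ValuationSubring.valuation_lt_one_iff, val_lt_one_iff]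
    change v (aeval a (Q fun i => (q %ₘ m).coeff i) - (z : K)) < 1
    rw [← hQ]
    have h5 : aeval a (q %ₘ m) - (z : K) = -((z : K) - aeval a q) -
        aeval a m * aeval a (q /ₘ m) := by
      have h6 := congrArg (aeval a) (modByMonic_add_div q m)
      rw [map_add, map_mul] at h6
      linear_combination h6
    rw [h5]
    refine lt_of_le_of_lt (v.map_sub _ _) (max_lt ?_ ?_)
    · rw [Valuation.map_neg]
      exact hq
    · rw [map_mul]
      exact lt_of_le_of_lt (mul_le_of_le_one_right zero_le (hev _)) hma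
  have hfin : Finite (Rf v) := Finite.of_surjective g hg
  exact not_finite_iff_infinite.2 hinf hfin

/-- The residue field is a finite separable extension of the ground field. -/
theorem su_gen_def {k K : Type u} [Field k] (p : ℕ) [Fact p.Prime] [CharP k p]
    [Field K] [Algebra k K] [Algebra.EssFiniteType k K] (v : Valuation K ℝ≥0)
    (hk : ∀ c : k, c ≠ 0 → v (algebraMap k K c) = 1) (a : K) (m : k[X]) (hm : m.Monic)
    (hirr : Irreducible m) (hsep : m.Separable) (ha : v a ≤ 1) (hma : v (aeval a m) < 1)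
    (hres : ∀ x : K, v x ≤ 1 → ∃ q : k[X], v (x - aeval a q) < 1)
    (r : ℕ) (hr : 0 < r) (htr : Algebra.trdeg k K = (r : Cardinal) ∨
      (Algebra.trdeg k K = ((r + 1 : ℕ) : Cardinal) ∧ (r = 1 → Infinite k)))
    (x : Fin r → K) (hx0 : ∀ i, x i ≠ 0)
    (hind : ∀ m : Fin r → ℤ, ∏ i, v (x i) ^ m i = 1 → m = 0)
    (hrr : ∀ z : K, z ≠ 0 → ∃ n : ℕ, n ≠ 0 ∧ ∃ m : Fin r → ℤ, v z ^ n = ∏ i, v (x i) ^ m i) :
    ∃ U : Set K, U.Finite ∧
      Mod v.valuationSubring (Subring.closure (Set.range (algebraMap k K) ∪ U)) ∧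
      SU v.valuationSubring (Subring.closure (Set.range (algebraMap k K) ∪ U)) := by
  classical
  obtain ⟨L, _, _, _, _, w, ζ, hζm, hζa, hwv, hgen, hdens⟩ :=
    t_ext v hk a m hm hirr hsep ha hma
  obtain ⟨e1, e2, e3, e4, e5, e6⟩ := t_Lk v w hk a ζ m hm hζm ha hres hζa hwv hgen hdens
    (IntermediateField.adjoin k {ζ}) rfl
  set k' := IntermediateField.adjoin k {ζ} with hk'
  have hchar : CharP k' p := charP_of_injective_algebraMap (algebraMap k k').injective p
  have hvk : ∀ c : k, v (algebraMap k K c) ≤ 1 := by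
    intro c
    by_cases h : c = 0
    · rw [h, map_zero, map_zero]
      exact zero_le_one
    · exact (hk c h).le
  -- the extension
  obtain ⟨U1, hU1, hM1, hSU1⟩ := su_def (k := k') p w (fun c hc => e2 c hc) e3 r hr
    (htr.imp (fun h => e5.trans h) fun h => ⟨e5.trans h.1, fun h1 => by
      have := h.2 h1
      exact Infinite.of_injective (algebraMap k k') (algebraMap k k').injective⟩)
    (fun i => algebraMap K L (x i)) (fun i => (_root_.map_ne_zero _).2 (hx0 i))
    (by
      intro m hm
      apply hind m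
      rw [← hm]
      refine Finset.prod_congr rfl fun i _ => ?_
      rw [hwv])
    (by
      intro z hz
      obtain ⟨b, hb, h1⟩ := e4 z hz
      obtain ⟨n, hn, m, h2⟩ := hrr b hb
      refine ⟨n, hn, m, ?_⟩
      rw [h1, h2]
      refine Finset.prod_congr rfl fun i _ => ?_
      rw [hwv])
  set V := w.valuationSubring with hV
  have hcomap : V.comap (algebraMap K L) = v.valuationSubring := by
    ext z
    rw [ValuationSubring.mem_comap, hV, mem_vs, mem_vs, hwv]
  have hwk : ∀ c : k, w (algebraMap k L c) ≤ 1 := by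
    intro c
    rw [IsScalarTower.algebraMap_apply k K L, hwv]
    exact hvk c
  have hwζ : w ζ ≤ 1 := by
    have h1 : ζ = (ζ - algebraMap K L a) + algebraMap K L a := by ring
    rw [h1]
    refine (w.map_add _ _).trans (max_le hζa.le ?_)
    rw [hwv]
    exact ha
  have hev : ∀ q : k[X], w (aeval ζ q) ≤ 1 := by
    intro q
    rw [aeval_eq_sum_range]
    refine w.map_sum_le fun i _ => ?_
    rw [Algebra.smul_def, map_mul, map_pow]
    exact mul_le_one₀ (hwk _) zero_le (pow_le_one₀ zero_le hwζ)
  -- the minimal polynomial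
  obtain ⟨h, h1, h2, h3, h4, h5⟩ := Pool.Agent.H176.DT.exists_min V ζ (m.map (algebraMap k K))
    (hm.map _) (fun i => by
      rw [coeff_map, hV, mem_vs, hwv]
      exact hvk _) (by rw [aeval_map_algebraMap, hζm]) (by
      rw [derivative_map, aeval_map_algebraMap, hV, val_eq_one_iff]
      obtain ⟨s, t, hst⟩ := hsep
      have h6 : aeval ζ t * aeval ζ (derivative m) = 1 := by
        have h7 := congrArg (aeval ζ) hst
        rw [map_add, map_mul, map_mul, hζm, mul_zero, zero_add, map_one] at h7
        exact h7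
      have h8 := congrArg w h6
      rw [map_mul, map_one] at h8
      refine le_antisymm (hev _) ?_
      rw [← h8]
      exact mul_le_of_le_one_left zero_le (hev _))
  obtain ⟨S0, hS0, hS0V, hS0M⟩ := Pool.Agent.H893.DD.exists_mod v hk
  set S : Set K := S0 ∪ {a} ∪ Set.range (fun i : Fin (h.natDegree + 1) => h.coeff i) with hS
  have hSfin : S.Finite := (hS0.union (Set.finite_singleton a)).union (Set.finite_range _)
  have hSV : ∀ s ∈ S, v s ≤ 1 := by
    rintro s ((hs | hs) | ⟨i, rfl⟩)
    · exact hS0V s hs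
    · rw [Set.mem_singleton_iff.1 hs]
      exact ha
    · have := h2 i
      rw [hV, mem_vs, hwv] at this
      exact this
  set A := Subring.closure (Set.range (algebraMap k K) ∪ S) with hA
  have hAV : A ≤ v.valuationSubring.toSubring := by
    rw [hA, Subring.closure_le]
    rintro z (⟨c, rfl⟩ | hz)
    · exact hvk c
    · exact hSV z hz
  have hkA : ∀ c : k, algebraMap k K c ∈ A := fun c => Subring.subset_closure (Or.inl ⟨c, rfl⟩)
  have hSA : ∀ s ∈ S, s ∈ A := fun s hs => Subring.subset_closure (Or.inr hs)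
  have hAM : Mod v.valuationSubring A :=
    hS0M A hkA (fun s hs => hSA s (Or.inl (Or.inl hs))) hAV
  have hnoe : IsNoetherianRing A := by
    have hR : ((algebraMap k K).range : Set K) = Set.range (algebraMap k K) := rfl
    rw [hA, ← hR]
    exact Pool.Agent.H176.DT.p_noe _ S hSfin
  have hEt : Et V ζ h A :=
    { BV := by rw [hcomap]; exact hAV
      monic := h1
      coeff := by
        intro i
        by_cases hi : i < h.natDegree + 1
        · exact hSA _ (Or.inr ⟨⟨i, hi⟩, rfl⟩)
        · rw [coeff_eq_zero_of_natDegree_lt (by omega)]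
          exact zero_mem _
      root := h3
      der := h4
      min := h5
      gen := hgen
      frac := hAM.2
      noe := hnoe }
  -- the model of the extension
  set Z := Az ζ A with hZ
  have hAZ : ∀ z ∈ A, algebraMap K L z ∈ Z := fun z hz =>
    Subring.subset_closure (Or.inl ⟨z, hz, rfl⟩)
  have hζZ : ζ ∈ Z := Subring.subset_closure (Or.inr rfl)
  have hk'Z : ∀ c : k', (c : L) ∈ Z := by
    intro c
    have h6 : (c : L) ∈ (Algebra.adjoin k {ζ} : Set L) := by
      rw [← e6]
      exact c.2
    rw [SetLike.mem_coe, Algebra.adjoin_singleton_eq_range_aeval] at h6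
    obtain ⟨q, hq⟩ := h6
    rw [← hq]
    change aeval ζ q ∈ Z
    rw [aeval_eq_sum_range]
    refine sum_mem fun i _ => ?_
    rw [Algebra.smul_def]
    refine mul_mem ?_ (pow_mem hζZ _)
    rw [IsScalarTower.algebraMap_apply k K L]
    exact hAZ _ (hkA _)
  have hζk' : ζ ∈ k' := IntermediateField.mem_adjoin_simple_self k ζ
  have hZV : Z ≤ V.toSubring := by
    rw [hZ, Subring.closure_le]
    rintro z (⟨z, hz, rfl⟩ | hz)
    · change w (algebraMap K L z) ≤ 1
      rw [hwv]
      exact hAV hz
    · rw [Set.mem_singleton_iff.1 hz]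
      exact hwζ
  have hZM : Mod V Z := by
    refine mod_of_clos hZV fun z => ?_
    obtain ⟨f, rfl⟩ := hgen z
    rw [aeval_eq_sum_range]
    refine sum_mem fun i _ => ?_
    rw [Algebra.smul_def]
    refine mul_mem ?_ (pow_mem (Subfield.subset_closure hζZ) _)
    obtain ⟨b, hb, c, hc, -, h6⟩ := hAM.2 (f.coeff i)
    rw [h6, map_mul, map_inv₀]
    exact mul_mem (Subfield.subset_closure (hAZ b hb)) (inv_mem (Subfield.subset_closure
      (hAZ c hc)))
  set B1 := Subring.closure (Set.range (algebraMap k' L) ∪ U1) with hB1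
  have hU1V : ∀ u ∈ U1, u ∈ V := fun u hu => hM1.1 (Subring.subset_closure (Or.inr hu))
  set S' : Set L := algebraMap K L '' S with hS'
  have hS'V : ∀ s ∈ S', s ∈ V := by
    rintro _ ⟨s, hs, rfl⟩
    rw [hV, mem_vs, hwv]
    exact hSV s hs
  have h6 := (Pool.Agent.H176.DT.p_move V B1 hM1 S' (hSfin.image _) hS'V).1 hSU1
  have h7 : Subring.closure ((B1 : Set L) ∪ S') = Subring.closure ((Z : Set L) ∪ U1) := by
    apply le_antisymm
    · rw [Subring.closure_le]
      rintro z (hz | ⟨s, hs, rfl⟩)
      · refine (?_ : B1 ≤ _) hz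
        rw [hB1, Subring.closure_le]
        rintro z (⟨c, rfl⟩ | hz)
        · exact Subring.subset_closure (Or.inl (hk'Z c))
        · exact Subring.subset_closure (Or.inr hz)
      · exact Subring.subset_closure (Or.inl (hAZ s (hSA s hs)))
    · rw [Subring.closure_le]
      rintro z (hz | hz)
      · refine (?_ : Z ≤ _) hz
        rw [hZ, Subring.closure_le]
        rintro z (⟨z, hz, rfl⟩ | hz)
        · have h8 : A ≤ (Subring.closure ((B1 : Set L) ∪ S')).comap (algebraMap K L) := by
            rw [hA, Subring.closure_le]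
            rintro z (⟨c, rfl⟩ | hz)
            · rw [SetLike.mem_coe, Subring.mem_comap, ← IsScalarTower.algebraMap_apply k K L]
              refine Subring.subset_closure (Or.inl (Subring.subset_closure (Or.inl ?_)))
              exact ⟨algebraMap k k' c, rfl⟩
            · exact Subring.subset_closure (Or.inr ⟨z, hz, rfl⟩)
          exact h8 hz
        · rw [Set.mem_singleton_iff.1 hz]
          exact Subring.subset_closure (Or.inl (Subring.subset_closure (Or.inl ⟨⟨ζ, hζk'⟩, rfl⟩)))
      · exact Subring.subset_closure (Or.inl (Subring.subset_closure (Or.inr hz)))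
  rw [h7] at h6
  have hSUZ : SU V Z := (Pool.Agent.H176.DT.p_move V Z hZM U1 hU1 hU1V).2 h6
  -- the descent
  have hnt : ∃ a : K, algebraMap K L a ∈ V ∧ algebraMap K L a⁻¹ ∉ V := by
    have hi : 0 < r := hr
    set y := x ⟨0, hi⟩ with hy
    have hy0 : y ≠ 0 := hx0 _
    have hvy : v y ≠ 1 := by
      intro h8
      have h9 := hind (Pi.single ⟨0, hi⟩ 1) (by
        rw [Finset.prod_eq_single (⟨0, hi⟩ : Fin r)]
        · rw [Pi.single_eq_same, zpow_one]
          exact h8
        · intro j _ hj
          rw [Pi.single_eq_of_ne hj, zpow_zero]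
        · intro h9
          exact absurd (Finset.mem_univ _) h9)
      have h10 := congrFun h9 ⟨0, hi⟩
      rw [Pi.single_eq_same] at h10
      exact one_ne_zero h10
    rcases lt_or_gt_of_ne hvy with h8 | h8
    · refine ⟨y, ?_, ?_⟩
      · rw [hV, mem_vs, hwv]
        exact h8.le
      · rw [hV, mem_vs, hwv, map_inv₀, not_le]
        exact (one_lt_inv₀ (zero_lt_iff.2 ((Valuation.ne_zero_iff _).2 hy0))).2 h8
    · refine ⟨y⁻¹, ?_, ?_⟩
      · rw [hV, mem_vs, hwv, map_inv₀]
        exact inv_le_one_of_one_le₀ h8.le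
      · rw [hV, mem_vs, hwv, inv_inv, not_le]
        exact h8
  have hfin := desc_su (V := V) (ζ := ζ) (t_coord t_colon (t_red t_alg1) t_ord) t_pos t_cmp h A
    hEt ⟨a, hSA a (Or.inl (Or.inr rfl)), by rw [hV, val_lt_one_iff]; exact hζa⟩
    arch hnt x hx0 (by
      intro z hz
      obtain ⟨b, hb, h8⟩ := e4 z hz
      obtain ⟨n, hn, m, h9⟩ := hrr b hb
      refine ⟨n, Nat.pos_of_ne_zero hn, m, ?_⟩
      rw [← map_pow, hV, val_eq_iff, map_pow, h8, h9, mo, hwv, map_prod]
      refine Finset.prod_congr rfl fun i _ => ?_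
      rw [map_zpow₀]) hSUZ
  rw [hcomap] at hfin
  exact ⟨S, hSfin, hAM, hfin⟩

/-- Strong uniformization if the residue field is finitely and separably generated. -/
theorem su_all_def {k K : Type u} [Field k] (p : ℕ) [Fact p.Prime] [CharP k p]
    [Field K] [Algebra k K] [Algebra.EssFiniteType k K] (v : Valuation K ℝ≥0)
    (hk : ∀ c : k, c ≠ 0 → v (algebraMap k K c) = 1)
    (hess : letI := rAlg v hk; Algebra.EssFiniteType k (Rf v))
    (hsg : letI := rAlg v hk; ∃ s : Finset (Rf v), IsTranscendenceBasis k ((↑) : s → Rf v) ∧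
      Algebra.IsSeparable (IntermediateField.adjoin k (s : Set (Rf v))) (Rf v))
    (r : ℕ) (hr : 0 < r)
    (htr : letI := rAlg v hk; Algebra.trdeg k K = Algebra.trdeg k (Rf v) + (r : Cardinal) ∨
      (Algebra.trdeg k K = Algebra.trdeg k (Rf v) + ((r + 1 : ℕ) : Cardinal) ∧
        (r = 1 → Infinite (Rf v))))
    (x : Fin r → K) (hx0 : ∀ i, x i ≠ 0)
    (hind : ∀ m : Fin r → ℤ, ∏ i, v (x i) ^ m i = 1 → m = 0)
    (hrr : ∀ z : K, z ≠ 0 → ∃ n : ℕ, n ≠ 0 ∧ ∃ m : Fin r → ℤ, v z ^ n = ∏ i, v (x i) ^ m i) :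
    ∃ U : Set K, U.Finite ∧
      Mod v.valuationSubring (Subring.closure (Set.range (algebraMap k K) ∪ U)) ∧
      SU v.valuationSubring (Subring.closure (Set.range (algebraMap k K) ∪ U)) := by
  obtain ⟨S, F0, a, m, hF0, hF1, ha, hm, hirr, hsep, hma, hres, htd⟩ := rdata v hk hess hsg
  have hchar : CharP F0 p := charP_of_injective_algebraMap (algebraMap k F0).injective p
  have hE : Algebra.EssFiniteType F0 K := Algebra.EssFiniteType.of_comp k F0 K
  have htr1 : ∀ n : ℕ, (letI := rAlg v hk; Algebra.trdeg k K = Algebra.trdeg k (Rf v) +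
      (n : Cardinal)) → Algebra.trdeg F0 K = (n : Cardinal) := by
    intro n hn
    have h1 := _root_.trdeg_add_eq k F0 (A := K)
    rw [htd, hn] at h1
    have h2 : Algebra.trdeg k K < Cardinal.aleph0 := trdeg_lt_aleph0 k K
    rw [hn] at h2
    exact Cardinal.eq_of_add_eq_add_left h1 (lt_of_le_of_lt (self_le_add_right _ _) h2)
  have htr2 : Algebra.trdeg F0 K = (r : Cardinal) ∨
      (Algebra.trdeg F0 K = ((r + 1 : ℕ) : Cardinal) ∧ (r = 1 → Infinite F0)) := by
    refine htr.imp (fun h => htr1 r h) fun h => ⟨htr1 (r + 1) h.1, fun h1 => ?_⟩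
    exact infinite_of_res v hF1 a m hm ha hma hres (h.2 h1)
  obtain ⟨U, hU, hM, hSU⟩ := su_gen_def p v hF1 a m hm hirr hsep ha hma hres r hr htr2 x hx0 hind hrr
  have h1 : Set.range (algebraMap F0 K) = (F0 : Set K) := by
    ext z
    constructor
    · rintro ⟨c, rfl⟩
      exact c.2
    · intro hz
      exact ⟨⟨z, hz⟩, rfl⟩
  rw [h1] at hM hSU
  exact t_down v S F0 hF0 hF1 U hU hM hSU

/-- Log uniformization if the residue field is finitely and separably generated. -/
theorem lu_all_def {k K : Type u} [Field k] (p : ℕ) [Fact p.Prime] [CharP k p]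
    [Field K] [Algebra k K] [Algebra.EssFiniteType k K] (v : Valuation K ℝ≥0)
    (hk : ∀ c : k, c ≠ 0 → v (algebraMap k K c) = 1)
    (hess : letI := rAlg v hk; Algebra.EssFiniteType k (Rf v))
    (hsg : letI := rAlg v hk; ∃ s : Finset (Rf v), IsTranscendenceBasis k ((↑) : s → Rf v) ∧
      Algebra.IsSeparable (IntermediateField.adjoin k (s : Set (Rf v))) (Rf v))
    (r : ℕ) (hr : 0 < r)
    (htr : letI := rAlg v hk; Algebra.trdeg k K = Algebra.trdeg k (Rf v) + (r : Cardinal) ∨
      (Algebra.trdeg k K = Algebra.trdeg k (Rf v) + ((r + 1 : ℕ) : Cardinal) ∧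
        (r = 1 → Infinite (Rf v))))
    (x : Fin r → K) (hx0 : ∀ i, x i ≠ 0)
    (hind : ∀ m : Fin r → ℤ, ∏ i, v (x i) ^ m i = 1 → m = 0)
    (hrr : ∀ z : K, z ≠ 0 → ∃ n : ℕ, n ≠ 0 ∧ ∃ m : Fin r → ℤ, v z ^ n = ∏ i, v (x i) ^ m i)
    (G : Set K) (hG : G.Finite) (A : Subring K)
    (hA : A = Subring.closure (Set.range (algebraMap k K) ∪ G))
    (hAM : Mod v.valuationSubring A) : LogUnif v.valuationSubring A := by
  obtain ⟨U, hU, hM, hSU⟩ := su_all_def p v hk hess hsg r hr htr x hx0 hind hrr
  have hR : ((algebraMap k K).range : Set K) = Set.range (algebraMap k K) := rfl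
  rw [← hR] at hM hSU hA
  exact fin_of_su v.valuationSubring (algebraMap k K).range U hU hM hSU A G hG hA hAM


end Pool.Agent.H893.AB
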