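import Pool.Agent.H893.AB.P_fg
import Pool.Agent.H893.DD.Asm3
import Pool.Graph.R_seed8.H176.DT.H8
import Pool.Graph.R_seed8.H176.DT.C13

/-!
# Towers of monomial steps
-/

set_option autoImplicit false
set_option linter.unusedVariables false
set_option linter.unusedSectionVars false

universe u

namespace Pool.Agent.H893.AB

open Polynomial Pool.Agent.W418.LU2 Pool.Agent.H893.DD
open Pool.Agent.H176.DT (Mod SU PP St Inv KP Domi Exn)
open scoped NNReal

/-- A sum of nonzero elements with pairwise different values has the largest value. -/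
theorem sum_val' {K : Type u} [Field K] (v : Valuation K ℝ≥0) {ι : Type*} (s : Finset ι)
    (hs : s.Nonempty) (f : ι → K) (h0 : ∀ i ∈ s, f i ≠ 0)
    (hinj : ∀ i ∈ s, ∀ j ∈ s, v (f i) = v (f j) → i = j) :
    (∀ i ∈ s, v (f i) ≤ v (∑ j ∈ s, f j)) ∧ ∑ j ∈ s, f j ≠ 0 := by
  classical
  obtain ⟨i, hi, hmax⟩ := s.exists_max_image (fun j => v (f j)) hs
  have h1 : v (∑ j ∈ s, f j) = v (f i) := by
    rw [← Finset.add_sum_erase s f hi]
    apply Valuation.map_add_eq_of_lt_left
    apply Valuation.map_sum_lt v ((Valuation.ne_zero_iff v).2 (h0 i hi))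
    intro j hj
    rw [Finset.mem_erase] at hj
    refine lt_of_le_of_ne (hmax j hj.2) fun h => hj.1 (hinj j hj.2 i hi h)
  refine ⟨fun j hj => h1 ▸ hmax j hj, ?_⟩
  rw [← Valuation.ne_zero_iff v, h1]
  exact (Valuation.ne_zero_iff v).2 (h0 i hi)

section step

variable {K : Type u} [Field K] (v : Valuation K ℝ≥0) (L : Subfield K) (t : K)

/-- The value of a polynomial in `t`, if the value of `t` is not torsion modulo the values of
`L`. -/
lemma poly_dom (ht : t ≠ 0) (hval : ∀ (c c' : K) (j : ℕ), c ∈ L → c' ∈ L → c ≠ 0 → c' ≠ 0 →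
    j ≠ 0 → v c ≠ v c' * v t ^ j) (f : L[X]) (hf : f ≠ 0) :
    aeval t f ≠ 0 ∧ ∀ j, v (((f.coeff j : L) : K) * t ^ j) ≤ v (aeval t f) := by
  classical
  have h1 : aeval t f = ∑ j ∈ f.support, ((f.coeff j : L) : K) * t ^ j := by
    rw [Polynomial.aeval_def, Polynomial.eval₂_eq_sum, Polynomial.sum]
    rfl
  have hc0 : ∀ j ∈ f.support, ((f.coeff j : L) : K) ≠ 0 := by
    intro j hj h
    exact Polynomial.mem_support_iff.1 hj (Subtype.ext h)
  have hvt : v t ≠ 0 := (Valuation.ne_zero_iff v).2 ht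
  have key : ∀ i j : ℕ, i ∈ f.support → j ∈ f.support → i < j →
      v (((f.coeff i : L) : K) * t ^ i) = v (((f.coeff j : L) : K) * t ^ j) → False := by
    intro i j hi hj hij h
    rw [map_mul, map_mul, map_pow, map_pow] at h
    refine hval _ _ (j - i) (f.coeff i).2 (f.coeff j).2 (hc0 i hi) (hc0 j hj) (by omega) ?_
    have e : v t ^ j = v t ^ (j - i) * v t ^ i := by
      rw [← pow_add]
      congr 1
      omega
    rw [e, ← mul_assoc] at h
    exact mul_right_cancel₀ (pow_ne_zero _ hvt) h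
  obtain ⟨h2, h3⟩ := sum_val' v f.support (Polynomial.support_nonempty.2 hf)
    (fun j => ((f.coeff j : L) : K) * t ^ j) (fun j hj => mul_ne_zero (hc0 j hj) (pow_ne_zero _ ht))
    (fun i hi j hj h => by
      rcases lt_trichotomy i j with h' | h' | h'
      · exact (key i j hi hj h' h).elim
      · exact h'
      · exact (key j i hj hi h' h.symm).elim)
  rw [h1]
  refine ⟨h3, fun j => ?_⟩
  by_cases hj : j ∈ f.support
  · exact h2 j hj
  · rw [Polynomial.notMem_support_iff] at hj
    rw [hj]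
    simp

/-- The step for a new independent value. -/
theorem mono_step (R' : Subring K) (ht : t ≠ 0) (hval : ∀ (c c' : K) (j : ℕ), c ∈ L → c' ∈ L →
    c ≠ 0 → c' ≠ 0 → j ≠ 0 → v c ≠ v c' * v t ^ j)
    (h : Inv v.valuationSubring R' L.subtype) :
    Inv v.valuationSubring R' (L ⊔ Subfield.closure {t}).subtype := by
  refine Pool.Agent.H176.DT.sub_trans v.valuationSubring R' t ?_ (fun f => ?_) h
  · rintro ⟨f, hf, h0⟩
    exact (poly_dom v L t ht hval f hf).1 h0
  · have hdeg1 : ∀ f : L[X], f.degree < (X : L[X]).degree → f = C (f.coeff 0) := by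
      intro f hf
      rw [degree_X] at hf
      apply eq_C_of_degree_le_zero
      exact Order.le_of_lt_succ (by
        have : (1 : WithBot ℕ) = Order.succ 0 := by rfl
        rw [← this]; exact hf)
    refine ⟨X, 1, fun _ => 1, ⟨monic_X, by rw [natDegree_X]; exact one_pos, fun _ => ?_, fun _ =>
      one_ne_zero, fun f hf => ⟨fun _ => f.coeff 0, ?_⟩, fun c i => ?_, fun f g hf hg hf0 hg0 => ?_⟩,
      f.natDegree + 1, fun j => C (f.coeff j), ⟨fun j => ?_, ?_⟩, fun j _ => ?_⟩
    · rw [degree_one, degree_X]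
      exact zero_lt_one
    · rw [Fin.sum_univ_one, mul_one]
      exact hdeg1 f hf
    · rw [Fin.sum_univ_one, Subsingleton.elim i 0]
    · rw [hdeg1 f hf, hdeg1 g hg, ← C_mul]
      have h1 : (C (f.coeff 0 * g.coeff 0) : L[X]) /ₘ X = 0 := by
        rw [divByMonic_eq_zero_iff monic_X, degree_X]
        exact lt_of_le_of_lt degree_C_le zero_lt_one
      rw [h1, zero_mul, map_zero, map_zero]
      rw [zero_lt_iff, Valuation.ne_zero_iff, aeval_C]
      have h2 : f.coeff 0 ≠ 0 := fun h => hf0 (by rw [hdeg1 f hf, h, C_0])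
      have h3 : g.coeff 0 ≠ 0 := fun h => hg0 (by rw [hdeg1 g hg, h, C_0])
      exact (_root_.map_ne_zero _).2 (mul_ne_zero h2 h3)
    · rw [degree_X]
      exact lt_of_le_of_lt degree_C_le zero_lt_one
    · exact f.as_sum_range_C_mul_X_pow
    · by_cases hf : f = 0
      · rw [hf]
        simp
      · have h1 := (poly_dom v L t ht hval f hf).2 j
        rw [map_mul, aeval_C, map_pow, aeval_X]
        exact (Valuation.isEquiv_valuation_valuationSubring v).le_iff_le.1 h1

end step

end Pool.Agent.H893.AB
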