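import Pool.Agent.H893.AB.Stm

/-!
# AB count: lattice points of bounded weight grow polynomially
-/

set_option autoImplicit false

namespace Pool.Agent.H893.AB

namespace Pcount

/-- the set of the lattice points of weight at most `T` -/
def S {r : ℕ} (ω : Fin r → ℝ) (T : ℝ) : Set (Fin r → ℕ) := {γ | ∑ i, (γ i : ℝ) * ω i ≤ T}

theorem exists_lower {r : ℕ} (ω : Fin r → ℝ) (hω : ∀ i, 0 < ω i) :
    ∃ w : ℝ, 0 < w ∧ ∀ i, w ≤ ω i := by
  rcases isEmpty_or_nonempty (Fin r) with h | h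
  · exact ⟨1, one_pos, fun i => (h.false i).elim⟩
  · obtain ⟨i₀, hi₀⟩ := Finite.exists_min ω
    exact ⟨ω i₀, hω i₀, hi₀⟩

theorem subset_pi {r : ℕ} {ω : Fin r → ℝ} (hω : ∀ i, 0 < ω i) {w : ℝ} (hw : 0 < w)
    (hle : ∀ i, w ≤ ω i) (T : ℝ) :
    S ω T ⊆ (Fintype.piFinset fun _ : Fin r => Finset.range (⌊T / w⌋₊ + 1) :
      Finset (Fin r → ℕ)) := by
  intro γ hγ
  rw [Finset.mem_coe, Fintype.mem_piFinset]
  intro i
  rw [Finset.mem_range, Nat.lt_succ_iff]
  refine Nat.le_floor ?_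
  rw [le_div_iff₀ hw]
  have h1 : (γ i : ℝ) * ω i ≤ ∑ i, (γ i : ℝ) * ω i :=
    Finset.single_le_sum (f := fun i => (γ i : ℝ) * ω i)
      (fun j _ => mul_nonneg (Nat.cast_nonneg _) (hω j).le) (Finset.mem_univ i)
  have h2 : (γ i : ℝ) * w ≤ (γ i : ℝ) * ω i := mul_le_mul_of_nonneg_left (hle i) (Nat.cast_nonneg _)
  exact h2.trans (h1.trans hγ)

theorem finite {r : ℕ} {ω : Fin r → ℝ} (hω : ∀ i, 0 < ω i) (T : ℝ) : (S ω T).Finite := by
  obtain ⟨w, hw, hle⟩ := exists_lower ω hω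
  exact (Finset.finite_toSet _).subset (subset_pi hω hw hle T)

theorem ncard_le {r : ℕ} {ω : Fin r → ℝ} (hω : ∀ i, 0 < ω i) {w : ℝ} (hw : 0 < w)
    (hle : ∀ i, w ≤ ω i) (T : ℝ) : (S ω T).ncard ≤ (⌊T / w⌋₊ + 1) ^ r := by
  refine (Set.ncard_le_ncard (subset_pi hω hw hle T) (Finset.finite_toSet _)).trans ?_
  rw [Set.ncard_coe_finset, Fintype.card_piFinset_const, Finset.card_range]

theorem one_le {r : ℕ} {ω : Fin r → ℝ} (hω : ∀ i, 0 < ω i) {T : ℝ} (hT : 0 ≤ T) :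
    1 ≤ (S ω T).ncard := by
  refine Nat.one_le_iff_ne_zero.2 ?_
  refine ((Set.ncard_pos (finite hω T)).2 ⟨0, ?_⟩).ne'
  change ∑ i, (((0 : Fin r → ℕ) i : ℕ) : ℝ) * ω i ≤ T
  simpa using hT

end Pcount

open Pcount Filter Topology in
theorem t_count : S_count := by
  intro r ω hω
  refine ⟨fun T => finite hω T, fun C hC => ?_⟩
  replace hC : ∀ T : ℝ, 0 ≤ T → 2 * (S ω T).ncard ≤ (S ω (T + C)).ncard := hC
  rcases le_or_gt C 0 with hC0 | hC0
  · have h1 := hC 0 le_rfl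
    have h2 : S ω (0 + C) ⊆ S ω 0 := fun γ hγ => by
      have h3 : ∑ i, (γ i : ℝ) * ω i ≤ 0 + C := hγ
      have h4 : ∑ i, (γ i : ℝ) * ω i ≤ 0 := by linarith
      exact h4
    have h3 := Set.ncard_le_ncard h2 (finite hω 0)
    have h4 := one_le hω (le_refl (0 : ℝ))
    omega
  · obtain ⟨w, hw, hle⟩ := exists_lower ω hω
    have hpow : ∀ j : ℕ, 2 ^ j ≤ (S ω (j * C)).ncard := by
      intro j
      induction j with
      | zero =>
        rw [pow_zero, Nat.cast_zero, zero_mul]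
        exact one_le hω le_rfl
      | succ j ih =>
        have h1 := hC (j * C) (by positivity)
        have h2 : (j : ℝ) * C + C = ((j + 1 : ℕ) : ℝ) * C := by push_cast; ring
        rw [h2] at h1
        rw [pow_succ]
        omega
    set K : ℝ := max (C / w) 1 with hK
    have hK1 : 1 ≤ K := le_max_right _ _
    have hK0 : 0 < K := zero_lt_one.trans_le hK1
    have hbd : ∀ j : ℕ, (2 : ℝ) ^ j ≤ K ^ r * ((j + 1 : ℕ) : ℝ) ^ r := by
      intro j
      have h1 : (2 ^ j : ℕ) ≤ (⌊(j : ℝ) * C / w⌋₊ + 1) ^ r :=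
        (hpow j).trans (ncard_le hω hw hle _)
      have h2 : ((2 ^ j : ℕ) : ℝ) ≤ (((⌊(j : ℝ) * C / w⌋₊ + 1) ^ r : ℕ) : ℝ) := by exact_mod_cast h1
      push_cast at h2
      refine h2.trans ?_
      rw [← mul_pow]
      refine pow_le_pow_left₀ (by positivity) ?_ r
      have h3 : (⌊(j : ℝ) * C / w⌋₊ : ℝ) ≤ (j : ℝ) * C / w := Nat.floor_le (by positivity)
      have h4 : (j : ℝ) * C / w ≤ j * K := by
        rw [mul_div_assoc]
        exact mul_le_mul_of_nonneg_left (le_max_left _ _) (Nat.cast_nonneg _)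
      push_cast
      linarith
    have hlim := tendsto_pow_const_div_const_pow_of_one_lt r (one_lt_two : (1 : ℝ) < 2)
    have hKr : 0 < K ^ r := pow_pos hK0 r
    have hev := (hlim.eventually (gt_mem_nhds (show (0 : ℝ) < 1 / (2 * K ^ r) by positivity)))
    obtain ⟨n, hn⟩ := (hev.and (eventually_ge_atTop 1)).exists
    obtain ⟨hn, hn1⟩ := hn
    obtain ⟨j, rfl⟩ : ∃ j, n = j + 1 := ⟨n - 1, by omega⟩
    have h1 := hbd j
    rw [div_lt_div_iff₀ (by positivity) (by positivity), one_mul, pow_succ] at hn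
    nlinarith

end Pool.Agent.H893.AB
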