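import Pool.Agent.H893.AB.Stm3

set_option autoImplicit false

universe u

namespace Pool.Agent.H893.AB.Plin

open Polynomial

section

variable {k : Type u} [Field k]

/-- The value at `T = 1` of the homogeneous component of degree `j`. -/
noncomputable def R (P : MvPolynomial (Fin 3) k) (j : ℕ) : MvPolynomial (Fin 2) k :=
  ∑ n ∈ P.support.filter (fun n => n 0 + n 1 + n 2 = j),
    MvPolynomial.monomial (Finsupp.single 0 (n 0) + Finsupp.single 1 (n 1)) (P.coeff n)

theorem coeff_R (P : MvPolynomial (Fin 3) k) (m : Fin 3 →₀ ℕ) (hm : P.coeff m ≠ 0) :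
    (R P (m 0 + m 1 + m 2)).coeff (Finsupp.single 0 (m 0) + Finsupp.single 1 (m 1)) =
      P.coeff m := by
  unfold R
  rw [MvPolynomial.coeff_sum, Finset.sum_eq_single m]
  · rw [MvPolynomial.coeff_monomial, if_pos rfl]
  · intro n hn hne
    rw [MvPolynomial.coeff_monomial, if_neg]
    intro h
    apply hne
    have h0 := DFunLike.congr_fun h 0
    have h1 := DFunLike.congr_fun h 1
    simp at h0 h1
    have hs := (Finset.mem_filter.1 hn).2
    ext i
    fin_cases i
    · exact h0
    · exact h1
    · change n 2 = m 2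
      omega
  · intro h
    exact (h (Finset.mem_filter.2 ⟨MvPolynomial.mem_support_iff.2 hm, rfl⟩)).elim

theorem coeff_aeval (P : MvPolynomial (Fin 3) k) (j : ℕ) (x : Fin 2 → k) :
    (MvPolynomial.aeval ![C (x 0) * X, C (x 1) * X, (X : k[X])] P : k[X]).coeff j =
      MvPolynomial.eval x (R P j) := by
  have h1 : (MvPolynomial.aeval ![C (x 0) * X, C (x 1) * X, (X : k[X])] P : k[X]) =
      ∑ n ∈ P.support, C (P.coeff n * (x 0) ^ (n 0) * (x 1) ^ (n 1)) * X ^ (n 0 + n 1 + n 2) := by
    rw [MvPolynomial.aeval_def, MvPolynomial.eval₂_eq']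
    refine Finset.sum_congr rfl fun n _ => ?_
    rw [Fin.prod_univ_three]
    simp only [Matrix.cons_val_zero, Matrix.cons_val_one, Matrix.cons_val, mul_pow,
      Polynomial.algebraMap_eq, map_mul, map_pow, pow_add]
    ring
  rw [h1, Polynomial.finsetSum_coeff]
  unfold R
  rw [map_sum, Finset.sum_filter]
  refine Finset.sum_congr rfl fun n _ => ?_
  rw [Polynomial.coeff_C_mul, Polynomial.coeff_X_pow]
  by_cases h : n 0 + n 1 + n 2 = j
  · rw [if_pos h, if_pos h.symm, mul_one, MvPolynomial.eval_monomial,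
      Finsupp.prod_add_index' (by simp) (by intros; exact pow_add _ _ _)]
    rw [Finsupp.prod_single_index (by exact pow_zero _), Finsupp.prod_single_index (by exact pow_zero _),
      mul_assoc]
  · rw [if_neg h, if_neg (fun e => h e.symm), mul_zero]

end

end Pool.Agent.H893.AB.Plin

namespace Pool.Agent.H893.AB

open Polynomial

/-- A general line through the origin is not tangent. -/
theorem t_lin : S_lin.{u} := by
  intro k _ _ P m d hm hd α₀
  have hR : Plin.R P (m 0 + m 1 + m 2) ≠ 0 := by
    intro h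
    have := Plin.coeff_R P m hm
    rw [h, MvPolynomial.coeff_zero] at this
    exact hm this.symm
  have hX : (MvPolynomial.X 0 - MvPolynomial.C α₀ : MvPolynomial (Fin 2) k) ≠ 0 := by
    intro h
    have := congrArg (MvPolynomial.eval (fun _ => α₀ + 1)) h
    simp at this
  have hS := mul_ne_zero hX hR
  obtain ⟨x, hx⟩ : ∃ x : Fin 2 → k, MvPolynomial.eval x
      ((MvPolynomial.X 0 - MvPolynomial.C α₀) * Plin.R P (m 0 + m 1 + m 2)) ≠ 0 := by
    by_contra hcon
    push Not at hcon
    exact hS (MvPolynomial.funext fun x => by rw [hcon x, map_zero])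
  rw [map_mul] at hx
  refine ⟨x 0, x 1, ?_, _, hd, ?_⟩
  · intro h
    apply left_ne_zero_of_mul hx
    simp [h]
  · rw [Plin.coeff_aeval]
    exact right_ne_zero_of_mul hx

end Pool.Agent.H893.AB
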