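import Pool.Agent.H893.AB.Stm3

/-!
# Project AB, part mult
-/

set_option autoImplicit false
set_option linter.unusedVariables false
set_option linter.unusedSectionVars false

universe u

namespace Pool.Agent.H893.AB

open Polynomial
open scoped NNReal

namespace Pmult

section th

variable {k L : Type*} [Field k] [AddCommGroup L]

/-- The polynomials in the three coordinates. -/
noncomputable def th (k : Type*) {L : Type*} [Field k] [AddCommGroup L] (g0 : L) :
    MvPolynomial (Fin 3) k →ₐ[k] (AddMonoidAlgebra k (L × ℕ))[X] :=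
  MvPolynomial.aeval ![C (AddMonoidAlgebra.single (g0, 0) 1),
    C (AddMonoidAlgebra.single ((0 : L), 1) 1), X]

lemma th_monomial (g0 : L) (m : Fin 3 →₀ ℕ) (c : k) :
    th k g0 (MvPolynomial.monomial m c) =
      monomial (m 2) (AddMonoidAlgebra.single (m 0 • g0, m 1) c) := by
  rw [th, MvPolynomial.aeval_monomial, Finsupp.prod_fintype _ _ (fun i => pow_zero _),
    Fin.prod_univ_three]
  have h0 : (![C (AddMonoidAlgebra.single (g0, 0) 1),
    C (AddMonoidAlgebra.single ((0 : L), 1) 1), X] : Fin 3 → (AddMonoidAlgebra k (L × ℕ))[X]) 0 =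
    C (AddMonoidAlgebra.single (g0, 0) 1) := rfl
  have h1 : (![C (AddMonoidAlgebra.single (g0, 0) 1),
    C (AddMonoidAlgebra.single ((0 : L), 1) 1), X] : Fin 3 → (AddMonoidAlgebra k (L × ℕ))[X]) 1 =
    C (AddMonoidAlgebra.single ((0 : L), 1) 1) := rfl
  have h2 : (![C (AddMonoidAlgebra.single (g0, 0) 1),
    C (AddMonoidAlgebra.single ((0 : L), 1) 1), X] : Fin 3 → (AddMonoidAlgebra k (L × ℕ))[X]) 2 =
    X := rfl
  have h3 : algebraMap k ((AddMonoidAlgebra k (L × ℕ))[X]) c =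
      C (AddMonoidAlgebra.single 0 c) := rfl
  rw [h0, h1, h2, h3, ← C_pow, ← C_pow, AddMonoidAlgebra.single_pow,
    AddMonoidAlgebra.single_pow, one_pow, one_pow, ← C_mul, ← mul_assoc, ← C_mul,
    AddMonoidAlgebra.single_mul_single, AddMonoidAlgebra.single_mul_single, C_mul_X_pow_eq_monomial]
  simp

lemma exists_th {g0 : L} {f : (AddMonoidAlgebra k (L × ℕ))[X]}
    (h : ∀ j μ, (f.coeff j).coeff μ ≠ 0 → ∃ n : ℕ, μ.1 = n • g0) : ∃ P, th k g0 P = f := by
  classical
  have h1 : f ∈ (th k g0).range := by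
    rw [f.as_sum_support]
    refine Subalgebra.sum_mem _ fun j _ => ?_
    rw [sum_single (f.coeff j), map_sum]
    refine Subalgebra.sum_mem _ fun μ hμ => ?_
    obtain ⟨n, hn⟩ := h j μ (Finsupp.mem_support_iff.1 hμ)
    refine ⟨MvPolynomial.monomial (Finsupp.equivFunOnFinite.symm ![n, μ.2, j])
      ((f.coeff j).coeff μ), ?_⟩
    have h2 := th_monomial (k := k) g0 (Finsupp.equivFunOnFinite.symm ![n, μ.2, j])
      ((f.coeff j).coeff μ)
    have h3 : (Finsupp.equivFunOnFinite.symm ![n, μ.2, j] : Fin 3 →₀ ℕ) 0 = n := rfl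
    have h4 : (Finsupp.equivFunOnFinite.symm ![n, μ.2, j] : Fin 3 →₀ ℕ) 1 = μ.2 := rfl
    have h5 : (Finsupp.equivFunOnFinite.symm ![n, μ.2, j] : Fin 3 →₀ ℕ) 2 = j := rfl
    rw [h3, h4, h5, ← hn] at h2
    exact h2
  exact h1

lemma th_coeff_ne {g0 : L} (Q : MvPolynomial (Fin 3) k) :
    ∀ j μ, ((th k g0 Q).coeff j).coeff μ ≠ 0 → ∃ m, Q.coeff m ≠ 0 ∧ m 2 = j ∧ m 1 = μ.2 ∧
      m 0 • g0 = μ.1 := by
  classical
  intro j μ hμ
  rw [Q.as_sum, map_sum, finsetSum_coeff, AddMonoidAlgebra.coeff_sum,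
    Finsupp.finsetSum_apply] at hμ
  obtain ⟨m, hm, h1⟩ := Finset.exists_ne_zero_of_sum_ne_zero hμ
  rw [th_monomial, coeff_monomial] at h1
  split_ifs at h1 with h2
  · rw [AddMonoidAlgebra.coeff_single, Finsupp.single_apply] at h1
    split_ifs at h1 with h3
    · exact ⟨m, h1, h2, congrArg Prod.snd h3, congrArg Prod.fst h3⟩
    · exact absurd rfl h1
  · exact absurd rfl h1

lemma th_coeff_zero {g0 : L} (hg : ∀ n : ℕ, n • g0 = 0 → n = 0) (Q : MvPolynomial (Fin 3) k)
    (j : ℕ) : ((th k g0 Q).coeff j).coeff 0 =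
      (MvPolynomial.aeval ![0, 0, (X : k[X])] Q : k[X]).coeff j := by
  classical
  induction Q using MvPolynomial.induction_on' with
  | add p q hp hq =>
    rw [map_add, map_add, coeff_add, coeff_add, AddMonoidAlgebra.coeff_add, Finsupp.add_apply,
      hp, hq]
  | monomial m c =>
    rw [th_monomial, MvPolynomial.aeval_monomial, Finsupp.prod_fintype _ _ (fun i => pow_zero _),
      Fin.prod_univ_three, coeff_monomial]
    have h0 : (![0, 0, X] : Fin 3 → k[X]) 0 = 0 := rfl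
    have h1 : (![0, 0, X] : Fin 3 → k[X]) 1 = 0 := rfl
    have h2 : (![0, 0, X] : Fin 3 → k[X]) 2 = X := rfl
    have h3 : algebraMap k k[X] c = C c := rfl
    rw [h0, h1, h2, h3]
    by_cases h4 : m 0 = 0
    · by_cases h5 : m 1 = 0
      · rw [h4, h5, pow_zero, one_mul, one_mul, coeff_C_mul, coeff_X_pow, zero_smul]
        by_cases h6 : m 2 = j
        · rw [if_pos h6, if_pos h6.symm, mul_one]
          exact Finsupp.single_eq_same
        · rw [if_neg h6, if_neg (Ne.symm h6), mul_zero]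
          rfl
      · rw [zero_pow h5, mul_zero, zero_mul, mul_zero, coeff_zero]
        split_ifs with h6
        · rw [AddMonoidAlgebra.coeff_single, Finsupp.single_apply, if_neg]
          intro h7
          exact h5 (congrArg Prod.snd h7)
        · rfl
    · rw [zero_pow h4, zero_mul, zero_mul, mul_zero, coeff_zero]
      split_ifs with h6
      · rw [AddMonoidAlgebra.coeff_single, Finsupp.single_apply, if_neg]
        intro h7
        exact h4 (hg _ (congrArg Prod.fst h7))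
      · rfl

lemma EV_th {S : Type*} [CommRing S] [Algebra k S] (g0 : L) (X : Multiplicative L →* Sˣ)
    (y z : S) (Q : MvPolynomial (Fin 3) k) :
    EV k X y z (th k g0 Q) =
      MvPolynomial.aeval ![(X (.ofAdd g0) : S), y, z] Q := by
  induction Q using MvPolynomial.induction_on with
  | C a =>
    have h3 : th k g0 (MvPolynomial.C a) = C (AddMonoidAlgebra.single 0 a) := by
      rw [th, MvPolynomial.aeval_C]
      rfl
    rw [h3, EV, eval₂_C, MvPolynomial.aeval_C]
    change ev k X y (AddMonoidAlgebra.single 0 a) = _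
    rw [ev_single]
    simp
  | add p q hp hq =>
    rw [map_add, map_add, ← hp, ← hq, EV, eval₂_add]
    rfl
  | mul_X p i hp =>
    rw [map_mul, map_mul, ← hp, EV, eval₂_mul, MvPolynomial.aeval_X]
    congr 1
    rw [th, MvPolynomial.aeval_X]
    fin_cases i
    · change eval₂ _ z (C (AddMonoidAlgebra.single (g0, 0) 1)) = (X (.ofAdd g0) : S)
      rw [eval₂_C]
      change ev k X y (AddMonoidAlgebra.single (g0, 0) 1) = _
      rw [ev_single]
      simp
    · change eval₂ _ z (C (AddMonoidAlgebra.single ((0 : L), 1) 1)) = y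
      rw [eval₂_C]
      change ev k X y (AddMonoidAlgebra.single ((0 : L), 1) 1) = _
      rw [ev_single]
      simp
    · change eval₂ _ z Polynomial.X = z
      rw [eval₂_X]

end th

end Pmult

open Pmult in
/-- **mult.** -/
theorem t_mult (h : S_lin.{u}) : S_mult.{u} := by
  intro k K L _ _ _ _ _ _ _ v d ω X y z f hk S g0 hg0 hω0 j μ hj hμ hlt
  classical
  have hinj : ∀ n : ℕ, n • g0 = 0 → n = 0 := by
    intro n hn
    have h1 := congrArg ω hn
    rw [map_nsmul, map_zero, nsmul_eq_mul] at h1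
    rcases mul_eq_zero.1 h1 with h2 | h2
    · exact_mod_cast h2
    · exact absurd h2 hω0.ne'
  have hinjZ : Function.Injective (zmultiplesHom L g0) := by
    rw [injective_iff_map_eq_zero]
    intro n hn
    rw [zmultiplesHom_apply] at hn
    have h1 := congrArg ω hn
    rw [map_zsmul, map_zero, zsmul_eq_mul] at h1
    rcases mul_eq_zero.1 h1 with h2 | h2
    · exact_mod_cast h2
    · exact absurd h2 hω0.ne'
  have hsur : Function.Surjective (zmultiplesHom L g0) := by
    intro a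
    obtain ⟨n, hn⟩ := hg0 a
    exact ⟨n, by rw [zmultiplesHom_apply, hn]⟩
  obtain ⟨e, he⟩ : ∃ e : ℤ ≃+ L, ∀ n : ℤ, e n = n • g0 :=
    ⟨AddEquiv.ofBijective (zmultiplesHom L g0) ⟨hinjZ, hsur⟩, fun n => rfl⟩
  have hes : ∀ n : ℤ, e.symm (n • g0) = n := fun n => by rw [← he, AddEquiv.symm_apply_apply]
  have hexp : ∀ j μ, (f.coeff j).coeff μ ≠ 0 → ∃ n : ℕ, μ.1 = n • g0 := by
    intro j μ hμ
    obtain ⟨n, hn⟩ := hg0 μ.1
    have h1 := S.ge0 j μ hμ
    rw [wX_apply, hn, map_zsmul, zsmul_eq_mul] at h1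
    have h2 : 0 ≤ n := by
      by_contra hcon
      push Not at hcon
      have h3 : (n : ℝ) < 0 := by exact_mod_cast hcon
      nlinarith
    refine ⟨n.toNat, ?_⟩
    rw [hn, ← natCast_zsmul, Int.toNat_of_nonneg h2]
  obtain ⟨P, rfl⟩ := exists_th hexp
  obtain ⟨m, hm1, hm2, hm3, hm4⟩ := th_coeff_ne P j μ hμ
  have hm5 : m 0 + m 1 + m 2 < d := by
    rw [← hm4, map_nsmul, nsmul_eq_mul, ← hm3, ← hm2] at hlt
    have h1 : ((m 0 + m 1 + m 2 : ℕ) : ℝ) * ω g0 < d * ω g0 := by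
      push_cast
      linarith
    have h2 := lt_of_mul_lt_mul_right h1 hω0.le
    exact_mod_cast h2
  obtain ⟨x0, hx0⟩ : ∃ x0 : DualNumber K, x0 = (X (.ofAdd g0) : DualNumber K) := ⟨_, rfl⟩
  have hx0v : v x0.fst = ex (ω g0) := by
    rw [hx0]
    exact S.hX g0
  have hx0n : x0.fst ≠ 0 := by
    intro h0
    rw [h0, map_zero] at hx0v
    exact ex_ne _ hx0v.symm
  obtain ⟨α₀, hα₀⟩ : ∃ α₀ : k, ∀ α, α ≠ α₀ → x0.fst - algebraMap k K α * z.fst ≠ 0 := by
    by_cases hz : z.fst = 0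
    · exact ⟨0, fun α _ => by rw [hz, mul_zero, sub_zero]; exact hx0n⟩
    · by_cases h1 : ∃ a : k, x0.fst = algebraMap k K a * z.fst
      · obtain ⟨a, ha⟩ := h1
        refine ⟨a, fun α hα h2 => hα ?_⟩
        rw [ha, ← sub_mul, ← map_sub] at h2
        rcases mul_eq_zero.1 h2 with h3 | h3
        · have h4 : a - α = 0 := (algebraMap k K).injective (by rw [h3, map_zero])
          exact (sub_eq_zero.1 h4).symm
        · exact absurd h3 hz
      · exact ⟨0, fun α _ h2 => h1 ⟨α, sub_eq_zero.1 h2⟩⟩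
  obtain ⟨α, β, hα, hex⟩ := h P m d hm1 hm5 α₀
  obtain ⟨j1, hj1, hj1n, hj1m⟩ : ∃ j1 < d,
      (MvPolynomial.aeval ![C α * Polynomial.X, C β * Polynomial.X, (Polynomial.X : k[X])] P :
        k[X]).coeff j1 ≠ 0 ∧ ∀ j < j1, (MvPolynomial.aeval ![C α * Polynomial.X,
        C β * Polynomial.X, (Polynomial.X : k[X])] P : k[X]).coeff j = 0 := by
    obtain ⟨j0, hj0, hj0'⟩ := hex
    have hex' : ∃ j, (MvPolynomial.aeval ![C α * Polynomial.X, C β * Polynomial.X,
      (Polynomial.X : k[X])] P : k[X]).coeff j ≠ 0 := ⟨j0, hj0'⟩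
    refine ⟨Nat.find hex', lt_of_le_of_lt (Nat.find_min' hex' hj0') hj0, Nat.find_spec hex',
      fun j hj => ?_⟩
    by_contra h1
    exact Nat.find_min hex' hj h1
  obtain ⟨x1, hx1⟩ : ∃ x1 : DualNumber K, x1 = x0 - algebraMap k (DualNumber K) α * z :=
    ⟨_, rfl⟩
  obtain ⟨y1, hy1⟩ : ∃ y1 : DualNumber K, y1 = y - algebraMap k (DualNumber K) β * z :=
    ⟨_, rfl⟩
  have hx1f : x1.fst = x0.fst - algebraMap k K α * z.fst := by
    rw [hx1, TrivSqZeroExt.fst_sub, TrivSqZeroExt.fst_mul]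
    rfl
  have hy1f : y1.fst = y.fst - algebraMap k K β * z.fst := by
    rw [hy1, TrivSqZeroExt.fst_sub, TrivSqZeroExt.fst_mul]
    rfl
  have hx1n : x1.fst ≠ 0 := by
    rw [hx1f]
    exact hα₀ α hα
  obtain ⟨u1, hu1⟩ : IsUnit x1 :=
    TrivSqZeroExt.isUnit_iff_isUnit_fst.2 (isUnit_iff_ne_zero.2 hx1n)
  have hvc : ∀ c : k, v (algebraMap k K c * z.fst) < 1 := by
    intro c
    rw [map_mul]
    exact lt_of_le_of_lt (mul_le_of_le_one_left zero_le (vk_le hk c)) S.hz
  have hx1v : v x1.fst < 1 := by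
    rw [hx1f]
    refine lt_of_le_of_lt (v.map_sub _ _) (max_lt ?_ (hvc α))
    rw [hx0v]
    exact ex_lt_one.2 hω0
  have hy1v : v y1.fst < 1 := by
    rw [hy1f]
    exact lt_of_le_of_lt (v.map_sub _ _) (max_lt S.hy (hvc β))
  obtain ⟨w1, hw1⟩ := exists_ex (x := v x1.fst) ((Valuation.ne_zero_iff _).2 hx1n)
  have hw1p : 0 < w1 := ex_lt_one.1 (hw1 ▸ hx1v)
  obtain ⟨ω', hω'⟩ : ∃ ω' : L →+ ℝ, ∀ n : ℤ, ω' (n • g0) = n * w1 := by
    refine ⟨((AddMonoidHom.mulRight w1).comp (Int.castAddHom ℝ)).comp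
      (e.symm : L →+ ℤ), fun n => ?_⟩
    change ((e.symm (n • g0) : ℤ) : ℝ) * w1 = _
    rw [hes]
  obtain ⟨X', hX'⟩ : ∃ X' : Multiplicative L →* (DualNumber K)ˣ, ∀ n : ℤ,
      X' (.ofAdd (n • g0)) = u1 ^ n := by
    refine ⟨(zpowersHom _ u1).comp (AddMonoidHom.toMultiplicative (e.symm : L →+ ℤ)),
      fun n => ?_⟩
    change u1 ^ (e.symm (n • g0) : ℤ) = _
    rw [hes]
  have hX'1 : (X' (.ofAdd g0) : DualNumber K) = x1 := by
    have h1 := hX' 1
    rw [one_zsmul, zpow_one] at h1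
    rw [h1, hu1]
  obtain ⟨Q, hQ⟩ : ∃ Q : MvPolynomial (Fin 3) k, Q = MvPolynomial.aeval
      ![MvPolynomial.X 0 + MvPolynomial.C α * MvPolynomial.X 2,
        MvPolynomial.X 1 + MvPolynomial.C β * MvPolynomial.X 2, MvPolynomial.X 2] P := ⟨_, rfl⟩
  have hQe : ∀ {S : Type u} [CommRing S] [Algebra k S] (a b c : S),
      MvPolynomial.aeval ![a, b, c] Q = MvPolynomial.aeval
        ![a + algebraMap k S α * c, b + algebraMap k S β * c, c] P := by
    intro S _ _ a b c
    rw [hQ, ← AlgHom.comp_apply]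
    congr 1
    apply MvPolynomial.algHom_ext
    intro i
    rw [AlgHom.comp_apply, MvPolynomial.aeval_X, MvPolynomial.aeval_X]
    fin_cases i
    · change MvPolynomial.aeval ![a, b, c] (MvPolynomial.X 0 +
        MvPolynomial.C α * MvPolynomial.X 2) = a + algebraMap k S α * c
      rw [map_add, map_mul, MvPolynomial.aeval_X, MvPolynomial.aeval_X, MvPolynomial.aeval_C]
      rfl
    · change MvPolynomial.aeval ![a, b, c] (MvPolynomial.X 1 +
        MvPolynomial.C β * MvPolynomial.X 2) = b + algebraMap k S β * c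
      rw [map_add, map_mul, MvPolynomial.aeval_X, MvPolynomial.aeval_X, MvPolynomial.aeval_C]
      rfl
    · change MvPolynomial.aeval ![a, b, c] (MvPolynomial.X 2) = c
      rw [MvPolynomial.aeval_X]
      rfl
  have hEV : EV k X' y1 z (th k g0 Q) = EV k X y z (th k g0 P) := by
    rw [EV_th, EV_th, hX'1, ← hx0, hQe, hx1, hy1, sub_add_cancel, sub_add_cancel]
  have hco : ∀ j, ((th k g0 Q).coeff j).coeff 0 = (MvPolynomial.aeval ![C α * Polynomial.X,
      C β * Polynomial.X, (Polynomial.X : k[X])] P : k[X]).coeff j := by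
    intro j
    rw [th_coeff_zero hinj, hQe, zero_add, zero_add]
    rfl
  refine ⟨ω', X', y1, z, th k g0 Q, j1, hj1, ?_⟩
  refine ⟨?_, ?_, hy1v, S.hz, ?_, ?_, ?_, ?_, ?_, ?_, ?_⟩
  · rw [injective_iff_map_eq_zero]
    intro a ha
    obtain ⟨n, rfl⟩ := hg0 a
    rw [hω'] at ha
    rcases mul_eq_zero.1 ha with h2 | h2
    · have h3 : n = 0 := by exact_mod_cast h2
      rw [h3, zero_smul]
    · exact absurd h2 hw1p.ne'
  · intro a
    obtain ⟨n, rfl⟩ := hg0 a
    rw [hX', hω', ex_zmul, ← hw1, ← map_zpow₀, ← hu1]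
    congr 1
    have h1 := congrArg Units.val (map_zpow (Units.map ((TrivSqZeroExt.fstHom k K K :
      DualNumber K →ₐ[k] K) : DualNumber K →* K)) u1 n)
    rw [Units.val_zpow_eq_zpow_val] at h1
    exact h1
  · intro F hF1 hF2 hF3
    have hz' : ∀ c : k, algebraMap k K c * z.fst ∈ F := fun c =>
      mul_mem (F.algebraMap_mem c) hF3
    have hx0F : x0.fst ∈ F := by
      have h1 : x0.fst = x1.fst + algebraMap k K α * z.fst := by
        rw [hx1f, sub_add_cancel]
      rw [h1]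
      refine add_mem ?_ (hz' α)
      have h2 := hF1 (.ofAdd g0)
      rw [XK_apply, hX'1] at h2
      exact h2
    refine S.gen F ?_ ?_ hF3
    · intro a
      obtain ⟨n, hn⟩ := hg0 a.toAdd
      have h1 : a = (.ofAdd g0 : Multiplicative L) ^ n := by
        rw [← ofAdd_zsmul, ← hn]
        rfl
      rw [h1, map_zpow, Units.val_zpow_eq_zpow_val, XK_apply, ← hx0]
      exact zpow_mem hx0F n
    · have h1 : y.fst = y1.fst + algebraMap k K β * z.fst := by
        rw [hy1f, sub_add_cancel]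
      rw [h1]
      exact add_mem hF2 (hz' β)
  · rw [hEV]
    exact S.fz
  · rw [hEV]
    exact S.fne
  · intro j μ hμ
    obtain ⟨m', h1, h2, h3, h4⟩ := th_coeff_ne Q j μ hμ
    rw [wX_apply, ← h4, ← natCast_zsmul, hω']
    positivity
  · rw [hco]
    exact hj1n
  · intro j hj
    rw [hco]
    exact hj1m j hj
  · obtain ⟨m1, hm1, a1, ha1⟩ := S.rr x1.fst hx1n
    obtain ⟨i, rfl⟩ := hg0 a1
    rw [hw1, ← ex_nmul, ex_inj, map_zsmul, zsmul_eq_mul] at ha1
    have hm1p : (0 : ℝ) < m1 := by exact_mod_cast Nat.pos_of_ne_zero hm1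
    have hi : 0 < i := by
      by_contra hcon
      push Not at hcon
      have h3 : (i : ℝ) ≤ 0 := by exact_mod_cast hcon
      have h4 : (0 : ℝ) < m1 * w1 := mul_pos hm1p hw1p
      nlinarith
    intro x hx
    obtain ⟨m2, hm2, a2, ha2⟩ := S.rr x hx
    obtain ⟨i2, rfl⟩ := hg0 a2
    refine ⟨m2 * i.toNat, mul_ne_zero hm2 (by omega), (i2 * m1) • g0, ?_⟩
    rw [pow_mul, ha2, ← ex_nmul, hω', map_zsmul, zsmul_eq_mul, ex_inj]
    have h5 : ((i.toNat : ℕ) : ℝ) = (i : ℝ) := by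
      exact_mod_cast Int.toNat_of_nonneg hi.le
    rw [h5]
    push_cast
    calc (i : ℝ) * (i2 * ω g0) = i2 * (i * ω g0) := by ring
      _ = i2 * (m1 * w1) := by rw [ha1]
      _ = _ := by ring

end Pool.Agent.H893.AB
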