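import Pool.Agent.H893.AB.Stm3

/-!
# The order drops, if the rational rank is one
-/

set_option autoImplicit false
set_option linter.unusedVariables false
set_option linter.unusedSectionVars false

universe u w

namespace Pool.Agent.H893.AB

open Polynomial
open scoped NNReal

/-- A lattice of rank one is cyclic. -/
lemma exists_gen {L : Type w} [AddCommGroup L] [Module.Free ℤ L] [Module.Finite ℤ L]
    (h1 : Module.finrank ℤ L = 1) {ω : L →+ ℝ} (hω : Function.Injective ω) :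
    ∃ g0 : L, (∀ a : L, ∃ n : ℤ, a = n • g0) ∧ 0 < ω g0 := by
  let b := Module.finBasisOfFinrankEq ℤ L h1
  have hb : ∀ a : L, a = b.repr a 0 • b 0 := by
    intro a
    conv_lhs => rw [← b.sum_repr a]
    rw [Fin.sum_univ_one]
  have h0 : ω (b 0) ≠ 0 := by
    intro h
    exact b.ne_zero 0 (hω (by rw [h, map_zero]))
  rcases lt_or_gt_of_ne h0 with h | h
  · refine ⟨-b 0, fun a => ⟨-b.repr a 0, ?_⟩, ?_⟩
    · rw [smul_neg, neg_smul, neg_neg]
      exact hb a
    · rw [map_neg]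
      linarith
  · exact ⟨b 0, fun a => ⟨b.repr a 0, hb a⟩, h⟩

section main

variable {k K : Type u} {L : Type w} [Field k] [Infinite k] [Field K] [Algebra k K]
  [AddCommGroup L] [Module.Free ℤ L] [Module.Finite ℤ L] {v : Valuation K ℝ≥0}

variable {d : ℕ} {ω : L →+ ℝ} {X : Multiplicative L →* (DualNumber K)ˣ}
    {y z : DualNumber K} {f : (AddMonoidAlgebra k (L × ℕ))[X]}

/-- The level is in the lattice and the slope is less than one. -/
theorem dropA_r (hM : S_mult.{u, w}) (hk : ∀ c : k, c ≠ 0 → v (algebraMap k K c) = 1)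
    (hres : ∀ x : K, v x ≤ 1 → ∃ c : k, v (x - algebraMap k K c) < 1)
    {g0 : L} (hg0 : ∀ a : L, ∃ n : ℤ, a = n • g0) (hg : 0 < ω g0)
    (S : Sys k v d ω X y z f) {A b : ℝ} (hV : Vtx ω A b d f) (hb : b < 1) (hA : ∃ a, ω a = A) :
    ∃ (ω' : L →+ ℝ) (X' : Multiplicative L →* (DualNumber K)ˣ) (y' z' : DualNumber K)
      (f' : (AddMonoidAlgebra k (L × ℕ))[X]) (d1 : ℕ), d1 < d ∧
      Sys k v d1 ω' X' y' z' f' := by
  classical
  obtain ⟨a, ha⟩ := hA
  have hroot := S.root hk hV.A0.le hV.lv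
  have hz1 : v (z * (X (.ofAdd (-a)) : DualNumber K)).fst ≤ 1 := by
    rw [TrivSqZeroExt.fst_mul, map_mul, S.hX, map_neg, ha]
    calc v z.fst * ex (-A) ≤ ex A * ex (-A) := mul_le_mul_of_nonneg_right hroot zero_le
      _ = 1 := by rw [← ex_add, add_neg_cancel, ex_zero]
  obtain ⟨c1, hc1⟩ := hres _ hz1
  have hG0 : ∀ j, (Zd a (d • a) f).coeff j ∈ ge (k := k) (wX ω) 0 := by
    intro j
    refine ge_mono (le_of_eq ?_) (Zd_ge (hV.lv j))
    rw [map_nsmul, ha, nsmul_eq_mul]
    ring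
  have hS2 := S.ps.div a (d • a) hG0 c1 hc1
  have hLF : LF ω 0 d (Zd a (d • a) f) = LF ω A d f := by
    ext1 j
    rw [LF_coeff, LF_coeff, Zd_coeff, mul_zero]
    have h1 := slice_shift (ω := ω) (j • a - d • a) (((d : ℝ) - j) * A) (f.coeff j)
    have h2 : ω (j • a - d • a) + ((d : ℝ) - j) * A = 0 := by
      rw [map_sub, map_nsmul, map_nsmul, ha, nsmul_eq_mul, nsmul_eq_mul]
      ring
    rw [h2] at h1
    exact h1
  have hs : slice ω 0 (AddMonoidAlgebra.single (0 : L × ℕ) c1) = C c1 := by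
    rw [slice_single, if_pos (by simp)]
    rfl
  have hLF2 : LF ω 0 d (taylor (AddMonoidAlgebra.single 0 c1) (Zd a (d • a) f)) =
      taylor (C c1) (LF ω A d f) := by
    rw [LF_taylor ω (A := 0) (by
      intro j
      rw [mul_zero]
      exact hG0 j) (single_mem_ge fun _ => by rw [map_zero]), hs, hLF]
  set f2 := taylor (AddMonoidAlgebra.single 0 c1) (Zd a (d • a) f) with hf2
  have hcf : ∀ j i : ℕ, (f2.coeff j).coeff (0, i) = ((taylor (C c1) (LF ω A d f)).coeff j).coeff i := by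
    intro j i
    rw [← hLF2, LF_coeff, mul_zero]
    have h2 := slice_coeff ω S.inj (f2.coeff j) 0 i
    rw [map_zero] at h2
    rw [h2]
  obtain ⟨j, hj, i, hi, h1⟩ := hV.uns (C c1) (fun h => absurd ha (h a))
  have hij : ((i : ℝ) + j) < d := by
    have h2 : (0 : ℝ) < (d : ℝ) - j := by
      have : (j : ℝ) < d := by exact_mod_cast hj
      linarith
    nlinarith
  -- the leading coefficient
  have htop : (f2.coeff d).coeff 0 ≠ 0 := by
    have h2 : (taylor (C c1) (LF ω A d f)).coeff d = (LF ω A d f).coeff d := by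
      have hdeg : (LF ω A d f).natDegree ≤ d := by
        rw [natDegree_le_iff_coeff_eq_zero]
        intro n hn
        rw [LF_coeff]
        apply slice_gt
        refine gt_of_ge ?_ (S.ge0 n)
        have h3 : (d : ℝ) < n := by exact_mod_cast hn
        have h4 := hV.A0
        nlinarith
      rw [coeff_taylor (LF ω A d f) (C c1) d (d + 1) (by omega), Finset.sum_range_succ,
        Finset.sum_eq_zero, zero_add]
      · simp
      · intro i hi
        rw [Finset.mem_range] at hi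
        rw [Nat.choose_eq_zero_of_lt hi]
        simp
    change (f2.coeff d).coeff (0, 0) ≠ 0
    rw [hcf, h2, LF_coeff, sub_self, zero_mul]
    have h3 := slice_coeff ω S.inj (f.coeff d) 0 0
    rw [map_zero] at h3
    rw [h3]
    exact S.top
  have hex : ∃ j : ℕ, (f2.coeff j).coeff 0 ≠ 0 := ⟨d, htop⟩
  have hle : Nat.find hex ≤ d := Nat.find_min' hex htop
  have hS3 : Sys k v (Nat.find hex) ω X y _ f2 := hS2.sys (Nat.find_spec hex) (by
    intro n hn
    by_contra h
    exact Nat.find_min hex hn h)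
  rcases hle.lt_or_eq with h2 | h2
  · exact ⟨ω, X, y, _, f2, _, h2, hS3⟩
  · rw [h2] at hS3
    refine hM hk hS3 g0 hg0 hg j (0, i) hj ?_ ?_
    · rw [hcf]
      exact h1
    · change ω 0 + ((i : ℝ) + j) * ω g0 < d * ω g0
      rw [map_zero, zero_add]
      exact mul_lt_mul_of_pos_right hij hg

/-- The level is not in the lattice and the slope is zero. -/
theorem dropB_r (hM : S_mult.{u, w}) (hk : ∀ c : k, c ≠ 0 → v (algebraMap k K c) = 1)
    {g0 : L} (hg0 : ∀ a : L, ∃ n : ℤ, a = n • g0) (hg : 0 < ω g0)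
    (S : Sys k v d ω X y z f) {A : ℝ} (hV : Vtx ω A 0 d f) (hA : ∀ a, ω a ≠ A) :
    ∃ (ω' : L →+ ℝ) (X' : Multiplicative L →* (DualNumber K)ˣ) (y' z' : DualNumber K)
      (f' : (AddMonoidAlgebra k (L × ℕ))[X]) (d1 : ℕ), d1 < d ∧
      Sys k v d1 ω' X' y' z' f' := by
  classical
  have hroot := S.root hk hV.A0.le hV.lv
  set a0 : L := ⌊A / ω g0⌋ • g0 with ha0
  have hωa : ω a0 = ⌊A / ω g0⌋ * ω g0 := by rw [ha0, map_zsmul, zsmul_eq_mul]
  have h1 : ω a0 < A := by
    refine lt_of_le_of_ne ?_ (hA a0)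
    rw [hωa]
    exact (le_div_iff₀ hg).1 (Int.floor_le _)
  have h2 : A - ω a0 < ω g0 := by
    have h3 := Int.lt_floor_add_one (A / ω g0)
    rw [div_lt_iff₀ hg] at h3
    rw [hωa]
    linarith
  have ha00 : 0 ≤ ω a0 := by
    rw [hωa]
    have h3 : (0 : ℤ) ≤ ⌊A / ω g0⌋ := Int.floor_nonneg.2 (div_nonneg hV.A0.le hg.le)
    have h4 : (0 : ℝ) ≤ (⌊A / ω g0⌋ : ℤ) := by exact_mod_cast h3
    positivity
  have hG0 : ∀ j, (Zd a0 (d • a0) f).coeff j ∈ ge (k := k) (wX ω) 0 := by
    intro j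
    by_cases hj : j ≤ d
    · refine ge_mono ?_ (Zd_ge (hV.lv j))
      rw [map_nsmul, nsmul_eq_mul]
      have h1 : (0 : ℝ) ≤ (d : ℝ) - j := by
        have : (j : ℝ) ≤ d := by exact_mod_cast hj
        linarith
      nlinarith
    · push Not at hj
      refine ge_mono ?_ (Zd_ge (S.ge0 j))
      rw [map_nsmul, nsmul_eq_mul]
      have h1 : (0 : ℝ) ≤ (j : ℝ) - d := by
        have : (d : ℝ) ≤ j := by exact_mod_cast hj.le
        linarith
      nlinarith
  have hGlv : Lv (wX ω) (A - ω a0) d (Zd a0 (d • a0) f) := by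
    intro j
    refine ge_mono (le_of_eq ?_) (Zd_ge (hV.lv j))
    rw [map_nsmul, nsmul_eq_mul]
    ring
  have hdiv := S.ps.div a0 (d • a0) hG0 0 (by
    rw [map_zero, sub_zero, TrivSqZeroExt.fst_mul, map_mul, S.hX, map_neg]
    calc v z.fst * ex (-(ω a0)) ≤ ex A * ex (-(ω a0)) := mul_le_mul_of_nonneg_right hroot zero_le
      _ = ex (A - ω a0) := by rw [← ex_add, sub_eq_add_neg]
      _ < 1 := ex_lt_one.2 (by linarith))
  rw [AddMonoidAlgebra.single_zero, taylor_zero] at hdiv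
  set G := Zd a0 (d • a0) f with hG
  have hcf : ∀ j : ℕ, G.coeff j = AddMonoidAlgebra.single (j • a0 - d • a0, 0) 1 * f.coeff j := by
    intro j
    rw [hG, Zd_coeff]
  have htop : (G.coeff d).coeff 0 ≠ 0 := by
    have h4 : G.coeff d = f.coeff d := by
      rw [hcf, sub_self]
      exact one_mul _
    rw [h4]
    exact S.top
  have hlow : ∀ j < d, (G.coeff j).coeff 0 = 0 := by
    intro j hj
    by_contra h3
    have h4 := hGlv j 0 h3
    rw [map_zero] at h4
    have h5 : (0 : ℝ) < (d : ℝ) - j := by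
      have : (j : ℝ) < d := by exact_mod_cast hj
      linarith
    have h6 : 0 < ((d : ℝ) - j) * (A - ω a0) := mul_pos h5 (by linarith)
    linarith
  have hS := hdiv.sys htop hlow
  obtain ⟨j, hj, i, hi, h3⟩ := hV.uns 0 (fun _ => rfl)
  have hi0 : i = 0 := by
    rw [mul_zero] at hi
    exact_mod_cast le_antisymm hi (Nat.cast_nonneg i)
  subst hi0
  rw [taylor_zero, LF_coeff] at h3
  obtain ⟨β, hβ, h4⟩ := slice_ne ω S.inj h3
  have h5 : (G.coeff j).coeff (β + (j • a0 - d • a0), 0) ≠ 0 := by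
    have h6 := slice_shift (ω := ω) (j • a0 - d • a0) (((d : ℝ) - j) * A) (f.coeff j)
    have h7 : ω (j • a0 - d • a0) + ((d : ℝ) - j) * A = ω (β + (j • a0 - d • a0)) := by
      rw [map_add, hβ]
      ring
    rw [h7, ← Zd_coeff, ← hβ] at h6
    have h8 := slice_coeff ω S.inj (G.coeff j) (β + (j • a0 - d • a0)) 0
    have h9 := slice_coeff ω S.inj (f.coeff j) β 0
    rw [← h8, h6, h9]
    exact h4
  refine hM hk hS g0 hg0 hg j (β + (j • a0 - d • a0), 0) hj h5 ?_
  change ω (β + (j • a0 - d • a0)) + (((0 : ℕ) : ℝ) + j) * ω g0 < d * ω g0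
  rw [map_add, hβ, map_sub, map_nsmul, map_nsmul, nsmul_eq_mul, nsmul_eq_mul, Nat.cast_zero,
    zero_add]
  have h6 : (0 : ℝ) < (d : ℝ) - j := by
    have : (j : ℝ) < d := by exact_mod_cast hj
    linarith
  nlinarith

end main

end Pool.Agent.H893.AB
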