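import Pool.Agent.H893.AB.R1
import Pool.Agent.H893.Fin

/-!
# The first part, if the rational rank is one
-/

set_option autoImplicit false
set_option linter.unusedVariables false
set_option linter.unusedSectionVars false

universe u w

namespace Pool.Agent.H893.AB

open Polynomial Pool.Agent.W418.LU2
open Pool.Agent.H176.DT (Mod SU PP St)
open scoped NNReal

section main

variable {k K : Type u} {L : Type w} [Field k] [Infinite k] [Field K] [Algebra k K]
  [AddCommGroup L] [Module.Free ℤ L] [Module.Finite ℤ L] {v : Valuation K ℝ≥0}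

variable {d : ℕ}

/-- The order drops. -/
theorem drop_aux_r (hM : S_mult.{u, w}) (p : ℕ) [Fact p.Prime] [CharP k p]
    (hk : ∀ c : k, c ≠ 0 → v (algebraMap k K c) = 1)
    (hres : ∀ x : K, v x ≤ 1 → ∃ c : k, v (x - algebraMap k K c) < 1) (H : HypH k L v)
    (htr : Algebra.trdeg k K = ((Module.finrank ℤ L + 1 : ℕ) : Cardinal))
    (hfr : Module.finrank ℤ L = 1)
    (n : ℕ) : ∀ {ω : L →+ ℝ} {X : Multiplicative L →* (DualNumber K)ˣ}
    {y z : DualNumber K} {f : (AddMonoidAlgebra k (L × ℕ))[X]} (S : Sys k v d ω X y z f)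
    {η : ℝ} (hη : 0 < η) (hyη : v y.fst = ex η) (hηω : ∀ a, ω a ≠ η)
    {A : ℝ} (hV : Vtx ω A (n / d.factorial) d f),
    ∃ (ω' : L →+ ℝ) (X' : Multiplicative L →* (DualNumber K)ˣ) (y' z' : DualNumber K)
      (f' : (AddMonoidAlgebra k (L × ℕ))[X]) (d1 : ℕ), d1 < d ∧
      Sys k v d1 ω' X' y' z' f' := by
  induction n using Nat.strong_induction_on with
  | _ n ih =>
    intro ω X y z f S η hη hyη hηω A hV
    obtain ⟨g0, hg0, hg⟩ := exists_gen hfr S.inj
    have hD0 : (0 : ℝ) < d.factorial := by exact_mod_cast d.factorial_pos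
    have hcmp : ∀ n' : ℕ, (n' : ℝ) / d.factorial < n / d.factorial → n' < n := by
      intro n' h
      rw [div_lt_div_iff_of_pos_right hD0] at h
      exact_mod_cast h
    by_cases hA : ∃ a, ω a = A
    · by_cases hb : (n : ℝ) / d.factorial < 1
      · exact dropA_r hM hk hres hg0 hg S hV hb hA
      · push Not at hb
        obtain ⟨ω', X', y', z', f', η', A', n', h1, h2, h3, h4, h5, h6, h7, h8, h9, h10⟩ :=
          P1v p hk H htr S hη hyη hηω hV
        refine ih n' (hcmp n' ?_) h1 h2 h3 h4 h8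
        by_cases hA' : ∃ a, ω' a = A'
        · obtain ⟨h11, h12⟩ := h9 hA'
          rcases hb.lt_or_eq with h13 | h13
          · linarith
          · have := h12 h13.ge
            linarith
        · push Not at hA'
          have := h10 hA'
          linarith
    · push Not at hA
      by_cases hb0 : (n : ℝ) / d.factorial = 0
      · rw [hb0] at hV
        exact dropB_r hM hk hg0 hg S hV hA
      · have hb1 : 0 < (n : ℝ) / d.factorial := lt_of_le_of_ne hV.b0 (Ne.symm hb0)
        obtain ⟨ω', X', y', z', f', η', A', n', h1, h2, h3, h4, h5, h6, h7, h8, h9, h10⟩ :=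
          P1v p hk H htr S hη hyη hηω hV
        by_cases hA' : ∃ a, ω' a = A'
        · obtain ⟨h11, h12⟩ := h9 hA'
          by_cases hb : (n : ℝ) / d.factorial ≤ 1
          · obtain ⟨g1, hg1, hg1'⟩ := exists_gen hfr h1.inj
            exact dropA_r hM hk hres hg1 hg1' h1 h8 (h12 hb) hA'
          · push Not at hb
            refine ih n' (hcmp n' ?_) h1 h2 h3 h4 h8
            linarith
        · push Not at hA'
          have := h10 hA'
          exact ih n' (hcmp n' (by linarith)) h1 h2 h3 h4 h8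

/-- The first part: there is a hypersurface of order one. -/
theorem part1_r (hM : S_mult.{u, w}) (p : ℕ) [Fact p.Prime] [CharP k p]
    (hk : ∀ c : k, c ≠ 0 → v (algebraMap k K c) = 1)
    (hres : ∀ x : K, v x ≤ 1 → ∃ c : k, v (x - algebraMap k K c) < 1) (H : HypH k L v)
    (htr : Algebra.trdeg k K = ((Module.finrank ℤ L + 1 : ℕ) : Cardinal))
    (hfr : Module.finrank ℤ L = 1)
    (d : ℕ) : ∀ {ω : L →+ ℝ} {X : Multiplicative L →* (DualNumber K)ˣ}
    {y z : DualNumber K} {f : (AddMonoidAlgebra k (L × ℕ))[X]} (S : Sys k v d ω X y z f),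
    ∃ (ω' : L →+ ℝ) (X' : Multiplicative L →* (DualNumber K)ˣ) (y' z' : DualNumber K)
      (f' : (AddMonoidAlgebra k (L × ℕ))[X]), Sys k v 1 ω' X' y' z' f' := by
  induction d using Nat.strong_induction_on with
  | _ d ih =>
    intro ω X y z f S
    have hd := S.d_pos hk
    by_cases hd1 : d = 1
    · subst hd1
      exact ⟨ω, X, y, z, f, S⟩
    · have hd2 : 2 ≤ d := by omega
      obtain ⟨y1, f1, η, h1, h2, h3, h4⟩ := P0 hk H htr S
      obtain ⟨ω', X', y', z', f', η', A', n, h5, h6, h7, h8, h9⟩ :=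
        P1s p hk H htr hd2 h1 h2 h3 h4
      obtain ⟨ω2, X2, y2, z2, f2, d2, h10, h11⟩ :=
        drop_aux_r hM p hk hres H htr hfr n h5 h6 h7 h8 h9
      exact ih d2 h10 h11

end main

/-- Strong uniformization if the rational rank is one and the value group is not finitely
generated. -/
theorem main_su_r (hM : S_mult.{u, 0}) {k K : Type u} [Field k] [Infinite k] (p : ℕ)
    [Fact p.Prime] [CharP k p]
    [Field K] [Algebra k K] [Algebra.EssFiniteType k K] (v : Valuation K ℝ≥0)
    (hk : ∀ c : k, c ≠ 0 → v (algebraMap k K c) = 1)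
    (hres : ∀ x : K, v x ≤ 1 → ∃ c : k, v (x - algebraMap k K c) < 1)
    (htr : Algebra.trdeg k K = ((1 + 1 : ℕ) : Cardinal))
    (x : Fin 1 → K) (hx0 : ∀ i, x i ≠ 0)
    (hind : ∀ m : Fin 1 → ℤ, ∏ i, v (x i) ^ m i = 1 → m = 0)
    (hrr : ∀ z : K, z ≠ 0 → ∃ n : ℕ, n ≠ 0 ∧ ∃ m : Fin 1 → ℤ, v z ^ n = ∏ i, v (x i) ^ m i)
    (hNF : ¬ (valGroup v).FG) :
    ∃ U : Set K, U.Finite ∧
      Mod v.valuationSubring (Subring.closure (Set.range (algebraMap k K) ∪ U)) ∧
      SU v.valuationSubring (Subring.closure (Set.range (algebraMap k K) ∪ U)) := by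
  have hp1 : ExpChar k p := inferInstance
  have hfr : Module.finrank ℤ (Fin 1 → ℤ) = 1 := by rw [Module.finrank_fin_fun]
  have htr' : Algebra.trdeg k K = ((Module.finrank ℤ (Fin 1 → ℤ) + 1 : ℕ) : Cardinal) := by
    rw [hfr]
    exact htr
  have H : HypH k (Fin 1 → ℤ) v := hypH p hk hres htr' hNF
  obtain ⟨d, ω, X, y, z, f, S⟩ := part0 p hk hres (by omega) htr H x hx0 hind hrr
  obtain ⟨ω', X', y', z', f', S'⟩ := part1_r hM p hk hres H htr' hfr d S
  exact part2 hk H htr' S'

end Pool.Agent.H893.AB
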