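import Pool.Agent.H893.AB.Su
import Pool.Agent.H893.AB.R2
import Pool.Agent.H893.AB.P_lin
import Pool.Agent.H893.AB.P_mult

/-!
# Strong uniformization for valuations of deficiency at most one with the residue field `k`
-/

set_option autoImplicit false
set_option linter.unusedVariables false
set_option linter.unusedSectionVars false

universe u

namespace Pool.Agent.H893.AB

open Polynomial IsLocalRing Pool.Agent.W418.LU2 Pool.Agent.TH188.QS Pool.Agent.H893.EC
open Pool.Agent.H176.DT (Mod SU PP St Inv KP Domi Exn)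
open Pool.Agent.R187.CT (Good rg)
open scoped NNReal

/-- A valuation with a cyclic value group is discrete. -/
theorem dvr_of_cyclic {K : Type u} [Field K] (v : Valuation K ℝ≥0) (x : K) (hx0 : x ≠ 0)
    (hx1 : v x < 1) (hgr : ∀ z : K, z ≠ 0 → ∃ m : ℤ, v z = v x ^ m) :
    IsDiscreteValuationRing v.valuationSubring := by
  have hvx : v x ≠ 0 := (Valuation.ne_zero_iff v).2 hx0
  have hpos : 0 < v x := zero_lt_iff.2 hvx
  let ϖ : v.valuationSubring := ⟨x, hx1.le⟩
  have hϖ0 : ϖ ≠ 0 := fun h => hx0 (congrArg Subtype.val h)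
  have hunit : ∀ z : v.valuationSubring, IsUnit z ↔ v (z : K) = 1 := by
    intro z
    constructor
    · rintro ⟨w, rfl⟩
      have h1 : v ((w : v.valuationSubring) : K) * v ((w⁻¹ : (v.valuationSubring)ˣ) : v.valuationSubring) = 1 := by
        rw [← map_mul]
        have : ((w : v.valuationSubring) : K) * ((w⁻¹ : (v.valuationSubring)ˣ) : v.valuationSubring) = 1 := by
          have := congrArg Subtype.val w.mul_inv
          exact this
        rw [this, map_one]
      refine le_antisymm (w : v.valuationSubring).2 ?_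
      rw [← h1]
      exact mul_le_of_le_one_right zero_le ((w⁻¹ : (v.valuationSubring)ˣ) : v.valuationSubring).2
    · intro h
      have hz0 : (z : K) ≠ 0 := by
        intro h2
        rw [h2, map_zero] at h
        exact zero_ne_one h
      refine IsUnit.of_mul_eq_one ⟨(z : K)⁻¹, ?_⟩ ?_
      · change v (z : K)⁻¹ ≤ 1
        rw [map_inv₀, h, inv_one]
      · apply Subtype.ext
        exact mul_inv_cancel₀ hz0
  have hval : ∀ z : v.valuationSubring, z ≠ 0 → ∃ n : ℕ, v (z : K) = v x ^ n := by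
    intro z hz
    have hz0 : (z : K) ≠ 0 := fun h => hz (Subtype.ext h)
    obtain ⟨m, hm⟩ := hgr z hz0
    have hm0 : 0 ≤ m := by
      by_contra hcon
      push Not at hcon
      have h1 : 1 < v x ^ m := one_lt_zpow_of_neg₀ hpos hx1 hcon
      rw [← hm] at h1
      exact absurd z.2 (not_le.2 h1)
    obtain ⟨n, rfl⟩ := Int.eq_ofNat_of_zero_le hm0
    exact ⟨n, by rw [hm]; exact zpow_natCast _ _⟩
  refine IsDiscreteValuationRing.ofHasUnitMulPowIrreducibleFactorization ⟨ϖ, ?_, ?_⟩
  · constructor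
    · rw [hunit]
      exact hx1.ne
    · intro a b hab
      have h1 : v (a : K) * v (b : K) = v x := by
        rw [← map_mul]
        congr 1
        exact (congrArg Subtype.val hab).symm
      have ha0 : a ≠ 0 := by
        rintro rfl
        rw [zero_mul] at hab
        exact hϖ0 hab
      have hb0 : b ≠ 0 := by
        rintro rfl
        rw [mul_zero] at hab
        exact hϖ0 hab
      obtain ⟨n, hn⟩ := hval a ha0
      obtain ⟨m, hm⟩ := hval b hb0
      rw [hn, hm, ← pow_add] at h1
      have h2 : n + m = 1 := by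
        have h3 : v x ^ (n + m) = v x ^ 1 := by rw [h1, pow_one]
        exact (pow_right_strictAnti₀ hpos hx1).injective h3
      rw [hunit, hunit, hn, hm]
      rcases Nat.eq_zero_or_pos n with h3 | h3
      · left
        rw [h3, pow_zero]
      · right
        have : m = 0 := by omega
        rw [this, pow_zero]
  · intro z hz
    obtain ⟨n, hn⟩ := hval z hz
    have hz0 : (z : K) ≠ 0 := fun h => hz (Subtype.ext h)
    have h1 : v ((z : K) * (x ^ n)⁻¹) = 1 := by
      rw [map_mul, map_inv₀, map_pow, hn]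
      exact mul_inv_cancel₀ (pow_ne_zero _ hvx)
    have h2 : IsUnit (⟨(z : K) * (x ^ n)⁻¹, h1.le⟩ : v.valuationSubring) := (hunit _).2 h1
    refine ⟨n, h2.unit, ?_⟩
    apply Subtype.ext
    change x ^ n * ((z : K) * (x ^ n)⁻¹) = z
    rw [mul_comm (z : K), ← mul_assoc, mul_inv_cancel₀ (pow_ne_zero _ hx0), one_mul]

/-- Rational rank one, transcendence degree two. -/
theorem su_r1 {k K : Type u} [Field k] [Infinite k] (p : ℕ) [Fact p.Prime] [CharP k p]
    [Field K] [Algebra k K] [Algebra.EssFiniteType k K] (v : Valuation K ℝ≥0)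
    (hk : ∀ c : k, c ≠ 0 → v (algebraMap k K c) = 1)
    (hres : ∀ x : K, v x ≤ 1 → ∃ c : k, v (x - algebraMap k K c) < 1)
    (htr : Algebra.trdeg k K = ((1 + 1 : ℕ) : Cardinal))
    (x : Fin 1 → K) (hx0 : ∀ i, x i ≠ 0)
    (hind : ∀ m : Fin 1 → ℤ, ∏ i, v (x i) ^ m i = 1 → m = 0)
    (hrr : ∀ z : K, z ≠ 0 → ∃ n : ℕ, n ≠ 0 ∧ ∃ m : Fin 1 → ℤ, v z ^ n = ∏ i, v (x i) ^ m i) :
    ∃ U : Set K, U.Finite ∧
      Mod v.valuationSubring (Subring.closure (Set.range (algebraMap k K) ∪ U)) ∧
      SU v.valuationSubring (Subring.closure (Set.range (algebraMap k K) ∪ U)) := by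
  by_cases hFG : (valGroup v).FG
  · obtain ⟨y, hy0, hyind, hgr⟩ := exists_basis v hFG x hx0 hind hrr
    have hgr' : ∀ z : K, z ≠ 0 → ∃ m : ℤ, v z = v (y 0) ^ m := by
      intro z hz
      obtain ⟨m, hm⟩ := hgr z hz
      refine ⟨m 0, ?_⟩
      rw [hm, Fin.prod_univ_one]
    have hvy : v (y 0) ≠ 1 := by
      intro h
      have h1 := congrFun (hyind (fun _ => 1) (by rw [Fin.prod_univ_one, zpow_one]; exact h)) 0
      exact one_ne_zero h1
    have hdvr : IsDiscreteValuationRing v.valuationSubring := by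
      rcases lt_or_gt_of_ne hvy with h | h
      · exact dvr_of_cyclic v (y 0) (hy0 0) h hgr'
      · refine dvr_of_cyclic v (y 0)⁻¹ (inv_ne_zero (hy0 0)) ?_ fun z hz => ?_
        · rw [map_inv₀]
          exact inv_lt_one_of_one_lt₀ h
        · obtain ⟨m, hm⟩ := hgr' z hz
          refine ⟨-m, ?_⟩
          rw [hm, map_inv₀, inv_zpow, zpow_neg, inv_inv]
    exact su_of_good v hk (Pool.Agent.R187.CT.good_dv (hjF k) _ _ (Or.inl hdvr))
  · exact main_su_r (t_mult t_lin) p v hk hres htr x hx0 hind hrr hFG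

/-- Strong uniformization of valuations of rank one and deficiency at most one, with the residue
field `k`. -/
theorem su_def {k K : Type u} [Field k] (p : ℕ) [Fact p.Prime] [CharP k p]
    [Field K] [Algebra k K] [Algebra.EssFiniteType k K] (v : Valuation K ℝ≥0)
    (hk : ∀ c : k, c ≠ 0 → v (algebraMap k K c) = 1)
    (hres : ∀ x : K, v x ≤ 1 → ∃ c : k, v (x - algebraMap k K c) < 1)
    (r : ℕ) (hr : 0 < r) (htr : Algebra.trdeg k K = (r : Cardinal) ∨
      (Algebra.trdeg k K = ((r + 1 : ℕ) : Cardinal) ∧ (r = 1 → Infinite k)))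
    (x : Fin r → K) (hx0 : ∀ i, x i ≠ 0)
    (hind : ∀ m : Fin r → ℤ, ∏ i, v (x i) ^ m i = 1 → m = 0)
    (hrr : ∀ z : K, z ≠ 0 → ∃ n : ℕ, n ≠ 0 ∧ ∃ m : Fin r → ℤ, v z ^ n = ∏ i, v (x i) ^ m i) :
    ∃ U : Set K, U.Finite ∧
      Mod v.valuationSubring (Subring.closure (Set.range (algebraMap k K) ∪ U)) ∧
      SU v.valuationSubring (Subring.closure (Set.range (algebraMap k K) ∪ U)) := by
  rcases htr with htr | ⟨htr, hinf⟩
  · exact su_of_good v hk (good_abh p v hk hres r hr htr x hx0 hind)
  · by_cases h1 : r = 1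
    · subst h1
      have := hinf rfl
      exact su_r1 p v hk hres htr x hx0 hind hrr
    · exact su_res p v hk hres r (by omega) htr x hx0 hind hrr

end Pool.Agent.H893.AB
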