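import Mathlib

/-!
# Statements for the project AB: Abhyankar valuations have no defect (Mathlib only)
-/

set_option autoImplicit false
set_option linter.unusedVariables false
set_option linter.unusedSectionVars false

universe u w

namespace Pool.Agent.H893.AB

open Polynomial
open scoped NNReal

/-- The number of lattice points of weight at most `T` grows polynomially. -/
def S_count : Prop :=
  ∀ (r : ℕ) (ω : Fin r → ℝ), (∀ i, 0 < ω i) →
    (∀ T : ℝ, {γ : Fin r → ℕ | ∑ i, (γ i : ℝ) * ω i ≤ T}.Finite) ∧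
    ∀ C : ℝ, ¬ ∀ T : ℝ, 0 ≤ T → 2 * {γ : Fin r → ℕ | ∑ i, (γ i : ℝ) * ω i ≤ T}.ncard ≤
      {γ : Fin r → ℕ | ∑ i, (γ i : ℝ) * ω i ≤ T + C}.ncard

/-- The dimension of a valued vector space with one-dimensional graded pieces is at most the number
of values. -/
def S_dim : Prop :=
  ∀ {k : Type u} {W : Type w} [Field k] [AddCommGroup W] [Module k W] [FiniteDimensional k W] (ν : W → ℝ)
    (G : Finset ℝ), (∀ w, w ≠ 0 → ν w ∈ G) → (∀ a b, ν (a + b) ≤ max (ν a) (ν b)) →
    (∀ (c : k) (a : W), ν (c • a) ≤ ν a) →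
    (∀ a b, a ≠ 0 → b ≠ 0 → ν a = ν b → ∃ c : k, ν (a - c • b) < ν a) →
    Module.finrank k W ≤ G.card

/-- Determinants are close if the entries are. -/
def S_det : Prop :=
  ∀ {F : Type u} [NormedField F] [IsUltrametricDist F] {n : ℕ} (A B : Matrix (Fin n) (Fin n) F)
    (R ε : ℝ), 0 ≤ R → 0 ≤ ε → ε ≤ 1 → (∀ i j, ‖A i j‖ ≤ R) → (∀ i j, ‖A i j - B i j‖ ≤ ε * R) →
    ‖A.det - B.det‖ ≤ ε * R ^ n

/-- The norm of a finite extension of complete fields. -/
def S_norm : Prop :=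
  ∀ {F L : Type u} [NontriviallyNormedField F] [CompleteSpace F] [IsUltrametricDist F]
    [NormedField L] [IsUltrametricDist L] [NormedAlgebra F L] [FiniteDimensional F L] (a : L),
    ‖Algebra.norm F a‖ = ‖a‖ ^ Module.finrank F L

/-- The completion of a finite extension of valued fields. -/
def S_compl : Prop :=
  ∀ {E K : Type u} [Field E] [Field K] [Algebra E K] [FiniteDimensional E K]
    (v : Valuation K ℝ≥0), (∃ e : E, e ≠ 0 ∧ v (algebraMap E K e) < 1) →
    ∃ (F L : Type u) (_ : NontriviallyNormedField F) (_ : CompleteSpace F)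
      (_ : IsUltrametricDist F) (_ : NormedField L) (_ : IsUltrametricDist L)
      (_ : NormedAlgebra F L) (_ : FiniteDimensional F L) (ι : K →+* L) (j : E →+* F),
      (∀ e, algebraMap F L (j e) = ι (algebraMap E K e)) ∧ (∀ a, ‖ι a‖ = v a) ∧
      (∀ (z : F) (ε : ℝ), 0 < ε → ∃ e : E, ‖z - j e‖ < ε) ∧
      ∀ (z : L) (ε : ℝ), 0 < ε → ∃ a : K, ‖z - ι a‖ < ε

/-- A finite separable extension `K` of `E` in which `E` is dense is generated by a simple root of a
polynomial with integral coefficients modulo the maximal ideal. -/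
def S_etgen : Prop :=
  ∀ {E K : Type u} [Field E] [Field K] [Algebra E K] [FiniteDimensional E K]
    [Algebra.IsSeparable E K] (v : Valuation K ℝ≥0),
    (∃ e : E, e ≠ 0 ∧ v (algebraMap E K e) < 1) →
    (∀ (a : K) (ε : ℝ≥0), 0 < ε → ∃ e : E, v (a - algebraMap E K e) < ε) →
    ∃ (ζ : K) (f : E[X]), (∀ i, v (algebraMap E K (f.coeff i)) ≤ 1) ∧ aeval ζ f = 0 ∧
      v (aeval ζ (derivative f)) = 1 ∧ v ζ < 1 ∧ ∀ z : K, ∃ g : E[X], aeval ζ g = z

/-- A field with a valuation with a free value group and the residue field `k` is separable over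
`k(x)` if the values of the `x i` are a basis of the value group. -/
def S_sepa : Prop :=
  ∀ {k K : Type u} [Field k] [Field K] [Algebra k K] (p : ℕ) [Fact p.Prime] [CharP k p]
    (v : Valuation K ℝ≥0), (∀ c : k, c ≠ 0 → v (algebraMap k K c) = 1) →
    (∀ x : K, v x ≤ 1 → ∃ c : k, v (x - algebraMap k K c) < 1) →
    ∀ {r : ℕ} (x : Fin r → K), (∀ i, x i ≠ 0) →
    (∀ m : Fin r → ℤ, ∏ i, v (x i) ^ m i = 1 → m = 0) →
    (∀ z : K, z ≠ 0 → ∃ m : Fin r → ℤ, v z = ∏ i, v (x i) ^ m i) →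
    Algebra.IsAlgebraic (IntermediateField.adjoin k (Set.range x)) K →
    Algebra.IsSeparable (IntermediateField.adjoin k (Set.range x)) K

/-- The value group of an Abhyankar valuation is finitely generated. -/
def S_fg : Prop :=
  ∀ {k K : Type u} [Field k] [Field K] [Algebra k K] [Algebra.EssFiniteType k K]
    (v : Valuation K ℝ≥0), (∀ c : k, c ≠ 0 → v (algebraMap k K c) = 1) →
    ∀ {r : ℕ} (x : Fin r → K), (∀ i, x i ≠ 0) →
    (∀ m : Fin r → ℤ, ∏ i, v (x i) ^ m i = 1 → m = 0) → Algebra.trdeg k K = (r : Cardinal) →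
    Algebra.IsAlgebraic (IntermediateField.adjoin k (Set.range x)) K ∧
    (Units.map (v.toMonoidWithZeroHom : K →* ℝ≥0)).range.FG ∧
    ∀ z : K, z ≠ 0 → ∃ n : ℕ, n ≠ 0 ∧ ∃ m : Fin r → ℤ, v z ^ n = ∏ i, v (x i) ^ m i

end Pool.Agent.H893.AB
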