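import Pool.Agent.H893.AB.Stm
import Pool.Agent.H893.KC

/-!
# Statements for the project AB, part 2: finite immediate extensions of monomial valued fields
-/

set_option autoImplicit false
set_option linter.unusedVariables false
set_option linter.unusedSectionVars false

universe u w

namespace Pool.Agent.H893.AB

open Polynomial
open scoped NNReal

/-- Let `F` be a complete field in which the Laurent polynomials are dense. If all elements of the
finite extension field `L` are monomials up to smaller elements, then `L = F`. -/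
def S_stab : Prop :=
  ∀ {k F L : Type u} {Λ : Type w} [Field k] [NontriviallyNormedField F] [CompleteSpace F]
    [IsUltrametricDist F] [NormedField L] [IsUltrametricDist L] [NormedAlgebra F L]
    [FiniteDimensional F L] [Algebra k F] [AddCommGroup Λ] [Module.Free ℤ Λ] [Module.Finite ℤ Λ],
    (∀ c : k, c ≠ 0 → ‖algebraMap k F c‖ = 1) →
    ∀ (ω : Λ →+ ℝ), Function.Injective ω →
    ∀ (X : Multiplicative Λ →* Fˣ), (∀ β, ‖(X (.ofAdd β) : F)‖ = Real.exp (-(ω β))) →
    (∀ (z : F) (ε : ℝ), 0 < ε → ∃ g : AddMonoidAlgebra k Λ, ‖z - evL k X g‖ < ε) →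
    (∀ a : L, a ≠ 0 → ∃ (c : k) (β : Λ),
      ‖a - algebraMap F L (algebraMap k F c * (X (.ofAdd β) : F))‖ < ‖a‖) →
    (∀ a : L, ‖Algebra.norm F a‖ = ‖a‖ ^ Module.finrank F L) →
    Module.finrank F L = 1

end Pool.Agent.H893.AB
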