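import Pool.Agent.H893.AB.Stm
import Pool.Agent.H893.P6m

/-!
# Statements for the project AB, part 3: rational rank one
-/

set_option autoImplicit false
set_option linter.unusedVariables false
set_option linter.unusedSectionVars false

universe u w

namespace Pool.Agent.H893.AB

open Polynomial
open scoped NNReal

/-- A general line through the origin is not tangent. -/
def S_lin : Prop :=
  ∀ {k : Type u} [Field k] [Infinite k] (P : MvPolynomial (Fin 3) k) (m : Fin 3 →₀ ℕ) (d : ℕ),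
    P.coeff m ≠ 0 → m 0 + m 1 + m 2 < d → ∀ α₀ : k, ∃ α β : k, α ≠ α₀ ∧ ∃ j < d,
      (MvPolynomial.aeval ![C α * X, C β * X, (X : k[X])] P : k[X]).coeff j ≠ 0

/-- The order of the hypersurface can be made smaller if its multiplicity is smaller, if the
lattice has rank one. -/
def S_mult : Prop :=
  ∀ {k K : Type u} {L : Type w} [Field k] [Infinite k] [Field K] [Algebra k K] [AddCommGroup L]
    [Module.Free ℤ L] [Module.Finite ℤ L] {v : Valuation K ℝ≥0} {d : ℕ} {ω : L →+ ℝ}
    {X : Multiplicative L →* (DualNumber K)ˣ} {y z : DualNumber K}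
    {f : (AddMonoidAlgebra k (L × ℕ))[X]}, (∀ c : k, c ≠ 0 → v (algebraMap k K c) = 1) →
    Sys k v d ω X y z f → ∀ g0 : L, (∀ a : L, ∃ n : ℤ, a = n • g0) → 0 < ω g0 →
    ∀ (j : ℕ) (μ : L × ℕ), j < d → (f.coeff j).coeff μ ≠ 0 →
    ω μ.1 + ((μ.2 : ℝ) + j) * ω g0 < d * ω g0 →
    ∃ (ω' : L →+ ℝ) (X' : Multiplicative L →* (DualNumber K)ˣ) (y' z' : DualNumber K)
      (f' : (AddMonoidAlgebra k (L × ℕ))[X]) (d1 : ℕ), d1 < d ∧
      Sys k v d1 ω' X' y' z' f'

end Pool.Agent.H893.AB
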