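import Pool.Agent.H893.DD.Stm3

/-!
# Statements for the project AB, part 4: residue fields of Abhyankar valuations
-/

set_option autoImplicit false
set_option linter.unusedVariables false
set_option linter.unusedSectionVars false

universe u

namespace Pool.Agent.H893.AB

open Pool.Agent.H893.DD
open scoped NNReal

/-- The residue field of an Abhyankar valuation of rank one of a finitely generated field is
finitely generated. -/
def S_resfg : Prop :=
  ∀ {k K : Type u} [Field k] [Field K] [Algebra k K] [Algebra.EssFiniteType k K]
    (v : Valuation K ℝ≥0) (hk : ∀ c : k, c ≠ 0 → v (algebraMap k K c) = 1) (r : ℕ),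
    (letI := rAlg v hk; Algebra.trdeg k K = Algebra.trdeg k (Rf v) + (r : Cardinal)) →
    ∀ x : Fin r → K, (∀ i, x i ≠ 0) →
    (∀ m : Fin r → ℤ, ∏ i, v (x i) ^ m i = 1 → m = 0) →
    (letI := rAlg v hk; Algebra.EssFiniteType k (Rf v))

end Pool.Agent.H893.AB
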