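import Pool.Agent.H893.AB.Abh
import Pool.Agent.H893.AB.Mono
import Pool.Agent.H893.EC.Main

/-!
# Strong uniformization for Abhyankar valuations with the residue field `k`
-/

set_option autoImplicit false
set_option linter.unusedVariables false
set_option linter.unusedSectionVars false

universe u

namespace Pool.Agent.H893.AB

open Polynomial IsLocalRing Pool.Agent.W418.LU2 Pool.Agent.TH188.QS Pool.Agent.H893.EC
open Pool.Agent.H176.DT (Mod SU PP St Inv KP Domi Exn)
open Pool.Agent.R187.CT (Good rg)
open scoped NNReal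

/-- Strong uniformization from goodness. -/
theorem su_of_good {k K : Type u} [Field k] [Field K] [Algebra k K] [Algebra.EssFiniteType k K]
    (v : Valuation K ℝ≥0) (hk : ∀ c : k, c ≠ 0 → v (algebraMap k K c) = 1)
    (h : Good (algebraMap k K) v.valuationSubring) :
    ∃ U : Set K, U.Finite ∧
      Mod v.valuationSubring (Subring.closure (Set.range (algebraMap k K) ∪ U)) ∧
      SU v.valuationSubring (Subring.closure (Set.range (algebraMap k K) ∪ U)) := by
  have hkV : ∀ a : k, algebraMap k K a ∈ v.valuationSubring :=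
    fun a => Pool.Agent.H893.DD.kV_mem v hk a
  have hK : ∃ S : Set K, S.Finite ∧ ∀ z, Fr (rg (algebraMap k K) S) z := by
    obtain ⟨S, hS, hSV, hSM⟩ := Pool.Agent.H893.DD.exists_mod (k := k) v hk
    refine ⟨S, hS, fun z => ?_⟩
    exact (hSM (rg (algebraMap k K) S) (fun c => Subring.subset_closure
      (Or.inl ⟨c, rfl⟩)) (fun s hs => Subring.subset_closure (Or.inr hs)) (by
        rw [Subring.closure_le]
        rintro z (⟨c, rfl⟩ | hz)
        · exact hkV c
        · exact hSV z hz)).2 z
  obtain ⟨T₁, hT₁f, hT₁⟩ := h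
  obtain ⟨S, hSf, hSV, hSE⟩ := Pool.Agent.R187.CT.exists_model (algebraMap k K) _ hkV hK
  have hnoe := Pool.Agent.R187.CT.noe_rg (hjF k) (algebraMap k K) hSf
  have hGP := hT₁ S hSf hSV fun t _ => hSE t
  have hLU : LogUnif v.valuationSubring (rg (algebraMap k K) S) := hGP.logUnif hSV
  have hSU : SU v.valuationSubring (rg (algebraMap k K) S) :=
    Pool.Agent.H176.DT.p_base _ (rg (algebraMap k K) S) ⟨hSV, hSE⟩ hLU
  have he : rg (algebraMap k K) S = Subring.closure (Set.range (algebraMap k K) ∪ S) :=
    range_union _ S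
  rw [he] at hSU hSV hSE
  exact ⟨S, hSf, ⟨hSV, hSE⟩, hSU⟩

section mono

variable {k K : Type u} [Field k] [Field K] [Algebra k K] (v : Valuation K ℝ≥0)
  (hk : ∀ c : k, c ≠ 0 → v (algebraMap k K c) = 1)

include hk in
/-- The tower of the monomials. -/
theorem inv_adjoin (R' : Subring K) (r : ℕ) : ∀ (x : Fin r → K), (∀ i, x i ≠ 0) →
    (∀ m : Fin r → ℤ, ∏ i, v (x i) ^ m i = 1 → m = 0) →
    Inv v.valuationSubring R' (algebraMap k K).fieldRange.subtype →
    Inv v.valuationSubring R' (IntermediateField.adjoin k (Set.range x)).toSubfield.subtype := by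
  induction r with
  | zero =>
    intro x _ _ h
    have h1 : (IntermediateField.adjoin k (Set.range x)).toSubfield =
        (algebraMap k K).fieldRange := by
      rw [Set.range_eq_empty, IntermediateField.adjoin_empty, IntermediateField.bot_toSubfield]
    rw [h1]
    exact h
  | succ r ih =>
    intro x hx0 hind h
    have hind' : ∀ m : Fin r → ℤ, ∏ i, v (x i.castSucc) ^ m i = 1 → m = 0 := by
      intro m hm
      have h1 := hind (Fin.snoc m 0) (by
        rw [Fin.prod_univ_castSucc]
        simp only [Fin.snoc_castSucc, Fin.snoc_last, zpow_zero, mul_one]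
        exact hm)
      funext i
      have h2 := congrFun h1 i.castSucc
      rw [Fin.snoc_castSucc] at h2
      exact h2
    have h1 := ih (fun i => x i.castSucc) (fun i => hx0 _) hind' h
    set E1 := IntermediateField.adjoin k (Set.range fun i : Fin r => x i.castSucc) with hE1
    have h2 := mono_step v E1.toSubfield (x (Fin.last r)) R' (hx0 _) (by
      intro c c' j hc hc' hc0 hc0' hj h3
      obtain ⟨m, hm⟩ := Pfg.field_val v hk (fun i : Fin r => x i.castSucc) (fun i => hx0 _) hind' c
        hc hc0
      obtain ⟨m', hm'⟩ := Pfg.field_val v hk (fun i : Fin r => x i.castSucc) (fun i => hx0 _) hind'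
        c' hc' hc0'
      have hvx : ∀ i, v (x i) ≠ 0 := fun i => (Valuation.ne_zero_iff v).2 (hx0 i)
      have h4 := hind (Fin.snoc (fun i => m i - m' i) (-(j : ℤ))) (by
        rw [Fin.prod_univ_castSucc]
        simp only [Fin.snoc_castSucc, Fin.snoc_last]
        rw [Finset.prod_congr rfl fun i _ => zpow_sub₀ (hvx _) _ _, Finset.prod_div_distrib, ← hm,
          ← hm', h3, zpow_neg, zpow_natCast]
        have h5 : v c' ≠ 0 := (Valuation.ne_zero_iff v).2 hc0'
        have h6 : v (x (Fin.last r)) ^ j ≠ 0 := pow_ne_zero _ (hvx _)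
        field_simp)
      have h5 := congrFun h4 (Fin.last r)
      rw [Fin.snoc_last, Pi.zero_apply] at h5
      omega) h1
    have h3 : E1.toSubfield ⊔ Subfield.closure {x (Fin.last r)} =
        (IntermediateField.adjoin k (Set.range x)).toSubfield := by
      apply le_antisymm
      · refine sup_le ?_ ?_
        · intro z hz
          refine (?_ : E1 ≤ IntermediateField.adjoin k (Set.range x)) hz
          rw [hE1, IntermediateField.adjoin_le_iff]
          rintro _ ⟨i, rfl⟩
          exact IntermediateField.subset_adjoin _ _ ⟨_, rfl⟩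
        · rw [Subfield.closure_le]
          rintro _ rfl
          exact IntermediateField.subset_adjoin _ _ ⟨_, rfl⟩
      · let F0 : IntermediateField k K :=
          (E1.toSubfield ⊔ Subfield.closure {x (Fin.last r)}).toIntermediateField
            (fun c => (le_sup_left : E1.toSubfield ≤ _) (E1.algebraMap_mem c))
        have h4 : IntermediateField.adjoin k (Set.range x) ≤ F0 := by
          rw [IntermediateField.adjoin_le_iff]
          rintro _ ⟨i, rfl⟩
          change x i ∈ E1.toSubfield ⊔ Subfield.closure {x (Fin.last r)}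
          refine Fin.lastCases ?_ (fun i => ?_) i
          · exact (le_sup_right : Subfield.closure {x (Fin.last r)} ≤ _)
              (Subfield.subset_closure rfl)
          · exact (le_sup_left : E1.toSubfield ≤ _)
              (IntermediateField.subset_adjoin _ _ ⟨i, rfl⟩)
        exact fun z hz => h4 hz
    rw [← h3]
    exact h2

end mono

/-- Abhyankar valuations of rank one with the residue field `k` are good. -/
theorem good_abh {k K : Type u} [Field k] (p : ℕ) [Fact p.Prime] [CharP k p]
    [Field K] [Algebra k K] [Algebra.EssFiniteType k K] (v : Valuation K ℝ≥0)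
    (hk : ∀ c : k, c ≠ 0 → v (algebraMap k K c) = 1)
    (hres : ∀ x : K, v x ≤ 1 → ∃ c : k, v (x - algebraMap k K c) < 1)
    (r : ℕ) (hr : 0 < r) (htr : Algebra.trdeg k K = (r : Cardinal))
    (x : Fin r → K) (hx0 : ∀ i, x i ≠ 0)
    (hind : ∀ m : Fin r → ℤ, ∏ i, v (x i) ^ m i = 1 → m = 0) :
    Good (algebraMap k K) v.valuationSubring := by
  classical
  obtain ⟨-, hFG, hrr⟩ := t_fg v hk x hx0 hind htr
  obtain ⟨y, hy0, hyind, hgr⟩ := exists_basis v hFG x hx0 hind hrr
  obtain ⟨halg, -, -⟩ := t_fg v hk y hy0 hyind htr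
  set E := IntermediateField.adjoin k (Set.range y) with hE
  have hess : Algebra.EssFiniteType E K := .of_comp k E K
  have hfin : FiniteDimensional E K := Algebra.finite_of_essFiniteType_of_isAlgebraic
  have hsep : Algebra.IsSeparable E K := t_sepa p v hk hres y hy0 hyind hgr halg
  have hnt : ∃ e : E, e ≠ 0 ∧ v (algebraMap E K e) < 1 := by
    have hyE : y ⟨0, hr⟩ ∈ E := IntermediateField.subset_adjoin _ _ ⟨_, rfl⟩
    have hvy : v (y ⟨0, hr⟩) ≠ 1 := by
      intro h8
      have h9 := hyind (Pi.single ⟨0, hr⟩ 1) (by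
        rw [Finset.prod_eq_single (⟨0, hr⟩ : Fin r)]
        · rw [Pi.single_eq_same, zpow_one]
          exact h8
        · intro j _ hj
          rw [Pi.single_eq_of_ne hj, zpow_zero]
        · intro h9
          exact absurd (Finset.mem_univ _) h9)
      have h10 := congrFun h9 ⟨0, hr⟩
      rw [Pi.single_eq_same] at h10
      exact one_ne_zero h10
    rcases lt_or_gt_of_ne hvy with h8 | h8
    · exact ⟨⟨_, hyE⟩, fun h => hy0 _ (congrArg Subtype.val h), h8⟩
    · refine ⟨⟨_, hyE⟩⁻¹, inv_ne_zero fun h => hy0 _ (congrArg Subtype.val h), ?_⟩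
      rw [map_inv₀, map_inv₀]
      exact inv_lt_one_of_one_lt₀ h8
  obtain ⟨ζ, f, hf1, hf2, hf3, hf4, hf5⟩ := t_etgen (E := E) (K := K) v hnt
    (fun a ε hε => dense_abh v hk hres hr y hy0 hyind hgr a ε hε)
  obtain ⟨u, μ, hμ1, hμ2, hμ3, hμ4, hμ5⟩ := exists_monic_generator (E := E) v.valuationSubring f ζ
    (fun i => hf1 i) hf2
    ((Valuation.isEquiv_valuation_valuationSubring v).lt_one_iff_lt_one.1 hf4)
    (val_one hf3) (by
      intro w
      obtain ⟨g, rfl⟩ := hf5 w
      have hζ : ζ ∈ Subfield.closure (Set.range (algebraMap E K) ∪ {ζ}) :=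
        Subfield.subset_closure (Or.inr rfl)
      have hcE : ∀ c : E, algebraMap E K c ∈ Subfield.closure (Set.range (algebraMap E K) ∪ {ζ}) :=
        fun c => Subfield.subset_closure (Or.inl ⟨c, rfl⟩)
      rw [aeval_eq_sum_range]
      refine sum_mem fun i _ => ?_
      rw [Algebra.smul_def]
      exact mul_mem (hcE _) (pow_mem hζ _))
  have hu : ∀ z : K, ∃ g : E[X], aeval u g = z := by
    intro z
    have hint : IsIntegral E u := Algebra.IsIntegral.isIntegral u
    let F0 : IntermediateField E K :=
      (Subfield.closure (Set.range (algebraMap E K) ∪ {u})).toIntermediateField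
        (fun c => Subfield.subset_closure (Or.inl ⟨c, rfl⟩))
    have h1 : IntermediateField.adjoin E {u} = ⊤ := by
      rw [eq_top_iff]
      intro w _
      have h2 := hμ5 w
      refine (?_ : Subfield.closure (Set.range (algebraMap E K) ∪ {u}) ≤
        (IntermediateField.adjoin E {u}).toSubfield) h2
      rw [Subfield.closure_le]
      rintro t (⟨c, rfl⟩ | ht)
      · exact (IntermediateField.adjoin E {u}).algebraMap_mem c
      · exact IntermediateField.subset_adjoin _ _ ht
    have h3 : z ∈ (IntermediateField.adjoin E {u}).toSubalgebra := by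
      rw [h1]
      trivial
    rw [IntermediateField.adjoin_simple_toSubalgebra_of_isAlgebraic hint.isAlgebraic,
      Algebra.adjoin_singleton_eq_range_aeval] at h3
    exact h3
  -- the tower
  have hinv : ∀ R' : Subring K, Inv v.valuationSubring R' (algebraMap k K).fieldRange.subtype →
      Inv v.valuationSubring R' (⊤ : Subfield K).subtype := by
    intro R' h0
    have h1 := inv_adjoin v hk R' r y hy0 hyind h0
    rw [← hE] at h1
    let φ : E →+* E.toSubfield := RingHom.codRestrict (algebraMap E K) E.toSubfield (fun z => z.2)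
    have hφ : E.toSubfield.subtype.comp φ = algebraMap E K := rfl
    have hcomp : ((algebraMap K K).comp E.toSubfield.subtype).comp φ = algebraMap E K := rfl
    refine Pool.Agent.H176.DT.sub_nd v.valuationSubring R' (L := E.toSubfield) le_top
      ⟨K, inferInstance, Algebra.id K, v.valuationSubring, u, μ.map φ, 1, fun _ => 1, ?_,
        hμ1.map φ, ?_, ?_, ?_, fun _ => ⟨trivial, one_ne_zero⟩, ?_, ?_⟩ h1
    · ext z
      rfl
    · intro i
      rw [coeff_map]
      exact hμ2 i
    · rw [eval₂_map, hcomp]
      exact hμ3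
    · rw [derivative_map, eval₂_map, hcomp]
      exact hμ4
    · intro z _
      obtain ⟨g, rfl⟩ := hu z
      refine ⟨fun _ => g.map φ, ?_⟩
      rw [Fin.sum_univ_one, eval₂_map, hcomp, map_one, mul_one]
      rfl
    · intro q i
      rw [Fin.sum_univ_one, Subsingleton.elim i 0]
  have hgood := Pool.Agent.R187.CT.good_tower (hjF k) (E := k) (K := K) (RingHom.id k)
    v.valuationSubring (fun a => Pool.Agent.H893.DD.kV_mem v hk a)
    ⟨∅, Set.finite_empty, fun z => Fr.of_mem (Subring.subset_closure (Or.inl ⟨z, rfl⟩))⟩ (by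
      have h1 : v.valuationSubring.comap (algebraMap k K) = ⊤ := by
        rw [eq_top_iff]
        intro z _
        exact Pool.Agent.H893.DD.kV_mem v hk z
      rw [h1]
      exact Pool.Agent.R187.CT.good_top _) hinv
  rw [RingHom.comp_id] at hgood
  exact hgood

end Pool.Agent.H893.AB
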